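import Pool.Agent.GP.SubLevel

/-!
# A nonzero element of a representation yields a character satisfying all its relations
-/

namespace Pool.Agent.GP.Half

open Pool.Agent.GP

/-- If `v ≠ 0` is killed by a power of `p`, there is a field `k'` of characteristic `p` and a
character `χ` of `G` satisfying every relation satisfied by `v`. -/
theorem exists_char_rel {G V : Type} [CommGroup G] [AddCommGroup V] (ρ : G →* Module.End ℤ V)
    (p s : ℕ) [Fact p.Prime] (v : V) (hq : p ^ s • v = 0) (hv : v ≠ 0) :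
    ∃ (k' : Type) (_ : Field k') (_ : CharP k' p) (χ : G →* k'),
      ∀ (ι : Type) (S : Finset ι) (n : ι → ℤ) (g : ι → G),
        ∑ i ∈ S, n i • ρ (g i) v = 0 → ∑ i ∈ S, (n i : k') * χ (g i) = 0 := by
  have hne : annIdeal ρ v ≠ ⊤ := by
    rw [Ne, Ideal.eq_top_iff_one, mem_annIdeal, map_one]
    exact hv
  obtain ⟨m, hm, hIm⟩ := Ideal.exists_le_maximal _ hne
  let _ : Field (MonoidAlgebra ℤ G ⧸ m) := Ideal.Quotient.field m
  have h1 : ((p : ℕ) : MonoidAlgebra ℤ G ⧸ m) = 0 := by
    have h1 : ((p ^ s : ℕ) : MonoidAlgebra ℤ G) ∈ annIdeal ρ v := by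
      rw [mem_annIdeal, map_natCast]
      rw [← hq]
      exact Module.End.natCast_apply (p ^ s) v
    have h2 := hIm h1
    rw [← Ideal.Quotient.eq_zero_iff_mem, map_natCast, Nat.cast_pow] at h2
    exact IsReduced.eq_zero _ ⟨s, h2⟩
  have hchar : CharP (MonoidAlgebra ℤ G ⧸ m) p :=
    (CharP.charP_iff_prime_eq_zero (Fact.out : p.Prime)).2 h1
  refine ⟨MonoidAlgebra ℤ G ⧸ m, inferInstance, hchar,
    ((Ideal.Quotient.mk m : MonoidAlgebra ℤ G →+* _) : MonoidAlgebra ℤ G →* _).comp
      (MonoidAlgebra.of ℤ G), ?_⟩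
  intro ι S n g h
  have h2 : ∑ i ∈ S, (n i) • MonoidAlgebra.of ℤ G (g i) ∈ annIdeal ρ v := by
    rw [mem_annIdeal, map_sum, LinearMap.sum_apply]
    rw [← h]
    refine Finset.sum_congr rfl fun i _ => ?_
    rw [map_zsmul, LinearMap.smul_apply, lift_of]
  have h3 := hIm h2
  rw [← Ideal.Quotient.eq_zero_iff_mem, map_sum] at h3
  rw [← h3]
  refine Finset.sum_congr rfl fun i _ => ?_
  rw [map_zsmul, zsmul_eq_mul]
  rfl

section rep

variable {G A : Type} [CommGroup G] [CommGroup A] (W : Subgroup A) (f : G →* MulAut A)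
  (hf : ∀ g, ∀ w ∈ W, f g w ∈ W) (p s : ℕ) [Fact p.Prime] (b : A)
  (hq : b ^ (p ^ s) ∈ W) (hb : b ∉ W)

include hf hq hb in
theorem rep_char_rel : ∃ (k' : Type) (_ : Field k') (_ : CharP k' p) (χ : G →* k'),
    ∀ (ι : Type) (S : Finset ι) (n : ι → ℤ) (g : ι → G),
      ∏ i ∈ S, (f (g i) b) ^ n i ∈ W → ∑ i ∈ S, (n i : k') * χ (g i) = 0 := by
  have hv : (Additive.ofMul (QuotientGroup.mk b : A ⧸ W)) ≠ 0 := by
    intro h
    exact hb ((QuotientGroup.eq_one_iff _).mp h)
  obtain ⟨k', _, _, χ, hχ⟩ := exists_char_rel (quotRep W f hf) p s _ (rep_q W p s b hq) hv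
  refine ⟨k', inferInstance, inferInstance, χ, fun ι S n g h => hχ ι S n g ?_⟩
  have h1 : ∀ i, n i • quotRep W f hf (g i) (Additive.ofMul (QuotientGroup.mk b)) =
      Additive.ofMul (QuotientGroup.mk' W ((f (g i) b) ^ n i)) := by
    intro i
    rw [quotRep_mk, map_zpow, ofMul_zpow]
    rfl
  rw [Finset.sum_congr rfl fun i _ => h1 i, ← ofMul_prod, ← map_prod]
  have h2 : QuotientGroup.mk' W (∏ i ∈ S, (f (g i) b) ^ n i) = 1 :=
    (QuotientGroup.eq_one_iff _).mpr h
  rw [h2]
  rfl

end rep

/-- Two characters of a group with values in fields of characteristic `p`: if every integer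
relation between values of `α` holds for `β`, then conversely. -/
theorem rel_symm {G : Type} [CommGroup G] [Finite G] {p : ℕ} [Fact p.Prime] {k k' : Type}
    [Field k] [CharP k p] [Field k'] [CharP k' p] (α : G →* k) (β : G →* k')
    (H : ∀ r : MonoidAlgebra ℤ G, MonoidAlgebra.lift ℤ k G α r = 0 →
      MonoidAlgebra.lift ℤ k' G β r = 0)
    (r : MonoidAlgebra ℤ G) (hr : MonoidAlgebra.lift ℤ k' G β r = 0) :
    MonoidAlgebra.lift ℤ k G α r = 0 := by
  by_contra hne
  set s := MonoidAlgebra.lift ℤ k G α r with hs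
  -- `s` is algebraic over `ZMod p`
  let _ : Algebra (ZMod p) k := ZMod.algebra k p
  have halg : IsAlgebraic (ZMod p) s := by
    have h1 : ∀ x : MonoidAlgebra ℤ G, IsIntegral (ZMod p) (MonoidAlgebra.lift ℤ k G α x) := by
      intro x
      induction x using MonoidAlgebra.induction_on with
      | of g =>
        rw [MonoidAlgebra.lift_of]
        have h2 : (α g) ^ Nat.card G = 1 := by rw [← map_pow, pow_card_eq_one', map_one]
        refine IsIntegral.of_pow (n := Nat.card G) Nat.card_pos ?_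
        rw [h2]
        exact isIntegral_one
      | add x y hx hy =>
        rw [map_add]
        exact hx.add hy
      | smul n x hx =>
        rw [map_zsmul]
        exact hx.zsmul n
    exact (h1 r).isAlgebraic
  obtain ⟨n, hn, hsn⟩ : ∃ n : ℕ, 0 < n ∧ s ^ n = 1 := by
    have hfin : FiniteDimensional (ZMod p) (IntermediateField.adjoin (ZMod p) {s}) :=
      IntermediateField.adjoin.finiteDimensional halg.isIntegral
    have hF : Finite (IntermediateField.adjoin (ZMod p) {s}) :=
      Module.finite_of_finite (ZMod p)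
    let u : (IntermediateField.adjoin (ZMod p) {s})ˣ :=
      Units.mk0 ⟨s, IntermediateField.mem_adjoin_simple_self _ _⟩
        (fun h => hne (congrArg Subtype.val h))
    refine ⟨orderOf u, orderOf_pos u, ?_⟩
    have := pow_orderOf_eq_one u
    have h2 := congrArg (fun t : (IntermediateField.adjoin (ZMod p) {s})ˣ =>
      ((t : IntermediateField.adjoin (ZMod p) {s}) : k)) this
    exact h2
  have h3 := H (r ^ n - 1) (by rw [map_sub, map_pow, map_one, ← hs, hsn, sub_self])
  rw [map_sub, map_pow, map_one, hr, zero_pow hn.ne', zero_sub, neg_eq_zero] at h3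
  exact one_ne_zero h3

end Pool.Agent.GP.Half
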