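import Pool.Agent.GP.Defs
import Pool.Agent.GP.NV2.Sum1

/-!
# Module Avg: averaging over the Frobenius conjugates

`q = p^r - 1`, `4 ∣ q`, `l (l-1) ∣ q` for all primes `l ∣ N`, `p ∤ N φ(N)`; `χ` a primitive odd
character modulo `Np` with values in a field of characteristic `p` and `∑_{a < Np/2} χ(a) = 0`.
Then for every unit `b`: `∑_{c : c^q = 1} ε(b c) χ(c) = 0`, `ε(a) = 1` if `2a < Np`, else `-1`.

PROOF.  (1) `∑_a ε(a) χ(a) = 2 ∑_{a < Np/2} χ(a) = 0` (`χ`, `ε` odd).
(2) Let `e` be the order of the value group of `χ` (prime to `p`; all primes dividing `e` divide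
`q`, because they divide `φ(Np)`), `F = 𝔽_{p^r}(μ_e)`.  Raising to the powers `p^{r j}`:
`∑_a ε(a) χ(a)^{p^{rj}} = 0`.  Multiply by `χ(b)^{-p^{rj}}` and sum over `j`:
`∑_a ε(a) Tr_{F/𝔽_{p^r}} (χ(a) χ(b)⁻¹) = 0`.  For a root of unity `ζ ∈ μ_e`, `ζ^q ≠ 1`, the
trace is `0` (the conjugates of `ζ` over `𝔽_{p^r}` are permuted by multiplication with a nontrivial
root of unity: `ζ^{p^{rj}}`, `j` = the appropriate multiple, `= ζ η`); for `ζ ∈ 𝔽_{p^r}` it is
`[F : 𝔽_{p^r}] ζ` and the degree is prime to `p` (it divides a power of `e`).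
(3) So `∑_{a : χ(a b⁻¹)^q = 1} ε(a) χ(a b⁻¹) = 0`, i.e. with `a = b c`:
`∑_{c : χ(c)^q = 1} ε(b c) χ(c) = 0`.
(4) `χ(c)^q = 1` iff `c^q = 1`: `(ℤ/Np)ˣ^q` is a product of cyclic `l`-groups (`l ∣ N`), one for
each `l` (as `l - 1 ∣ q`, `p - 1 ∣ q`, `4 ∣ q`), and `χ` is nontrivial on the minimal subgroup
`1 + l^{e-1} ℤ` of each nontrivial one because `χ` is primitive; so `χ` is injective on the
`q`-th powers.
(All of this is in `GP/NV2/*`, `GP/NonVanish2.lean`: `conj_sum`, `avg'`, `trace_zero'`,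
`pow_eq_one_of_char`, `pow_of_ker`.)
-/

namespace Pool.Agent.GP.Half

/-- the odd sign function -/
def eps (M : ℕ) (a : (ZMod M)ˣ) : ℤ := if 2 * (a : ZMod M).val < M then 1 else -1

theorem avg_eps_neg {M : ℕ} [NeZero M] (hM : 3 ≤ M) (a : (ZMod M)ˣ) : eps M (-a) = - eps M a := by
  have ha0 : (a : ZMod M) ≠ 0 := by
    have : Fact (1 < M) := ⟨by omega⟩
    exact a.ne_zero
  have h1 : ((-a : (ZMod M)ˣ) : ZMod M).val = M - (a : ZMod M).val := by
    rw [Units.val_neg, ZMod.neg_val, if_neg ha0]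
  have h2 : (a : ZMod M).val < M := ZMod.val_lt _
  have h3 : 2 * (a : ZMod M).val ≠ M := by
    intro h
    have hc := ZMod.val_coe_unit_coprime a
    have h4 : (a : ZMod M).val ∣ M := ⟨2, by omega⟩
    have h5 : (a : ZMod M).val ∣ Nat.gcd (a : ZMod M).val M := Nat.dvd_gcd dvd_rfl h4
    rw [hc] at h5
    have := Nat.dvd_one.1 h5
    omega
  unfold eps
  rw [h1]
  by_cases h : 2 * (a : ZMod M).val < M
  · rw [if_pos h, if_neg (by omega)]
  · rw [if_neg h, if_pos (by omega)]
    norm_num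

theorem avg_eps_sum {M : ℕ} [NeZero M] (hM : 3 ≤ M) {k : Type} [Field k] (χ : (ZMod M)ˣ →* k)
    (hodd : χ (-1) = -1) (hsum : ∑ a ∈ halfSet M, χ a = 0) :
    ∑ a, χ a * (eps M a : k) = 0 := by
  classical
  have h1 : ∑ a, χ a * (eps M a : k) =
      ∑ a ∈ Finset.univ.filter (fun a : (ZMod M)ˣ => 2 * (a : ZMod M).val < M),
        χ a * (eps M a : k) +
      ∑ a ∈ Finset.univ.filter (fun a : (ZMod M)ˣ => ¬ 2 * (a : ZMod M).val < M),
        χ a * (eps M a : k) := (Finset.sum_filter_add_sum_filter_not _ _ _).symm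
  have h2 : ∑ a ∈ Finset.univ.filter (fun a : (ZMod M)ˣ => 2 * (a : ZMod M).val < M),
        χ a * (eps M a : k) = 0 := by
    rw [← hsum]
    apply Finset.sum_congr rfl
    intro a ha
    rw [Finset.mem_filter] at ha
    unfold eps
    rw [if_pos ha.2]
    push_cast
    ring
  have h3 : ∑ a ∈ Finset.univ.filter (fun a : (ZMod M)ˣ => ¬ 2 * (a : ZMod M).val < M),
        χ a * (eps M a : k) =
      ∑ a ∈ Finset.univ.filter (fun a : (ZMod M)ˣ => 2 * (a : ZMod M).val < M),
        χ a * (eps M a : k) := by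
    have hiff : ∀ a : (ZMod M)ˣ, (2 * ((-a : (ZMod M)ˣ) : ZMod M).val < M) ↔
        ¬ 2 * (a : ZMod M).val < M := by
      intro a
      have h4 := avg_eps_neg hM a
      unfold eps at h4
      by_cases h5 : 2 * (a : ZMod M).val < M
      · by_cases h6 : 2 * ((-a : (ZMod M)ˣ) : ZMod M).val < M
        · rw [if_pos h5, if_pos h6] at h4
          norm_num at h4
        · exact ⟨fun h => absurd h h6, fun h => absurd h5 h⟩
      · by_cases h6 : 2 * ((-a : (ZMod M)ˣ) : ZMod M).val < M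
        · exact ⟨fun _ => h5, fun _ => h6⟩
        · rw [if_neg h5, if_neg h6] at h4
          norm_num at h4
    apply Finset.sum_bij (fun a _ => -a)
    · intro a ha
      rw [Finset.mem_filter] at ha ⊢
      exact ⟨Finset.mem_univ _, (hiff a).2 ha.2⟩
    · intro a _ b _ hab
      exact neg_injective hab
    · intro b hb
      rw [Finset.mem_filter] at hb
      refine ⟨-b, ?_, neg_neg b⟩
      rw [Finset.mem_filter]
      refine ⟨Finset.mem_univ _, ?_⟩
      rw [← hiff (-b), neg_neg]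
      exact hb.2
    · intro a _
      rw [avg_eps_neg hM]
      have : χ (-a) = - χ a := by
        rw [← neg_one_mul, map_mul, hodd, neg_one_mul]
      rw [this]
      push_cast
      ring
  rw [h1, h3, h2, add_zero]

theorem avg {p N r : ℕ} (hp : p.Prime) (hp2 : p ≠ 2) (hN : 0 < N) (hpN : ¬ p ∣ N)
    (hphi : ¬ p ∣ N.totient) (hr : 0 < r) (hr4 : 4 ∣ p ^ r - 1)
    (hrl : ∀ l : ℕ, l.Prime → l ∣ N → l * (l - 1) ∣ p ^ r - 1) {k : Type} [Field k] [CharP k p]
    [NeZero (N * p)] (χ : DirichletCharacter k (N * p)) (hprim : χ.IsPrimitive)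
    (hodd : χ (-1) = -1) (hsum : ∑ a ∈ halfSet (N * p), χ (a : ZMod (N * p)) = 0)
    (b : (ZMod (N * p))ˣ) :
    ∑ c ∈ (Finset.univ : Finset (ZMod (N * p))ˣ).filter (fun c => c ^ (p ^ r - 1) = 1),
      (eps (N * p) (b * c) : k) * χ (c : ZMod (N * p)) = 0 := by
  classical
  have hpp : Fact p.Prime := ⟨hp⟩
  have hp3 : 3 ≤ p := by
    have := hp.two_le
    omega
  have hM3 : 3 ≤ N * p := by nlinarith
  have hq1 : 1 < p ^ r := Nat.one_lt_pow hr.ne' hp.one_lt
  set X : (ZMod (N * p))ˣ →* k := (Units.coeHom k).comp χ.toUnitHom with hX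
  have hXa : ∀ a : (ZMod (N * p))ˣ, X a = χ (a : ZMod (N * p)) := by
    intro a
    have h : X a = ((χ.toUnitHom a : kˣ) : k) := rfl
    rw [h, MulChar.coe_toUnitHom]
  -- elements of `p`-power order are trivial
  have hcard : Nat.Coprime p (Fintype.card (ZMod (N * p))ˣ) := by
    rw [ZMod.card_units_eq_totient, Nat.Prime.coprime_iff_not_dvd hp]
    rw [Nat.totient_mul ((Nat.Prime.coprime_iff_not_dvd hp).2 hpN).symm, Nat.totient_prime hp]
    intro h
    rcases (Nat.Prime.dvd_mul hp).1 h with h1 | h1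
    · exact hphi h1
    · have := Nat.le_of_dvd (by omega) h1
      omega
  have hpow : ∀ (x : (ZMod (N * p))ˣ) (s : ℕ), x ^ (p ^ s) = 1 → x = 1 := by
    intro x s h
    have d1 := Nat.dvd_gcd (orderOf_dvd_of_pow_eq_one h) (orderOf_dvd_card (x := x))
    rw [(Nat.Coprime.pow_left s hcard)] at d1
    exact orderOf_eq_one_iff.1 (Nat.dvd_one.1 d1)
  -- the number `Q - 1 = (p ^ r - 1) * p`
  set Q : ℕ := (p ^ r - 1) * p + 1 with hQ
  have hQ1 : Q - 1 = (p ^ r - 1) * p := Nat.add_sub_cancel _ _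
  have hQ2 : 1 < Q := by
    have : 0 < (p ^ r - 1) * p := Nat.mul_pos (by omega) hp.pos
    omega
  have h4Q : 4 ∣ Q - 1 := by rw [hQ1]; exact hr4.mul_right _
  have hlQ : ∀ l : ℕ, l.Prime → l ∣ N * p → l * (l - 1) ∣ Q - 1 := by
    intro l hl hd
    rw [hQ1]
    rcases (Nat.Prime.dvd_mul hl).1 hd with h1 | h1
    · exact (hrl l hl h1).mul_right _
    · have h2 : l = p := (Nat.prime_dvd_prime_iff_eq hl hp).1 h1
      subst h2
      rw [mul_comm]
      apply Nat.mul_dvd_mul_right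
      simpa using Nat.sub_dvd_pow_sub_pow l 1 r
  have hN0 : 0 < N * p := Nat.mul_pos hN hp.pos
  have hNk : (N : k) ≠ 0 := by
    intro h
    rw [CharP.cast_eq_zero_iff k p] at h
    exact hpN h
  have hexp : ∀ a : (ZMod (N * p))ˣ, a ^ ((p ^ r - 1) * N) = 1 := by
    intro a
    apply hpow _ 2
    have h1 := NV2.units_pow_exp hN0 hlQ a
    rw [hQ1] at h1
    rw [← pow_mul]
    rw [show (p ^ r - 1) * N * p ^ 2 = (p ^ r - 1) * p * (N * p) by ring]
    exact h1
  have hodd2 : Odd (p ^ r) := (hp.odd_of_ne_two hp2).pow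
  have h0 : ∑ a, X a * (eps (N * p) a : k) = 0 := by
    apply avg_eps_sum hM3 X
    · rw [hXa, Units.val_neg, Units.val_one, hodd]
    · rw [← hsum]
      exact Finset.sum_congr rfl fun a _ => hXa a
  have key := NV2.avg' (p := p) (r := r) X (fun a => (eps (N * p) a : k)) 1 (n := N) hN hq1
    (fun _ => hr4) (fun l hl hd => (Dvd.intro _ rfl).trans (hrl l hl hd)) hNk
    (fun a => by rw [← map_pow, hexp, map_one])
    (fun a => by
      rw [one_mul]
      unfold eps
      split_ifs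
      · push_cast
        rw [one_pow]
      · push_cast
        exact hodd2.neg_one_pow) h0 b
  rw [← key]
  apply Finset.sum_congr
  · ext a
    simp only [Finset.mem_filter, Finset.mem_univ, true_and]
    constructor
    · intro h
      rw [← map_pow, h, map_one]
    · intro h
      apply hpow _ 1
      have h1 : a ^ (Q - 1) = 1 := by
        apply NV2.pow_eq_one_of_char hlQ h4Q hQ2 X
        · intro l hl hd _
          obtain ⟨u, hu, hu'⟩ := NV2.prim_exists χ hprim l hl hd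
          refine ⟨u, hu, ?_⟩
          rw [hXa]
          exact hu'
        · rw [hQ1, pow_mul, h, one_pow]
      rw [hQ1] at h1
      rw [pow_one, ← pow_mul]
      exact h1
  · intro a _
    rw [hXa, mul_comm b a]
    ring

end Pool.Agent.GP.Half
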