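import Mathlib

/-!
# Module CardC: the number of solutions of `h ^ q = 1` in `(ℤ/N)ˣ`

`card_split`: Chinese remainder theorem `(ℤ/Np)ˣ ≃ (ℤ/N)ˣ × (ℤ/p)ˣ`; all `p - 1` elements of the second
factor satisfy `c ^ q = 1` as `p - 1 ∣ q`.

`card_le`: induction on `N` over coprime prime powers; for odd prime powers the group of units is
cyclic, for powers of `2` the subgroup generated by `5` has index at most `2`.
-/

namespace Pool.Agent.GP.Half

/-- number of solutions of `h ^ q = 1` -/
private noncomputable abbrev solN (G : Type*) [Monoid G] (q : ℕ) : ℕ := Nat.card {h : G // h ^ q = 1}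

private lemma solN_prod (G H : Type*) [Monoid G] [Monoid H] (q : ℕ) :
    solN (G × H) q = solN G q * solN H q := by
  unfold solN
  rw [← Nat.card_prod]
  apply Nat.card_congr
  exact
    { toFun := fun x => (⟨x.1.1, congrArg Prod.fst x.2⟩, ⟨x.1.2, congrArg Prod.snd x.2⟩)
      invFun := fun y => ⟨(y.1.1, y.2.1), Prod.ext y.1.2 y.2.2⟩
      left_inv := fun _ => rfl
      right_inv := fun _ => rfl }

private lemma solN_congr {G H : Type*} [Monoid G] [Monoid H] (e : G ≃* H) (q : ℕ) :
    solN G q = solN H q := by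
  unfold solN
  apply Nat.card_congr
  refine Equiv.subtypeEquiv e.toEquiv ?_
  intro a
  constructor
  · intro h
    change (e a) ^ q = 1
    rw [← map_pow, h, map_one]
  · intro h
    change (e a) ^ q = 1 at h
    rw [← map_pow] at h
    exact (map_eq_one_iff e e.injective).1 h

private lemma solN_mul {M N : ℕ} (h : M.Coprime N) (q : ℕ) :
    solN (ZMod (M * N))ˣ q = solN (ZMod M)ˣ q * solN (ZMod N)ˣ q := by
  rw [← solN_prod]
  exact solN_congr ((Units.mapEquiv (ZMod.chineseRemainder h).toMulEquiv).trans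
    MulEquiv.prodUnits) q

theorem card_split {N p q : ℕ} (hp : p.Prime) (hN : N ≠ 0) (hpN : ¬ p ∣ N) (hq : p - 1 ∣ q) :
    Nat.card {c : (ZMod (N * p))ˣ // c ^ q = 1} =
      (p - 1) * Nat.card {h : (ZMod N)ˣ // h ^ q = 1} := by
  have hco : N.Coprime p := ((hp.coprime_iff_not_dvd).2 hpN).symm
  have h1 := solN_mul hco q
  unfold solN at h1
  rw [h1, mul_comm]
  congr 1
  have : Fact p.Prime := ⟨hp⟩
  have h2 : ∀ u : (ZMod p)ˣ, u ^ q = 1 := by
    intro u
    obtain ⟨k, rfl⟩ := hq
    rw [pow_mul, ZMod.units_pow_card_sub_one_eq_one, one_pow]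
  rw [Nat.card_congr (Equiv.subtypeUnivEquiv h2), Nat.card_eq_fintype_card, ZMod.card_units]

/-- solutions in a cyclic group -/
private lemma solN_cyclic (G : Type*) [CommGroup G] [Finite G] [IsCyclic G] {q : ℕ} (hq : q ≠ 0) :
    solN G q ≤ Nat.gcd q (Nat.card G) := by
  classical
  have := Fintype.ofFinite G
  unfold solN
  have hpos : 0 < Nat.gcd q (Nat.card G) := Nat.gcd_pos_of_pos_left _ (Nat.pos_of_ne_zero hq)
  have h1 := IsCyclic.card_pow_eq_one_le (α := G) hpos
  refine le_trans ?_ h1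
  rw [Nat.card_eq_fintype_card, Fintype.card_subtype]
  apply Finset.card_le_card
  intro a ha
  simp only [Finset.mem_filter, Finset.mem_univ, true_and] at ha ⊢
  exact pow_gcd_eq_one.2 ⟨ha, by rw [Nat.card_eq_fintype_card]; exact pow_card_eq_one⟩

private lemma gcd_le {l : ℕ} (hl : l.Prime) {q m : ℕ} (hq : q ≠ 0) :
    Nat.gcd q (l ^ m * (l - 1)) ≤ l ^ (q.factorization l + 1) := by
  have hd : Nat.gcd q (l ^ m * (l - 1)) ∣ l ^ m * (l - 1) := Nat.gcd_dvd_right _ _
  have hdq : Nat.gcd q (l ^ m * (l - 1)) ∣ q := Nat.gcd_dvd_left _ _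
  obtain ⟨d1, d2, h1, h2, h3⟩ := exists_dvd_and_dvd_of_dvd_mul hd
  rw [h3]
  obtain ⟨j, hj, rfl⟩ := (Nat.dvd_prime_pow hl).1 h1
  have hjq : l ^ j ∣ q := by
    refine dvd_trans ?_ hdq
    rw [h3]
    exact Dvd.intro _ rfl
  have hj2 : j ≤ q.factorization l := (hl.pow_dvd_iff_le_factorization hq).1 hjq
  have h4 : d2 ≤ l := by
    have : 0 < l - 1 := by have := hl.two_le; omega
    have := Nat.le_of_dvd this h2
    omega
  rw [pow_succ]
  exact Nat.mul_le_mul (Nat.pow_le_pow_right hl.pos hj2) h4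

private lemma gcd_two {q m : ℕ} (hq : q ≠ 0) :
    Nat.gcd q (2 ^ m) ≤ 2 ^ (q.factorization 2) := by
  have hd : Nat.gcd q (2 ^ m) ∣ 2 ^ m := Nat.gcd_dvd_right _ _
  have hdq : Nat.gcd q (2 ^ m) ∣ q := Nat.gcd_dvd_left _ _
  obtain ⟨j, hj, h⟩ := (Nat.dvd_prime_pow Nat.prime_two).1 hd
  rw [h] at hdq ⊢
  exact Nat.pow_le_pow_right (by norm_num)
    ((Nat.prime_two.pow_dvd_iff_le_factorization hq).1 hdq)

/-- passing to a subgroup -/
private lemma solN_index (G : Type*) [CommGroup G] [Finite G] (H : Subgroup G) (q : ℕ) :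
    solN G q ≤ solN H q * H.index := by
  set S : Subgroup G := (powMonoidHom q : G →* G).ker with hS
  have h1 : solN G q = Nat.card S := by
    unfold solN
    apply Nat.card_congr
    refine Equiv.subtypeEquivRight ?_
    intro a
    rw [hS, MonoidHom.mem_ker]
    rfl
  have hmem : ∀ a : G, a ∈ S ↔ a ^ q = 1 := fun a => by
    rw [hS, MonoidHom.mem_ker]
    rfl
  have hm1 : ∀ x : {h : H // h ^ q = 1}, (x.1.1 : G) ∈ S := fun x =>
    (hmem _).2 (congrArg (Subtype.val) x.2)
  have hm2 : ∀ y : H.subgroupOf S, (y.1.1 : G) ∈ H := fun y => Subgroup.mem_subgroupOf.1 y.2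
  have hm3 : ∀ y : H.subgroupOf S, (⟨y.1.1, hm2 y⟩ : H) ^ q = 1 := fun y =>
    Subtype.ext ((hmem _).1 y.1.2)
  have h2 : solN H q = Nat.card (H.subgroupOf S) := by
    unfold solN
    apply Nat.card_congr
    exact
      { toFun := fun x => ⟨⟨x.1.1, hm1 x⟩, Subgroup.mem_subgroupOf.2 x.1.2⟩
        invFun := fun y => ⟨⟨y.1.1, hm2 y⟩, hm3 y⟩
        left_inv := fun _ => rfl
        right_inv := fun _ => rfl }
  rw [h1, h2]
  have h3 : Nat.card (H.subgroupOf S) * H.relIndex S = Nat.card S :=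
    Subgroup.card_mul_index (H.subgroupOf S)
  rw [← h3]
  apply Nat.mul_le_mul_left
  exact Nat.le_of_dvd (Nat.pos_of_ne_zero (Subgroup.index_ne_zero_of_finite))
    (Subgroup.relIndex_dvd_index_of_normal H S)

private lemma solN_two {q : ℕ} (hq : q ≠ 0) (e : ℕ) :
    solN (ZMod (2 ^ e))ˣ q ≤ 2 ^ (q.factorization 2 + 1) := by
  have hne : NeZero (2 ^ e) := ⟨by positivity⟩
  rcases Nat.lt_or_ge e 2 with he | he
  · have h1 : Nat.card (ZMod (2 ^ e))ˣ = 1 := by
      rw [Nat.card_eq_fintype_card, ZMod.card_units_eq_totient]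
      interval_cases e <;> simp
    have h2 : solN (ZMod (2 ^ e))ˣ q ≤ Nat.card (ZMod (2 ^ e))ˣ := by
      unfold solN
      exact Nat.card_le_card_of_injective (Subtype.val) Subtype.val_injective
    have h3 : 1 ≤ 2 ^ (q.factorization 2 + 1) := Nat.one_le_two_pow
    omega
  · obtain ⟨n, rfl⟩ := Nat.exists_eq_add_of_le' he
    have hcop : Nat.Coprime 5 (2 ^ (n + 2)) := by
      apply Nat.Coprime.pow_right
      norm_num
    set u : (ZMod (2 ^ (n + 2)))ˣ := ZMod.unitOfCoprime 5 hcop with hu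
    have hord : orderOf u = 2 ^ n := by
      rw [← orderOf_units, hu, ZMod.coe_unitOfCoprime]
      exact_mod_cast ZMod.orderOf_five n
    have hcard : Nat.card (Subgroup.zpowers u) = 2 ^ n := by
      rw [Nat.card_zpowers, hord]
    have hG : Nat.card (ZMod (2 ^ (n + 2)))ˣ = 2 ^ (n + 1) := by
      rw [Nat.card_eq_fintype_card, ZMod.card_units_eq_totient,
        Nat.totient_prime_pow Nat.prime_two (by omega)]
      simp
    have hidx : (Subgroup.zpowers u).index = 2 := by
      have h := Subgroup.card_mul_index (Subgroup.zpowers u)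
      rw [hcard, hG] at h
      have h' : 2 ^ n * (Subgroup.zpowers u).index = 2 ^ n * 2 := h.trans (pow_succ 2 n)
      exact Nat.eq_of_mul_eq_mul_left (by positivity) h'
    have h1 := solN_index (ZMod (2 ^ (n + 2)))ˣ (Subgroup.zpowers u) q
    rw [hidx] at h1
    have h2 := solN_cyclic (Subgroup.zpowers u) hq
    rw [hcard] at h2
    have h3 := gcd_two (m := n) hq
    calc solN (ZMod (2 ^ (n + 2)))ˣ q ≤ solN (Subgroup.zpowers u) q * 2 := h1
      _ ≤ 2 ^ (q.factorization 2) * 2 := Nat.mul_le_mul_right _ (h2.trans h3)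
      _ = _ := by rw [pow_succ]

private lemma solN_primePow {q : ℕ} (hq : q ≠ 0) {l : ℕ} (hl : l.Prime) (e : ℕ) (he : 0 < e) :
    solN (ZMod (l ^ e))ˣ q ≤ l ^ (q.factorization l + 1) := by
  by_cases h2 : l = 2
  · subst h2
    exact solN_two hq e
  · have hne : NeZero (l ^ e) := ⟨by have := hl.pos; positivity⟩
    have := ZMod.isCyclic_units_of_prime_pow l hl h2 e
    have h1 := solN_cyclic (ZMod (l ^ e))ˣ hq
    refine h1.trans ?_
    rw [Nat.card_eq_fintype_card, ZMod.card_units_eq_totient, Nat.totient_prime_pow hl he]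
    exact gcd_le hl hq

theorem card_le {N q : ℕ} (hN : N ≠ 0) (hq : q ≠ 0) :
    Nat.card {h : (ZMod N)ˣ // h ^ q = 1} ≤ ∏ l ∈ N.primeFactors, l ^ (q.factorization l + 1) := by
  change solN (ZMod N)ˣ q ≤ _
  induction N using Nat.recOnPosPrimePosCoprime with
  | prime_pow p n hp hn =>
    rw [Nat.primeFactors_prime_pow (by omega) hp, Finset.prod_singleton]
    exact solN_primePow hq hp n (by omega)
  | zero => exact absurd rfl hN
  | one =>
    simp only [Nat.primeFactors_one, Finset.prod_empty]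
    unfold solN
    have : Subsingleton (ZMod 1)ˣ := inferInstance
    exact Finite.card_le_one_iff_subsingleton.2 inferInstance
  | coprime a b ha hb hab iha ihb =>
    rw [solN_mul hab, Nat.Coprime.primeFactors_mul hab,
      Finset.prod_union hab.disjoint_primeFactors]
    exact Nat.mul_le_mul (iha (by omega)) (ihb (by omega))

end Pool.Agent.GP.Half
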