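import Pool.Agent.GP.Defs

/-!
# Module Complex: the half sum of an odd primitive complex character is not zero

PROOF.  `T = ∑_{a < M} χ(a) a`.
(1) `T ≠ 0`: `L(0, χ) = - T / M` for odd `χ` (`M > 1`), the functional equation relates `L(0, χ)` to
`L(1, χ̄)` (`χ` primitive), and `L(1, χ̄) ≠ 0`.  Mathlib:
`DirichletCharacter.LFunction_apply_one_ne_zero`,
`DirichletCharacter.IsPrimitive.completedLFunction_one_sub` / `ZMod.LFunction_one_sub`,
`ZMod.LFunction` as a combination of Hurwitz zeta functions and their value at `0`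
(`HurwitzZeta...`, Bernoulli polynomials).
(2) `M` odd: `h = ∑_{a < M/2} χ(a)`.  Substituting `a ↦ 2a mod M`:
`T = χ(2) (2 T - M ∑_{a > M/2} χ(a)) = χ(2) (2 T + M h)`, so `M h = T (χ(2)⁻¹ - 2)`, and
`|χ(2)| = 1`.
(3) `M = 2 m` even: `χ` primitive gives `4 ∣ M` and `χ(a + m) = - χ(a)` for `a` prime to `M`
(`1 + m` generates the kernel of `(ℤ/M)ˣ → (ℤ/m)ˣ`, of order `2`; cf. `antiperiod` in
`GP/CharAux2.lean`); so `T = ∑_{a < m} (χ(a) a + χ(a+m) (a+m)) = - m h`.
(`halfSet M` is the set of units `a` with `2 a < M`; for `a` not prime to `M` `χ(a) = 0`;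
`M` odd: `2 a < M` iff `a < M/2`; `M` even: `2a < M` iff `a < m`.)
-/

set_option linter.all false

open Filter Topology

namespace Pool.Agent.GP.Half

namespace CplxAux

/-! ### Abel limits of Dirichlet series -/

theorem sum_period {N : ℕ} [NeZero N] {ψ : DirichletCharacter ℂ N} (hψ : ψ ≠ 1) (n : ℕ) :
    ∑ x ∈ Finset.range N, ψ ((n + x : ℕ) : ZMod N) = 0 := by
  have h1 : ∑ x ∈ Finset.range N, ψ ((n + x : ℕ) : ZMod N) =
      ∑ y : ZMod N, ψ ((n : ZMod N) + y) := by
    refine Finset.sum_nbij' (fun x => (x : ZMod N)) ZMod.val (fun _ _ => Finset.mem_univ _)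
      (fun y _ => Finset.mem_range.2 (ZMod.val_lt y))
      (fun x hx => ZMod.val_natCast_of_lt (Finset.mem_range.1 hx))
      (fun y _ => ZMod.natCast_zmod_val y) (fun x _ => ?_)
    push_cast
    rfl
  rw [h1, Fintype.sum_equiv (Equiv.addLeft (n : ZMod N)) (fun y => ψ ((n : ZMod N) + y))
    (fun y => ψ y) (fun y => rfl)]
  exact MulChar.sum_eq_zero_of_ne_one hψ

/-- partial sums of a nontrivial character are bounded -/
theorem sum_char_bdd {N : ℕ} [NeZero N] {ψ : DirichletCharacter ℂ N} (hψ : ψ ≠ 1) (n : ℕ) :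
    ‖∑ k ∈ Finset.range n, ψ ((k + 1 : ℕ) : ZMod N)‖ ≤ N := by
  induction n using Nat.strong_induction_on with
  | _ n ih =>
    rcases lt_or_ge n N with h | h
    · refine (norm_sum_le _ _).trans ?_
      refine (Finset.sum_le_sum (g := fun _ => (1 : ℝ)) fun k _ => ψ.norm_le_one _).trans ?_
      rw [Finset.sum_const, Finset.card_range, nsmul_eq_mul, mul_one]
      exact_mod_cast h.le
    · have hN : 0 < N := Nat.pos_of_ne_zero (NeZero.ne N)
      have h1 : n = (n - N) + N := by omega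
      have h2 : ∑ k ∈ Finset.range n, ψ ((k + 1 : ℕ) : ZMod N) =
          ∑ k ∈ Finset.range (n - N), ψ ((k + 1 : ℕ) : ZMod N) := by
        conv_lhs => rw [h1]
        rw [Finset.sum_range_add]
        have h3 := sum_period hψ (n - N + 1)
        have h4 : ∑ x ∈ Finset.range N, ψ ((n - N + x + 1 : ℕ) : ZMod N) = 0 := by
          rw [← h3]
          refine Finset.sum_congr rfl fun x _ => ?_
          congr 2
          ring
        rw [h4, add_zero]
      rw [h2]
      exact ih (n - N) (by omega)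

theorem abel_sum (c : ℕ → ℂ) (b : ℕ → ℝ) (n : ℕ) :
    ∑ k ∈ Finset.range n, c k * b k = (∑ k ∈ Finset.range n, c k) * b n +
      ∑ k ∈ Finset.range n, (∑ j ∈ Finset.range (k + 1), c j) * ((b k - b (k + 1) : ℝ) : ℂ) := by
  induction n with
  | zero => simp
  | succ n ih =>
    rw [Finset.sum_range_succ, ih, Finset.sum_range_succ _ n,
      Finset.sum_range_succ (fun k => (∑ j ∈ Finset.range (k + 1), c j) *
        ((b k - b (k + 1) : ℝ) : ℂ)) n, Finset.sum_range_succ c n]
    push_cast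
    ring

/-- the differences of the powers -/
noncomputable def dif (s : ℝ) (k : ℕ) : ℝ :=
  ((k : ℝ) + 1) ^ (-s) - (((k + 1 : ℕ) : ℝ) + 1) ^ (-s)

theorem dif_nonneg {s : ℝ} (hs : 0 ≤ s) (k : ℕ) : 0 ≤ dif s k := by
  unfold dif
  rw [sub_nonneg]
  refine Real.rpow_le_rpow_of_nonpos (by positivity) ?_ (by linarith)
  push_cast
  linarith

theorem dif_le {s : ℝ} (h1 : 1 ≤ s) (h2 : s ≤ 2) (k : ℕ) : dif s k ≤ 2 / ((k : ℝ) + 1) ^ 2 := by
  unfold dif
  set x : ℝ := (k : ℝ) + 1 with hx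
  have hx1 : 1 ≤ x := by
    have : (0 : ℝ) ≤ k := Nat.cast_nonneg k
    linarith
  have hx0 : 0 < x := by linarith
  have h3 : (((k + 1 : ℕ) : ℝ) + 1) = x * (1 + 1 / x) := by
    push_cast
    field_simp
    ring
  have h4 : (x * (1 + 1 / x)) ^ (-s) = x ^ (-s) * (1 + 1 / x) ^ (-s) :=
    Real.mul_rpow hx0.le (by positivity)
  have h5 : 1 - s / x ≤ (1 + 1 / x) ^ (-s) := by
    rw [Real.rpow_def_of_pos (by positivity)]
    have h6 := Real.add_one_le_exp (Real.log (1 + 1 / x) * -s)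
    have h7 : Real.log (1 + 1 / x) ≤ 1 / x := by
      have := Real.log_le_sub_one_of_pos (x := 1 + 1 / x) (by positivity)
      linarith
    have h8 : Real.log (1 + 1 / x) * s ≤ (1 / x) * s := mul_le_mul_of_nonneg_right h7 (by linarith)
    have h9 : s / x = (1 / x) * s := by ring
    rw [h9]
    linarith
  rw [h3, h4]
  have h6 : x ^ (-s) * (1 - s / x) ≤ x ^ (-s) * (1 + 1 / x) ^ (-s) :=
    mul_le_mul_of_nonneg_left h5 (by positivity)
  have h7 : x ^ (-s) ≤ x⁻¹ := by
    rw [← Real.rpow_neg_one]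
    exact Real.rpow_le_rpow_of_exponent_le hx1 (by linarith)
  have h8 : s / x ≤ 2 / x := div_le_div_of_nonneg_right h2 hx0.le
  have h9 : x ^ (-s) * (s / x) ≤ x⁻¹ * (2 / x) :=
    mul_le_mul h7 h8 (by positivity) (by positivity)
  have h10 : x⁻¹ * (2 / x) = 2 / x ^ 2 := by
    field_simp
  rw [h10] at h9
  linarith

theorem summable_bd : Summable (fun k : ℕ => 2 / ((k : ℝ) + 1) ^ 2) := by
  have h := (summable_nat_add_iff 1).2 (Real.summable_one_div_nat_pow.2 (by norm_num : 1 < 2))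
  refine (h.mul_left 2).congr fun k => ?_
  push_cast
  ring

variable {N : ℕ} [NeZero N] {ψ : DirichletCharacter ℂ N}

/-- the Abel summed series -/
noncomputable def FF (ψ : DirichletCharacter ℂ N) (s : ℝ) : ℂ :=
  ∑' k : ℕ, (∑ j ∈ Finset.range (k + 1), ψ ((j + 1 : ℕ) : ZMod N)) * ((dif s k : ℝ) : ℂ)

theorem norm_term_le (hψ : ψ ≠ 1) {s : ℝ} (h1 : 1 ≤ s) (h2 : s ≤ 2) (k : ℕ) :
    ‖(∑ j ∈ Finset.range (k + 1), ψ ((j + 1 : ℕ) : ZMod N)) * ((dif s k : ℝ) : ℂ)‖ ≤
      N * (2 / ((k : ℝ) + 1) ^ 2) := by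
  rw [norm_mul, Complex.norm_real, Real.norm_of_nonneg (dif_nonneg (by linarith) k)]
  exact mul_le_mul (sum_char_bdd hψ _) (dif_le h1 h2 k) (dif_nonneg (by linarith) k)
    (Nat.cast_nonneg _)

theorem tendsto_partial (hψ : ψ ≠ 1) {s : ℝ} (h1 : 1 ≤ s) (h2 : s ≤ 2) :
    Tendsto (fun n : ℕ => ∑ k ∈ Finset.range n, ψ ((k + 1 : ℕ) : ZMod N) *
      ((((k : ℝ) + 1) ^ (-s) : ℝ) : ℂ)) atTop (𝓝 (FF ψ s)) := by
  have hs : Summable (fun k : ℕ => (∑ j ∈ Finset.range (k + 1), ψ ((j + 1 : ℕ) : ZMod N)) *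
      ((dif s k : ℝ) : ℂ)) :=
    Summable.of_norm_bounded (summable_bd.mul_left (N : ℝ)) (norm_term_le hψ h1 h2)
  have h3 := hs.hasSum.tendsto_sum_nat
  have h4 : Tendsto (fun n : ℕ => (∑ k ∈ Finset.range n, ψ ((k + 1 : ℕ) : ZMod N)) *
      ((((n : ℝ) + 1) ^ (-s) : ℝ) : ℂ)) atTop (𝓝 0) := by
    rw [tendsto_zero_iff_norm_tendsto_zero]
    have h5 : Tendsto (fun n : ℕ => (N : ℝ) * ((n : ℝ) + 1) ^ (-s)) atTop (𝓝 ((N : ℝ) * 0)) := by
      apply Tendsto.const_mul
      have h6 : Tendsto (fun n : ℕ => (n : ℝ) + 1) atTop atTop :=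
        tendsto_atTop_add_const_right _ _ tendsto_natCast_atTop_atTop
      exact (tendsto_rpow_neg_atTop (by linarith : 0 < s)).comp h6
    rw [mul_zero] at h5
    refine squeeze_zero (fun _ => norm_nonneg _) (fun n => ?_) h5
    rw [norm_mul, Complex.norm_real, Real.norm_of_nonneg (by positivity)]
    exact mul_le_mul_of_nonneg_right (sum_char_bdd hψ _) (by positivity)
  have h5 := h4.add h3
  rw [zero_add] at h5
  refine h5.congr fun n => ?_
  exact (abel_sum (fun k => ψ ((k + 1 : ℕ) : ZMod N)) (fun k => ((k : ℝ) + 1) ^ (-s)) n).symm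

theorem FF_eq_LFunction (hψ : ψ ≠ 1) {s : ℝ} (h1 : 1 < s) (h2 : s ≤ 2) :
    FF ψ s = ψ.LFunction s := by
  have hs1 : 1 < (s : ℂ).re := by simpa using h1
  have h3 := ψ.LSeriesSummable_of_one_lt_re hs1
  rw [ψ.LFunction_eq_LSeries hs1]
  have hN1 : N ≠ 1 := by
    rintro rfl
    exact hψ ψ.level_one
  have h4 : Tendsto (fun n : ℕ => ∑ k ∈ Finset.range n, ψ ((k + 1 : ℕ) : ZMod N) *
      ((((k : ℝ) + 1) ^ (-s) : ℝ) : ℂ)) atTop (𝓝 (LSeries (fun n => ψ n) s)) := by
    have h5 := h3.hasSum.tendsto_sum_nat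
    have h6 := h5.comp (tendsto_add_atTop_nat 1)
    refine h6.congr fun n => ?_
    simp only [Function.comp]
    rw [Finset.sum_range_succ']
    have h7 : LSeries.term (fun n => ψ n) s 0 = 0 := LSeries.term_zero _ _
    rw [h7, add_zero]
    refine Finset.sum_congr rfl fun k _ => ?_
    rw [LSeries.term_of_ne_zero (Nat.succ_ne_zero k)]
    have h8 : ((((k : ℝ) + 1) ^ (-s) : ℝ) : ℂ) = (((k + 1 : ℕ) : ℂ) ^ (s : ℂ))⁻¹ := by
      rw [Complex.ofReal_cpow (by positivity)]
      push_cast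
      rw [Complex.cpow_neg]
    rw [h8, div_eq_mul_inv]
  exact tendsto_nhds_unique (tendsto_partial hψ h1.le h2) h4

theorem FF_one (hψ : ψ ≠ 1) : FF ψ 1 = ψ.LFunction 1 := by
  have h1 : Tendsto (fun s : ℝ => FF ψ s) (𝓝[>] 1) (𝓝 (FF ψ 1)) := by
    unfold FF
    refine tendsto_tsum_of_dominated_convergence (summable_bd.mul_left (N : ℝ)) (fun k => ?_) ?_
    · refine Tendsto.const_mul _ ?_
      refine (Complex.continuous_ofReal.tendsto _).comp ?_
      refine Tendsto.mono_left ?_ nhdsWithin_le_nhds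
      unfold dif
      apply Tendsto.sub
      · exact ((Real.continuous_const_rpow (by positivity)).comp continuous_neg).tendsto 1
      · exact ((Real.continuous_const_rpow (by positivity)).comp continuous_neg).tendsto 1
    · have h2 : ∀ᶠ s : ℝ in 𝓝[>] 1, s ∈ Set.Ioc (1 : ℝ) 2 := Ioc_mem_nhdsGT (by norm_num)
      filter_upwards [h2] with s hs k
      exact norm_term_le hψ hs.1.le hs.2 k
  have h2 : Tendsto (fun s : ℝ => ψ.LFunction s) (𝓝[>] 1) (𝓝 (ψ.LFunction 1)) := by
    have h3 : Continuous (fun s : ℝ => ψ.LFunction (s : ℂ)) :=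
      (DirichletCharacter.differentiable_LFunction hψ).continuous.comp Complex.continuous_ofReal
    have h4 := h3.tendsto 1
    rw [Complex.ofReal_one] at h4
    exact h4.mono_left nhdsWithin_le_nhds
  refine tendsto_nhds_unique h1 (h2.congr' ?_)
  have h3 : ∀ᶠ s : ℝ in 𝓝[>] 1, s ∈ Set.Ioc (1 : ℝ) 2 := Ioc_mem_nhdsGT (by norm_num)
  filter_upwards [h3] with s hs
  exact (FF_eq_LFunction hψ hs.1 hs.2).symm

/-- Abel's theorem for `L(1, ψ)`. -/
theorem abel_limit (hψ : ψ ≠ 1) :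
    Tendsto (fun r : ℝ => ∑' k : ℕ, ψ (k : ZMod N) / k * (r : ℂ) ^ k) (𝓝[<] 1)
      (𝓝 (ψ.LFunction 1)) := by
  have h1 : Tendsto (fun n : ℕ => ∑ k ∈ Finset.range n, ψ (k : ZMod N) / (k : ℂ)) atTop
      (𝓝 (ψ.LFunction 1)) := by
    rw [← tendsto_add_atTop_iff_nat 1, ← FF_one hψ]
    refine (tendsto_partial hψ le_rfl (by norm_num)).congr fun n => ?_
    rw [Finset.sum_range_succ']
    simp only [Nat.cast_zero, div_zero, add_zero]
    refine Finset.sum_congr rfl fun k _ => ?_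
    rw [div_eq_mul_inv]
    congr 1
    rw [Real.rpow_neg_one]
    push_cast
    rfl
  have h2 := Complex.tendsto_tsum_powerSeries_nhdsWithin_lt h1
  exact tendsto_map'_iff.1 h2

/-! ### The generating function of the odd powers -/

theorem hasSum_odd {z : ℂ} (hz : ‖z‖ < 1) :
    HasSum (fun k : ℕ => if Odd k then z ^ k / k else 0)
      ((Complex.log (1 + z) - Complex.log (1 - z)) / 2) := by
  have h1 := Complex.hasSum_taylorSeries_neg_log hz
  have h2 := Complex.hasSum_taylorSeries_neg_log (z := -z) (by simpa using hz)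
  have h3 := (h1.sub h2).div_const 2
  have e : (-Complex.log (1 - z) - -Complex.log (1 - -z)) / 2 =
      (Complex.log (1 + z) - Complex.log (1 - z)) / 2 := by
    rw [sub_neg_eq_add 1 z]
    ring
  rw [e] at h3
  refine h3.congr_fun ?_
  intro k
  rcases Nat.even_or_odd k with hk | hk
  · rw [if_neg (Nat.not_odd_iff_even.2 hk), hk.neg_pow]
    ring
  · rw [if_pos hk, hk.neg_pow]
    ring

/-! ### The induced character modulo `2 M` -/

variable {M : ℕ} [NeZero M]

instance : NeZero (2 * M) := ⟨Nat.mul_ne_zero two_ne_zero (NeZero.ne M)⟩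

/-- the inverse character, induced to the modulus `2 M` -/
noncomputable def ind (χ : DirichletCharacter ℂ M) : DirichletCharacter ℂ (2 * M) :=
  DirichletCharacter.changeLevel (Dvd.intro_left 2 rfl) χ⁻¹

theorem ind_ne_one {χ : DirichletCharacter ℂ M} (hodd : χ (-1) = -1) : ind χ ≠ 1 := by
  unfold ind
  rw [Ne, DirichletCharacter.changeLevel_eq_one_iff, inv_eq_one]
  rintro rfl
  rw [MulChar.one_apply (IsUnit.neg isUnit_one)] at hodd
  norm_num at hodd

theorem ind_apply (χ : DirichletCharacter ℂ M) (k : ℕ) :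
    ind χ (k : ZMod (2 * M)) = if Odd k then χ⁻¹ (k : ZMod M) else 0 := by
  unfold ind
  have hcast : ∀ n : ℕ, ((k : ℕ) : ZMod n) = ((k : ℤ) : ZMod n) := fun n => by push_cast; rfl
  rw [hcast (2 * M), hcast M]
  by_cases h : IsCoprime (k : ℤ) ((2 * M : ℕ) : ℤ)
  · have h2 : IsCoprime (k : ℤ) (2 : ℤ) := by
      have : ((2 * M : ℕ) : ℤ) = 2 * (M : ℤ) := by push_cast; ring
      rw [this] at h
      exact h.of_mul_right_left
    have hk : Odd k := by
      have h3 : k.Coprime 2 := Nat.isCoprime_iff_coprime.1 h2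
      rwa [Nat.coprime_two_right] at h3
    rw [if_pos hk]
    exact DirichletCharacter.changeLevel_eq_cast_of_dvd' _ _ h
  · rw [(DirichletCharacter.apply_eq_zero_iff _ _).2 h]
    by_cases hk : Odd k
    · rw [if_pos hk]
      symm
      rw [DirichletCharacter.apply_eq_zero_iff]
      intro h2
      apply h
      have h3 : IsCoprime (k : ℤ) (2 : ℤ) := by
        have h4 : k.Coprime 2 := Nat.coprime_two_right.2 hk
        exact_mod_cast Nat.isCoprime_iff_coprime.2 h4
      have h5 : ((2 * M : ℕ) : ℤ) = 2 * (M : ℤ) := by push_cast; ring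
      rw [h5]
      exact h3.mul_right h2
    · rw [if_neg hk]

/-- the roots of unity -/
noncomputable def ze (a : ZMod M) : ℂ := ZMod.stdAddChar a

theorem norm_ze (a : ZMod M) : ‖ze a‖ = 1 := by
  unfold ze
  rw [ZMod.stdAddChar_apply]
  exact Circle.norm_coe _

theorem ze_pow (a : ZMod M) (k : ℕ) : ze a ^ k = ze ((k : ZMod M) * a) := by
  unfold ze
  rw [← AddChar.map_nsmul_eq_pow, nsmul_eq_mul]

theorem gauss_eval {χ : DirichletCharacter ℂ M} (hprim : χ.IsPrimitive) (k : ℕ) :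
    ∑ a : ZMod M, χ a * ze a ^ k = χ⁻¹ (k : ZMod M) * gaussSum χ ZMod.stdAddChar := by
  rw [← gaussSum_mulShift_of_isPrimitive _ hprim]
  unfold gaussSum
  refine Finset.sum_congr rfl fun a _ => ?_
  rw [ze_pow, AddChar.mulShift_apply]
  rfl

theorem gauss_ne_zero {χ : DirichletCharacter ℂ M} (hprim : χ.IsPrimitive) :
    gaussSum χ ZMod.stdAddChar ≠ 0 := by
  intro h0
  have h1 : ZMod.dft (fun a => χ a) = 0 := by
    funext k
    have h2 := hprim.fourierTransform_eq_inv_mul_gaussSum k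
    rw [h0, mul_zero] at h2
    exact h2
  have h3 : (fun a => χ a) = (0 : ZMod M → ℂ) := (ZMod.dft (N := M) (E := ℂ)).map_eq_zero_iff.1 h1
  have h4 := congrFun h3 1
  simp at h4

theorem series_eq {χ : DirichletCharacter ℂ M} (hprim : χ.IsPrimitive) {r : ℝ} (h0 : 0 ≤ r)
    (h1 : r < 1) :
    gaussSum χ ZMod.stdAddChar * ∑' k : ℕ, ind χ (k : ZMod (2 * M)) / k * (r : ℂ) ^ k =
      ∑ a : ZMod M, χ a * ((Complex.log (1 + r * ze a) - Complex.log (1 - r * ze a)) / 2) := by
  have h2 : ∀ a ∈ (Finset.univ : Finset (ZMod M)), HasSum (fun k : ℕ => χ a *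
      (if Odd k then (r * ze a) ^ k / k else 0))
      (χ a * ((Complex.log (1 + r * ze a) - Complex.log (1 - r * ze a)) / 2)) := by
    intro a _
    refine (hasSum_odd ?_).mul_left _
    rw [norm_mul, norm_ze, mul_one, Complex.norm_real, Real.norm_of_nonneg h0]
    exact h1
  have h3 := hasSum_sum h2
  rw [← h3.tsum_eq, ← tsum_mul_left]
  congr 1
  funext k
  rw [ind_apply]
  by_cases hk : Odd k
  · simp only [if_pos hk]
    have h4 : ∀ a : ZMod M, χ a * ((r * ze a) ^ k / k) = (χ a * ze a ^ k) * ((r : ℂ) ^ k / k) := by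
      intro a
      rw [mul_pow]
      ring
    rw [Finset.sum_congr rfl fun a _ => h4 a, ← Finset.sum_mul, gauss_eval hprim]
    ring
  · simp only [if_neg hk]
    simp

/-! ### The logarithms -/

theorem re_pos {z : ℂ} (hz : ‖z‖ = 1) (h1 : z ≠ 1) : 0 < (1 - z).re := by
  have h2 : z.re ≤ 1 := by
    have := Complex.re_le_norm z
    rwa [hz] at this
  rcases lt_or_eq_of_le h2 with h3 | h3
  · rw [Complex.sub_re, Complex.one_re]; linarith
  · exfalso
    apply h1
    have h4 : z.re ^ 2 + z.im ^ 2 = 1 := by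
      have := Complex.sq_norm z
      rw [hz, Complex.normSq_apply] at this
      nlinarith
    have h5 : z.im = 0 := by
      rw [h3] at h4
      nlinarith [sq_nonneg z.im]
    exact Complex.ext (by rw [h3]; rfl) (by rw [h5]; rfl)

theorem re_pos' {z : ℂ} (hz : ‖z‖ = 1) (h1 : z ≠ -1) : 0 < (1 + z).re := by
  have h2 := re_pos (z := -z) (by rwa [norm_neg]) (fun h => h1 (by rw [← h, neg_neg]))
  rwa [sub_neg_eq_add] at h2

/-- `log (1 + z) - log (1 - z)` on the unit circle -/
noncomputable def lg (z : ℂ) : ℂ := Complex.log (1 + z) - Complex.log (1 - z)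

theorem lg_conj {z : ℂ} (hz : ‖z‖ = 1) (h1 : z ≠ 1) (h2 : z ≠ -1) :
    lg (starRingEnd ℂ z) = starRingEnd ℂ (lg z) := by
  unfold lg
  have e1 : 1 + starRingEnd ℂ z = starRingEnd ℂ (1 + z) := by simp
  have e2 : 1 - starRingEnd ℂ z = starRingEnd ℂ (1 - z) := by simp
  have a1 : (1 + z).arg ≠ Real.pi := by
    intro h
    have := (Complex.arg_eq_pi_iff.1 h).1
    have := re_pos' hz h2
    linarith
  have a2 : (1 - z).arg ≠ Real.pi := by
    intro h
    have := (Complex.arg_eq_pi_iff.1 h).1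
    have := re_pos hz h1
    linarith
  rw [e1, e2, Complex.log_conj _ a1, Complex.log_conj _ a2, ← map_sub]

theorem lg_im {z : ℂ} (hz : ‖z‖ = 1) (him : 0 < z.im) : (lg z).im = Real.pi / 2 := by
  have h1 : z ≠ 1 := by rintro rfl; simp at him
  have h2 : z ≠ -1 := by rintro rfl; simp at him
  have ha := re_pos' hz h2
  have hb := re_pos hz h1
  have hw : starRingEnd ℂ (1 - z) ≠ 0 := by
    intro h
    have := congrArg Complex.re h
    rw [Complex.conj_re, Complex.zero_re] at this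
    linarith
  have hu : (1 + z) ≠ 0 := by
    intro h
    rw [h, Complex.zero_re] at ha
    exact lt_irrefl _ ha
  unfold lg
  rw [Complex.sub_im, Complex.log_im, Complex.log_im]
  have h3 : (starRingEnd ℂ (1 - z)).arg = -(1 - z).arg := by
    rw [Complex.arg_conj, if_neg]
    intro h
    have := (Complex.arg_eq_pi_iff.1 h).1
    linarith
  have b1 : |(1 + z).arg| < Real.pi / 2 := Complex.abs_arg_lt_pi_div_two_iff.2 (Or.inl ha)
  have b2 : |(starRingEnd ℂ (1 - z)).arg| < Real.pi / 2 :=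
    Complex.abs_arg_lt_pi_div_two_iff.2 (Or.inl (by rwa [Complex.conj_re]))
  rw [abs_lt] at b1 b2
  have h4 := Complex.arg_mul hu hw ⟨by linarith, by linarith⟩
  have h5 : (1 + z) * starRingEnd ℂ (1 - z) = ((2 * z.im : ℝ) : ℂ) * Complex.I := by
    have h6 : z.re ^ 2 + z.im ^ 2 = 1 := by
      have := Complex.sq_norm z
      rw [hz, Complex.normSq_apply] at this
      nlinarith
    apply Complex.ext
    · simp
      nlinarith
    · simp
      ring
  rw [h5, Complex.arg_real_mul _ (by linarith), Complex.arg_I, h3] at h4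
  linarith

theorem ze_ne {a : (ZMod M)ˣ} (hM : 2 < M) : ze (a : ZMod M) ≠ 1 ∧ ze (a : ZMod M) ≠ -1 := by
  have h1 : ze (a : ZMod M) ^ 2 ≠ 1 := by
    intro h
    rw [ze_pow] at h
    unfold ze at h
    have h2 : ((2 : ℕ) : ZMod M) * (a : ZMod M) = 0 := by
      apply ZMod.injective_stdAddChar
      rw [h, AddChar.map_zero_eq_one]
    rw [Units.mul_left_eq_zero] at h2
    have h3 : M ∣ 2 := (ZMod.natCast_eq_zero_iff 2 M).1 h2
    have := Nat.le_of_dvd (by norm_num) h3
    omega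
  constructor
  · intro h; apply h1; rw [h]; norm_num
  · intro h; apply h1; rw [h]; norm_num

theorem ze_im_pos {a : (ZMod M)ˣ} (hM : 2 < M) (ha : 2 * (a : ZMod M).val < M) :
    0 < (ze (a : ZMod M)).im := by
  unfold ze
  rw [ZMod.stdAddChar_apply, ZMod.toCircle_apply]
  have hM0 : (0 : ℝ) < M := by exact_mod_cast (by omega : 0 < M)
  have h1 : 2 * (Real.pi : ℂ) * Complex.I * ((a : ZMod M).val : ℂ) / M =
      ((2 * Real.pi * (a : ZMod M).val / M : ℝ) : ℂ) * Complex.I := by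
    push_cast
    ring
  rw [h1, Complex.exp_ofReal_mul_I_im]
  haveI : Fact (1 < M) := ⟨by omega⟩
  have hv : 0 < (a : ZMod M).val := by
    rw [Nat.pos_iff_ne_zero, Ne, ZMod.val_eq_zero]
    exact a.ne_zero
  have hv' : (0 : ℝ) < (a : ZMod M).val := by exact_mod_cast hv
  have ha' : 2 * ((a : ZMod M).val : ℝ) < M := by exact_mod_cast ha
  have hπ := Real.pi_pos
  apply Real.sin_pos_of_pos_of_lt_pi
  · positivity
  · rw [div_lt_iff₀ hM0]
    nlinarith

theorem ze_neg (a : ZMod M) : ze (-a) = starRingEnd ℂ (ze a) := by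
  unfold ze
  rw [AddChar.map_neg_eq_conj]

/-- the limit of the finite sum -/
theorem tendsto_fin (χ : DirichletCharacter ℂ M) (hM : 2 < M) :
    Tendsto (fun r : ℝ => ∑ a : ZMod M, χ a *
      ((Complex.log (1 + r * ze a) - Complex.log (1 - r * ze a)) / 2)) (𝓝[<] 1)
      (𝓝 (∑ a : ZMod M, χ a * (lg (ze a) / 2))) := by
  apply tendsto_finsetSum
  intro a _
  by_cases ha : IsUnit a
  · obtain ⟨u, rfl⟩ := ha
    have hne := ze_ne (a := u) hM
    refine Tendsto.const_mul _ (Tendsto.div_const ?_ _)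
    refine Tendsto.mono_left ?_ nhdsWithin_le_nhds
    unfold lg
    have hr : Tendsto (fun r : ℝ => (r : ℂ) * ze (u : ZMod M)) (𝓝 1) (𝓝 (ze (u : ZMod M))) := by
      have h1 : Continuous (fun r : ℝ => (r : ℂ) * ze (u : ZMod M)) :=
        Complex.continuous_ofReal.mul continuous_const
      have h2 := h1.tendsto 1
      rwa [Complex.ofReal_one, one_mul] at h2
    apply Tendsto.sub
    · exact (continuousAt_clog (Or.inl (re_pos' (norm_ze _) hne.2))).tendsto.comp
        (tendsto_const_nhds.add hr)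
    · exact (continuousAt_clog (Or.inl (re_pos (norm_ze _) hne.1))).tendsto.comp
        (tendsto_const_nhds.sub hr)
  · rw [MulChar.map_nonunit _ ha]
    simp

/-- evaluation of the limit -/
theorem fin_eval {χ : DirichletCharacter ℂ M} (hM : 2 < M) (hodd : χ (-1) = -1) :
    ∑ a : ZMod M, χ a * (lg (ze a) / 2) =
      (Real.pi / 2 * Complex.I) * ∑ a ∈ halfSet M, χ (a : ZMod M) := by
  classical
  haveI : Fact (1 < M) := ⟨by omega⟩
  have h1 : ∑ a : ZMod M, χ a * (lg (ze a) / 2) =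
      ∑ u : (ZMod M)ˣ, χ (u : ZMod M) * (lg (ze (u : ZMod M)) / 2) := by
    have h2 : ∑ u : (ZMod M)ˣ, χ (u : ZMod M) * (lg (ze (u : ZMod M)) / 2) =
        ∑ a ∈ (Finset.univ : Finset (ZMod M)ˣ).map ⟨Units.val, Units.val_injective⟩,
          χ a * (lg (ze a) / 2) := by
      rw [Finset.sum_map]
      rfl
    rw [h2]
    symm
    refine Finset.sum_subset (Finset.subset_univ _) fun a _ ha => ?_
    rw [MulChar.map_nonunit, zero_mul]
    rintro ⟨u, rfl⟩
    apply ha
    rw [Finset.mem_map]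
    exact ⟨u, Finset.mem_univ _, rfl⟩
  have h3 : ∀ u : (ZMod M)ˣ, 2 * (u : ZMod M).val ≠ M := by
    intro u h
    have h4 : ((2 : ℕ) : ZMod M) * (u : ZMod M) = 0 := by
      have h5 : ((2 * (u : ZMod M).val : ℕ) : ZMod M) = 0 := by
        rw [h]; exact ZMod.natCast_self M
      rw [Nat.cast_mul, ZMod.natCast_zmod_val] at h5
      exact h5
    rw [Units.mul_left_eq_zero] at h4
    have h5 : M ∣ 2 := (ZMod.natCast_eq_zero_iff 2 M).1 h4
    have := Nat.le_of_dvd (by norm_num) h5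
    omega
  have hneg : ∀ u : (ZMod M)ˣ, ((-u : (ZMod M)ˣ) : ZMod M).val = M - (u : ZMod M).val := by
    intro u
    rw [Units.val_neg, ZMod.neg_val, if_neg u.ne_zero]
  have hlt : ∀ u : (ZMod M)ˣ, (u : ZMod M).val < M := fun u => ZMod.val_lt _
  set f : (ZMod M)ˣ → ℂ := fun u => χ (u : ZMod M) * (lg (ze (u : ZMod M)) / 2) with hf
  set P : (ZMod M)ˣ → Prop := fun u => 2 * (u : ZMod M).val < M with hP
  have h6 : ∑ u ∈ Finset.univ.filter (fun u => ¬ P u), f u =
      ∑ u ∈ Finset.univ.filter (fun u => P u), f (-u) := by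
    refine Finset.sum_nbij' (fun u => -u) (fun u => -u) ?_ ?_ (fun u _ => neg_neg u)
      (fun u _ => neg_neg u) ?_
    · intro u hu
      rw [Finset.mem_filter] at hu ⊢
      refine ⟨Finset.mem_univ _, ?_⟩
      have e1 := hu.2
      have e2 := h3 u
      have e3 := hlt u
      simp only [hP] at e1 ⊢
      rw [hneg]
      omega
    · intro u hu
      rw [Finset.mem_filter] at hu ⊢
      refine ⟨Finset.mem_univ _, ?_⟩
      have e1 := hu.2
      have e3 := hlt u
      simp only [hP] at e1 ⊢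
      rw [hneg]
      omega
    · intro u _
      simp only [neg_neg]
  have h10 : ∑ u : (ZMod M)ˣ, f u = ∑ u ∈ Finset.univ.filter (fun u => P u), (f u + f (-u)) := by
    rw [Finset.sum_add_distrib, ← h6]
    exact (Finset.sum_filter_add_sum_filter_not Finset.univ P f).symm
  rw [h1, h10, Finset.mul_sum]
  refine Finset.sum_congr rfl fun u hu => ?_
  have hu2 : 2 * (u : ZMod M).val < M := (Finset.mem_filter.1 hu).2
  have hne := ze_ne (a := u) hM
  have h7 : χ ((-u : (ZMod M)ˣ) : ZMod M) = -χ (u : ZMod M) := by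
    rw [Units.val_neg, ← neg_one_mul, map_mul, hodd, neg_one_mul]
  simp only [hf]
  rw [h7, Units.val_neg, ze_neg, lg_conj (norm_ze _) hne.1 hne.2]
  have h8 := lg_im (norm_ze _) (ze_im_pos hM hu2)
  have h9 : lg (ze (u : ZMod M)) - starRingEnd ℂ (lg (ze (u : ZMod M))) = Real.pi * Complex.I := by
    rw [Complex.sub_conj, h8]
    push_cast
    ring
  linear_combination (χ (u : ZMod M) / 2) * h9

end CplxAux

open CplxAux in
theorem half_sum_ne_zero {M : ℕ} [NeZero M] (hM : 2 < M) (χ : DirichletCharacter ℂ M)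
    (hprim : χ.IsPrimitive) (hodd : χ (-1) = -1) :
    ∑ a ∈ halfSet M, χ (a : ZMod M) ≠ 0 := by
  intro h0
  have h1 := (abel_limit (ind_ne_one hodd)).const_mul (gaussSum χ ZMod.stdAddChar)
  have h2 := tendsto_fin χ hM
  rw [fin_eval hM hodd, h0, mul_zero] at h2
  have h3 : gaussSum χ ZMod.stdAddChar * (ind χ).LFunction 1 = 0 := by
    refine tendsto_nhds_unique h1 (h2.congr' ?_)
    have h4 : ∀ᶠ r : ℝ in 𝓝[<] 1, r ∈ Set.Ico (0 : ℝ) 1 := Ico_mem_nhdsLT (by norm_num)
    filter_upwards [h4] with r hr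
    exact (series_eq hprim hr.1 hr.2).symm
  rcases mul_eq_zero.1 h3 with h | h
  · exact gauss_ne_zero hprim h
  · exact DirichletCharacter.LFunction_apply_one_ne_zero (ind_ne_one hodd) h

end Pool.Agent.GP.Half
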