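import Mathlib

/-!
# Module CountW: counting characters

* `card_hom_eq`: `C` a finite abelian group, `K₁`, `K₂` algebraically closed fields in which `|C|` is
  invertible, `P : (a subset of C)`: the number of `μ : C →* K₁ˣ` with `μ(h) ≠ 1` for all `h ∈ P` is
  the same as for `K₂`.  PROOF: let `e = |C|`; the groups of `e`-th roots of unity in `K₁` and `K₂`
  are both cyclic of order `e` (`K_i` algebraically closed, `e` invertible: `HasEnoughRootsOfUnity`),
  choose an isomorphism `ψ : rootsOfUnity e K₁ ≃* rootsOfUnity e K₂`; a homomorphism `C →* K_iˣ` has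
  values in `rootsOfUnity e K_i`; composition with `ψ` is a bijection preserving the condition
  `μ(h) ≠ 1`.
* `card_restrict`: `G` a finite abelian group with `|G|` invertible in the algebraically closed `K`,
  `C ≤ G`, `T` a set of characters of `C`: the number of characters of `G` whose restriction to
  `C` is in `T` is `|T| * [G : C]`.  PROOF: restriction `(G →* Kˣ) → (C →* Kˣ)` is a surjective group
  homomorphism (Mathlib: `MonoidHom.restrict_surjective` for `HasEnoughRootsOfUnity`, or `Kˣ` is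
  divisible), the domain has `|G|` elements and the range `|C|`, so all fibres have
  `|G|/|C| = [G : C]` elements.
-/

namespace Pool.Agent.GP.Half

theorem card_hom_aux {C : Type} [CommGroup C] [Finite C] (K : Type) [Field K] [IsAlgClosed K]
    (P : Set C) :
    Nat.card {μ : C →* Kˣ // ∀ h ∈ P, μ h ≠ 1} =
      Nat.card {f : C →* rootsOfUnity (Nat.card C) K // ∀ h ∈ P, f h ≠ 1} := by
  symm
  apply Nat.card_congr
  refine Equiv.ofBijective (fun f => ⟨(rootsOfUnity (Nat.card C) K).subtype.comp f.1, ?_⟩) ⟨?_, ?_⟩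
  · intro h hh h1
    apply f.2 h hh
    exact Subtype.ext h1
  · intro f g hfg
    apply Subtype.ext
    apply MonoidHom.ext
    intro x
    apply Subtype.ext
    have h1 := congrArg (fun μ : {μ : C →* Kˣ // ∀ h ∈ P, μ h ≠ 1} => μ.1 x) hfg
    exact h1
  · intro μ
    have hm : ∀ x, μ.1 x ∈ rootsOfUnity (Nat.card C) K := by
      intro x
      rw [mem_rootsOfUnity, ← map_pow, pow_card_eq_one', map_one]
    refine ⟨⟨μ.1.codRestrict (rootsOfUnity (Nat.card C) K) hm, ?_⟩, ?_⟩
    · intro h hh h1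
      apply μ.2 h hh
      have h2 := congrArg Subtype.val h1
      exact h2
    · apply Subtype.ext
      apply MonoidHom.ext
      intro x
      rfl

theorem card_hom_eq {C : Type} [CommGroup C] [Fintype C] (K₁ K₂ : Type) [Field K₁] [Field K₂]
    [IsAlgClosed K₁] [IsAlgClosed K₂] (h₁ : (Nat.card C : K₁) ≠ 0) (h₂ : (Nat.card C : K₂) ≠ 0)
    (P : Set C) :
    Nat.card {μ : C →* K₁ˣ // ∀ h ∈ P, μ h ≠ 1} = Nat.card {μ : C →* K₂ˣ // ∀ h ∈ P, μ h ≠ 1} := by
  have : NeZero (Nat.card C : K₁) := ⟨h₁⟩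
  have : NeZero (Nat.card C : K₂) := ⟨h₂⟩
  have : NeZero (Nat.card C) := ⟨Nat.card_pos.ne'⟩
  have e1 := HasEnoughRootsOfUnity.natCard_rootsOfUnity K₁ (Nat.card C)
  have e2 := HasEnoughRootsOfUnity.natCard_rootsOfUnity K₂ (Nat.card C)
  have ψ : rootsOfUnity (Nat.card C) K₁ ≃* rootsOfUnity (Nat.card C) K₂ :=
    mulEquivOfCyclicCardEq (e1.trans e2.symm)
  rw [card_hom_aux K₁, card_hom_aux K₂]
  apply Nat.card_congr
  refine ⟨fun f => ⟨ψ.toMonoidHom.comp f.1, ?_⟩, fun f => ⟨ψ.symm.toMonoidHom.comp f.1, ?_⟩, ?_, ?_⟩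
  · intro h hh h1
    apply f.2 h hh
    have h2 : ψ (f.1 h) = 1 := h1
    exact (MulEquiv.map_eq_one_iff ψ).1 h2
  · intro h hh h1
    apply f.2 h hh
    have h2 : ψ.symm (f.1 h) = 1 := h1
    exact (MulEquiv.map_eq_one_iff ψ.symm).1 h2
  · intro f
    apply Subtype.ext
    apply MonoidHom.ext
    intro x
    exact ψ.symm_apply_apply _
  · intro f
    apply Subtype.ext
    apply MonoidHom.ext
    intro x
    exact ψ.apply_symm_apply _

theorem enough {G : Type} [CommGroup G] [Finite G] (K : Type) [Field K]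
    [IsAlgClosed K] (hG : (Nat.card G : K) ≠ 0) : HasEnoughRootsOfUnity K (Monoid.exponent G) := by
  have h1 : NeZero (Monoid.exponent G : K) := ⟨by
    intro h
    obtain ⟨k, hk⟩ := Group.exponent_dvd_nat_card (G := G)
    apply hG
    rw [hk, Nat.cast_mul, h, zero_mul]⟩
  infer_instance

theorem exists_extend {G : Type} [CommGroup G] [Fintype G] (C : Subgroup G) (K : Type) [Field K]
    [IsAlgClosed K] (hG : (Nat.card G : K) ≠ 0) (μ : C →* Kˣ) :
    ∃ χ : G →* Kˣ, χ.comp C.subtype = μ := by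
  have := enough K hG
  obtain ⟨χ, hχ⟩ := MonoidHom.domRestrict_surjective K C μ
  exact ⟨χ, hχ⟩

theorem card_restrict {G : Type} [CommGroup G] [Fintype G] (C : Subgroup G) (K : Type) [Field K]
    [IsAlgClosed K] (hG : (Nat.card G : K) ≠ 0) (T : Set (C →* Kˣ)) :
    Nat.card {χ : G →* Kˣ // χ.comp C.subtype ∈ T} = Nat.card T * C.index := by
  have := enough K hG
  have hker : Nat.card (MonoidHom.domRestrictHom C Kˣ).ker = C.index := by
    rw [CommGroup.card_domRestrictHom_ker, Subgroup.index_eq_card]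
  rw [← hker, ← Nat.card_prod]
  choose s hs using exists_extend C K hG
  apply Nat.card_congr
  refine ⟨fun χ => (⟨_, χ.2⟩, ⟨χ.1 * (s (χ.1.comp C.subtype))⁻¹, ?_⟩),
    fun x => ⟨s x.1.1 * x.2.1, ?_⟩, ?_, ?_⟩
  · rw [MonoidHom.mem_ker, map_mul, map_inv, mul_inv_eq_one]
    exact (hs _).symm
  · have h1 : (s x.1.1 * x.2.1).comp C.subtype = x.1.1 := by
      have h2 : (MonoidHom.domRestrictHom C Kˣ) (s x.1.1 * x.2.1) = x.1.1 := by
        rw [map_mul, x.2.2, mul_one]
        exact hs _
      exact h2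
    rw [h1]
    exact x.1.2
  · intro χ
    apply Subtype.ext
    apply MonoidHom.ext
    intro x
    show s (χ.1.comp C.subtype) x * (χ.1 x * (s (χ.1.comp C.subtype) x)⁻¹) = χ.1 x
    rw [mul_comm (χ.1 x), mul_inv_cancel_left]
  · rintro ⟨⟨t, ht⟩, ⟨k, hk⟩⟩
    have h1 : (s t * k).comp C.subtype = t := by
      have h2 : (MonoidHom.domRestrictHom C Kˣ) (s t * k) = t := by
        rw [map_mul, hk, mul_one]
        exact hs _
      exact h2
    simp only [Prod.mk.injEq, Subtype.mk.injEq]
    refine ⟨h1, ?_⟩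
    rw [h1]
    apply MonoidHom.ext
    intro x
    show s t x * k x * (s t x)⁻¹ = k x
    rw [mul_comm (s t x), mul_inv_cancel_right]

end Pool.Agent.GP.Half
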