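import Mathlib

/-!
# Module Cube: the function `∏_l (1 - [h_l]) e`

`e : G → ℤ` with values of absolute value `≤ 1`, `h : ι → G` a finite family.
`cube h e g = ∑_{S ⊆ ι} (-1)^|S| e (g ∏_{l ∈ S} h_l)`.

* `|cube h e g| ≤ 2 ^ |ι|` (there are `2 ^ |ι|` subsets).
* For a character `μ` of a finite subgroup `C` containing all `h_l`:
  `∑_{c ∈ C} cube h e (b c) μ(c) = ∏_l (1 - μ(h_l)⁻¹) ∑_{c ∈ C} e (b c) μ(c)`:
  substitute `c → c (∏_{l ∈ S} h_l)⁻¹` in each term and use `∏_l (1 + x_l) = ∑_S ∏_{l ∈ S} x_l`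
  (`Finset.prod_one_add`, `Finset.prod_add`) with `x_l = - μ(h_l)⁻¹`.
* If `e (z g) = - e g` then `cube h e (z g) = - cube h e g`.
-/

namespace Pool.Agent.GP.Half

open Finset

/-- `∏_l (1 - [h_l]) e` -/
def cube {G ι : Type} [CommGroup G] [Fintype ι] (h : ι → G) (e : G → ℤ) (g : G) : ℤ :=
  ∑ S : Finset ι, (-1) ^ S.card * e (g * ∏ l ∈ S, h l)

theorem abs_cube_le {G ι : Type} [CommGroup G] [Fintype ι] (h : ι → G) (e : G → ℤ)
    (he : ∀ g, |e g| ≤ 1) (g : G) : |cube h e g| ≤ 2 ^ Fintype.card ι := by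
  unfold cube
  refine (Finset.abs_sum_le_sum_abs _ _).trans ?_
  refine (Finset.sum_le_card_nsmul _ _ 1 ?_).trans ?_
  · intro S _
    rw [abs_mul, abs_pow, abs_neg, abs_one, one_pow, one_mul]
    exact he _
  · rw [Finset.card_univ, Fintype.card_finset, nsmul_eq_mul, mul_one]
    push_cast
    exact le_refl _

theorem cube_neg {G ι : Type} [CommGroup G] [Fintype ι] (h : ι → G) (e : G → ℤ) (z : G)
    (he : ∀ g, e (z * g) = - e g) (g : G) : cube h e (z * g) = - cube h e g := by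
  unfold cube
  rw [← Finset.sum_neg_distrib]
  apply Finset.sum_congr rfl
  intro S _
  rw [mul_assoc, he]
  ring

theorem sum_cube {G ι : Type} [CommGroup G] [Fintype ι] (h : ι → G) (e : G → ℤ)
    (C : Subgroup G) [Fintype C] (hC : ∀ l, h l ∈ C) {K : Type} [Field K] (μ : C →* Kˣ) (b : G) :
    ∑ c : C, (cube h e (b * c) : K) * (μ c : K) =
      (∏ l, (1 - ((μ ⟨h l, hC l⟩ : Kˣ) : K)⁻¹)) * ∑ c : C, (e (b * c) : K) * (μ c : K) := by
  have hprod : (∏ l, (1 - ((μ ⟨h l, hC l⟩ : Kˣ) : K)⁻¹)) =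
      ∑ S : Finset ι, (-1) ^ S.card * ∏ l ∈ S, ((μ ⟨h l, hC l⟩ : Kˣ) : K)⁻¹ := by
    simp_rw [sub_eq_add_neg]
    rw [Finset.prod_one_add, Finset.powerset_univ]
    apply Finset.sum_congr rfl
    intro S _
    rw [Finset.prod_neg]
  have hterm : ∀ S : Finset ι, ∑ c : C, (e (b * c * ∏ l ∈ S, h l) : K) * (μ c : K) =
      (∏ l ∈ S, ((μ ⟨h l, hC l⟩ : Kˣ) : K)⁻¹) * ∑ c : C, (e (b * c) : K) * (μ c : K) := by
    intro S
    set k : C := ∏ l ∈ S, ⟨h l, hC l⟩ with hk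
    have hk1 : (k : G) = ∏ l ∈ S, h l := by
      rw [hk]
      simp
    have hk2 : (∏ l ∈ S, ((μ ⟨h l, hC l⟩ : Kˣ) : K)⁻¹) = ((μ k : Kˣ) : K)⁻¹ := by
      rw [hk, map_prod, Units.coe_prod, Finset.prod_inv_distrib]
    rw [hk2, Finset.mul_sum, ← hk1]
    apply Fintype.sum_equiv (Equiv.mulRight k)
    intro c
    rw [Equiv.coe_mulRight, map_mul, Subgroup.coe_mul, Units.val_mul, mul_assoc b]
    have h0 : ((μ k : Kˣ) : K) ≠ 0 := Units.ne_zero _
    field_simp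
  rw [hprod, Finset.sum_mul]
  unfold cube
  simp_rw [Int.cast_sum, Finset.sum_mul]
  rw [Finset.sum_comm]
  apply Finset.sum_congr rfl
  intro S _
  rw [mul_assoc, ← hterm S, Finset.mul_sum]
  apply Finset.sum_congr rfl
  intro c _
  push_cast
  ring

end Pool.Agent.GP.Half
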