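import Mathlib

/-!
# Module Density: few primes `p` have a large `S`-part of `p ^ r - 1`

`S` a finite set of primes, `r ≥ 1`, `η > 0`.  The number of primes `p ≤ x`, `p ∉ S`, such that the
`S`-part of `p ^ r - 1` is larger than `p ^ η` is `≤ C x ^ (1 - δ)`.

PROOF.  We may assume `S` nonempty (otherwise the product is `1 < p^η`, no such `p`; in general
nothing special is needed) and `η ≤ 1` (decrease `η`).  Put `s = |S|`, `δ = η / (2 s)` (`≤ 1/2`).
Such a `p` is either `≤ √x` (at most `√x ≤ x^(1-δ)` of them, `x ≥ 1`) or `p > √x` and there is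
`l ∈ S` with `l ^ v > p ^ (η/s) ≥ x ^ δ`, `v = v_l(p^r - 1)`.  Let `j` be minimal with
`l ^ j ≥ x ^ δ`; then `l ^ j ∣ p ^ r - 1` (`j ≤ v`).  So `p` lies in one of the residue classes
`a mod l ^ j` with `a ^ r = 1`; there are at most `2 r` of them (`(ℤ/l^j)ˣ` is cyclic for `l` odd and
has a cyclic subgroup of index `2` for `l = 2`; in a cyclic group `a ^ r = 1` has at most `r`
solutions `IsCyclic.card_pow_eq_one_le`), and each class contains at most `x / l^j + 1 ≤ x^(1-δ) + 1`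
numbers `≤ x` (`Nat.count_modEq_card` or similar).  Total
`≤ x^(1-δ) + s · 2r · (x^(1-δ) + 1) ≤ C x^(1-δ)`, `C = 1 + 4 r s`.
(For `x = 0` the left side is `0`: no primes; make sure that `C ≥ 0` and `δ < 1`.)
-/

namespace Pool.Agent.GP.Half

namespace Density

/-- two solutions of `a ^ r = 1` modulo `l ^ j` that are close are congruent modulo `l ^ (j - v)`,
`v = v_l(r)` -/
theorem close_solutions {l r j a b : ℕ} (hl : l.Prime) (hr : 0 < r) (hba : b < a)
    (hb : ¬ l ∣ b) (ha1 : l ^ j ∣ a ^ r - 1) (hb1 : l ^ j ∣ b ^ r - 1) (hb0 : 1 ≤ b)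
    (hab : l ^ (r.factorization l + 1) ∣ a - b) : l ^ (j - r.factorization l) ∣ a - b := by
  set v := r.factorization l with hv
  set s := ∑ i ∈ Finset.range r, a ^ i * b ^ (r - 1 - i) with hs
  have h1 : s * (a - b) = a ^ r - b ^ r := geom_sum₂_mul_of_ge hba.le r
  -- `l ^ j` divides the product
  have h2 : l ^ j ∣ s * (a - b) := by
    rw [h1]
    have e1 : 1 ≤ a ^ r := Nat.one_le_pow _ _ (by omega)
    have e2 : 1 ≤ b ^ r := Nat.one_le_pow _ _ hb0
    have e3 : a ^ r - b ^ r = (a ^ r - 1) - (b ^ r - 1) := by omega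
    rw [e3]
    exact Nat.dvd_sub ha1 hb1
  -- `l ^ (v+1)` does not divide `s`
  have h3 : ¬ l ^ (v + 1) ∣ s := by
    intro h
    have h4 : ((l ^ (v + 1) : ℕ) : ℤ) ∣ (a : ℤ) - b := by
      have := Int.natCast_dvd_natCast.mpr hab
      rwa [Nat.cast_sub hba.le] at this
    have h5 : ((l ^ (v + 1) : ℕ) : ℤ) ∣ ∑ i ∈ Finset.range r, (a : ℤ) ^ i * (b : ℤ) ^ (r - 1 - i) := by
      have := Int.natCast_dvd_natCast.mpr h
      rw [hs] at this
      push_cast at this ⊢
      exact this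
    rw [dvd_geom_sum₂_iff_of_dvd_sub h4] at h5
    have h6 : l ^ (v + 1) ∣ r * b ^ (r - 1) := by
      exact_mod_cast h5
    have h7 : Nat.Coprime (l ^ (v + 1)) (b ^ (r - 1)) :=
      Nat.Coprime.pow _ _ ((Nat.Prime.coprime_iff_not_dvd hl).mpr hb)
    have h8 : l ^ (v + 1) ∣ r := h7.dvd_of_dvd_mul_right h6
    have h9 := (hl.pow_dvd_iff_le_factorization hr.ne').mp h8
    omega
  have hs0 : s ≠ 0 := by
    intro h
    exact h3 (h ▸ dvd_zero _)
  have hd0 : a - b ≠ 0 := by omega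
  rw [hl.pow_dvd_iff_le_factorization (mul_ne_zero hs0 hd0), Nat.factorization_mul hs0 hd0,
    Finsupp.add_apply] at h2
  rw [hl.pow_dvd_iff_le_factorization hs0] at h3
  rw [hl.pow_dvd_iff_le_factorization hd0]
  omega

/-- the number of `p ≤ x` with `l ^ j ∣ p ^ r - 1` -/
theorem card_class {l r : ℕ} (hl : l.Prime) (hr : 0 < r) (j x : ℕ) :
    ((Finset.range (x + 1)).filter fun p => 1 ≤ p ∧ ¬ l ∣ p ∧ l ^ j ∣ p ^ r - 1).card ≤
      l ^ (r.factorization l + 1) * (x / l ^ (j - r.factorization l) + 1) := by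
  set v := r.factorization l with hv
  set A := (Finset.range (x + 1)).filter fun p => 1 ≤ p ∧ ¬ l ∣ p ∧ l ^ j ∣ p ^ r - 1 with hA
  have hinj : Set.InjOn (fun p => (p % l ^ (v + 1), p / l ^ (j - v))) (A : Set ℕ) := by
    have key : ∀ a ∈ A, ∀ b ∈ A, b < a →
        (fun p => (p % l ^ (v + 1), p / l ^ (j - v))) a =
          (fun p => (p % l ^ (v + 1), p / l ^ (j - v))) b → False := by
      intro a ha b hb hba h
      rw [hA, Finset.mem_filter] at ha hb
      simp only [Prod.mk.injEq] at h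
      obtain ⟨h1, h2⟩ := h
      have h3 : l ^ (v + 1) ∣ a - b := (Nat.modEq_iff_dvd' hba.le).mp h1.symm
      have h4 := close_solutions hl hr hba hb.2.2.1 ha.2.2.2 hb.2.2.2 hb.2.1 h3
      have h5 : b ≡ a [MOD l ^ (j - v)] := (Nat.modEq_iff_dvd' hba.le).mpr h4
      have h6 : b % l ^ (j - v) = a % l ^ (j - v) := h5
      have h7 := Nat.div_add_mod a (l ^ (j - v))
      have h8 := Nat.div_add_mod b (l ^ (j - v))
      rw [h2, ← h6] at h7
      omega
    intro a ha b hb h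
    rcases lt_trichotomy a b with hlt | heq | hgt
    · exact (key b hb a ha hlt h.symm).elim
    · exact heq
    · exact (key a ha b hb hgt h).elim
  have hmaps : ∀ p ∈ A, (fun p => (p % l ^ (v + 1), p / l ^ (j - v))) p ∈
      Finset.range (l ^ (v + 1)) ×ˢ Finset.range (x / l ^ (j - v) + 1) := by
    intro p hp
    rw [hA, Finset.mem_filter, Finset.mem_range] at hp
    rw [Finset.mem_product, Finset.mem_range, Finset.mem_range]
    refine ⟨Nat.mod_lt _ (pow_pos hl.pos _), ?_⟩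
    have : p / l ^ (j - v) ≤ x / l ^ (j - v) := Nat.div_le_div_right (by omega)
    simp only
    omega
  have h := Finset.card_le_card_of_injOn _ hmaps hinj
  rwa [Finset.card_product, Finset.card_range, Finset.card_range] at h

end Density

theorem exceptional_card (S : Finset ℕ) (hS : ∀ l ∈ S, l.Prime) (r : ℕ) (hr : 0 < r) (η : ℝ)
    (hη : 0 < η) : ∃ C δ : ℝ, 0 ≤ C ∧ 0 < δ ∧ δ < 1 ∧ ∀ x : ℕ,
      (((Finset.range (x + 1)).filter fun p => p.Prime ∧ p ∉ S ∧
        (p : ℝ) ^ η < ∏ l ∈ S, (l : ℝ) ^ (p ^ r - 1).factorization l).card : ℝ) ≤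
          C * (x : ℝ) ^ (1 - δ) := by
  classical
  set η' := min η 1 with hη'
  have hη'0 : 0 < η' := lt_min hη one_pos
  have hη'1 : η' ≤ 1 := min_le_right _ _
  set s : ℝ := S.card + 1 with hs
  have hs1 : 1 ≤ s := by
    rw [hs]
    have : (0 : ℝ) ≤ S.card := Nat.cast_nonneg _
    linarith
  have hs0 : 0 < s := by linarith
  set δ : ℝ := η' / (2 * s) with hδ
  have hδ0 : 0 < δ := by positivity
  have hδ1 : δ ≤ 1 / 2 := by
    rw [hδ, div_le_iff₀ (by positivity)]
    linarith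
  set Cl : ℕ → ℝ := fun l => (l : ℝ) ^ (r.factorization l + 1) * ((l : ℝ) ^ r.factorization l + 1)
    with hCl
  refine ⟨1 + ∑ l ∈ S, Cl l, δ, ?_, hδ0, by linarith, ?_⟩
  · have : 0 ≤ ∑ l ∈ S, Cl l := Finset.sum_nonneg fun l _ => by positivity
    linarith
  intro x
  rcases Nat.eq_zero_or_pos x with hx | hx
  · subst hx
    have h1 : (Finset.range (0 + 1)).filter (fun p => p.Prime ∧ p ∉ S ∧
        (p : ℝ) ^ η < ∏ l ∈ S, (l : ℝ) ^ (p ^ r - 1).factorization l) = ∅ := by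
      rw [Finset.filter_eq_empty_iff]
      intro p hp h
      rw [zero_add, Finset.mem_range] at hp
      have := h.1.two_le
      omega
    rw [h1, Finset.card_empty, Nat.cast_zero]
    have h2 : 0 ≤ ∑ l ∈ S, Cl l := Finset.sum_nonneg fun l _ => by positivity
    positivity
  have hx1 : (1 : ℝ) ≤ x := by exact_mod_cast hx
  have hx0 : (0 : ℝ) < x := by linarith
  have hxδ : 1 ≤ (x : ℝ) ^ (1 - δ) := Real.one_le_rpow hx1 (by linarith)
  -- the covering
  have hj : ∀ l : ℕ, l.Prime → ∃ j : ℕ, (x : ℝ) ^ δ ≤ (l : ℝ) ^ j := by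
    intro l hl
    have : (1 : ℝ) < l := by exact_mod_cast hl.one_lt
    obtain ⟨j, hj⟩ := pow_unbounded_of_one_lt ((x : ℝ) ^ δ) this
    exact ⟨j, hj.le⟩
  let jj : ℕ → ℕ := fun l => if h : l.Prime then Nat.find (hj l h) else 0
  have hjj : ∀ l : ℕ, l.Prime → (x : ℝ) ^ δ ≤ (l : ℝ) ^ jj l := by
    intro l hl
    simp only [jj, dif_pos hl]
    exact Nat.find_spec (hj l hl)
  have hjm : ∀ l : ℕ, l.Prime → ∀ m : ℕ, (x : ℝ) ^ δ ≤ (l : ℝ) ^ m → jj l ≤ m := by
    intro l hl m hm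
    simp only [jj, dif_pos hl]
    exact Nat.find_min' (hj l hl) hm
  let A : ℕ → Finset ℕ := fun l => (Finset.range (x + 1)).filter fun p =>
    1 ≤ p ∧ ¬ l ∣ p ∧ l ^ jj l ∣ p ^ r - 1
  have hcover : (Finset.range (x + 1)).filter (fun p => p.Prime ∧ p ∉ S ∧
        (p : ℝ) ^ η < ∏ l ∈ S, (l : ℝ) ^ (p ^ r - 1).factorization l) ⊆
      Finset.Icc 1 (Nat.sqrt x) ∪ S.biUnion A := by
    intro p hp
    rw [Finset.mem_filter, Finset.mem_range] at hp
    obtain ⟨hpx, hpp, hpS, hlt⟩ := hp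
    rw [Finset.mem_union]
    by_cases hsq : p * p ≤ x
    · left
      rw [Finset.mem_Icc]
      exact ⟨hpp.one_le, Nat.le_sqrt.mpr hsq⟩
    right
    rw [Finset.mem_biUnion]
    have hp1 : (1 : ℝ) ≤ p := by exact_mod_cast hpp.one_le
    have hp0 : (0 : ℝ) < p := by linarith
    -- some factor is large
    by_contra hcon
    push Not at hcon
    have hsmall : ∀ l ∈ S, (l : ℝ) ^ (p ^ r - 1).factorization l ≤ (p : ℝ) ^ (η' / s) := by
      intro l hl
      by_contra hbig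
      push Not at hbig
      apply hcon l hl
      simp only [A]
      rw [Finset.mem_filter, Finset.mem_range]
      refine ⟨hpx, hpp.one_le, ?_, ?_⟩
      · intro hdvd
        have := (Nat.prime_dvd_prime_iff_eq (hS l hl) hpp).mp hdvd
        exact hpS (this ▸ hl)
      · have h1 : (x : ℝ) ^ δ ≤ (p : ℝ) ^ (η' / s) := by
          have h2 : (x : ℝ) ≤ (p : ℝ) ^ (2 : ℝ) := by
            rw [Real.rpow_two, sq]
            have : x ≤ p * p := by omega
            exact_mod_cast this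
          calc (x : ℝ) ^ δ ≤ ((p : ℝ) ^ (2 : ℝ)) ^ δ := Real.rpow_le_rpow hx0.le h2 hδ0.le
            _ = (p : ℝ) ^ (2 * δ) := by rw [← Real.rpow_mul hp0.le]
            _ = (p : ℝ) ^ (η' / s) := by
                congr 1
                rw [hδ]
                field_simp
        have h3 := hjm l (hS l hl) _ (h1.trans hbig.le)
        exact (pow_dvd_pow l h3).trans (Nat.ordProj_dvd _ _)
    have h4 : ∏ l ∈ S, (l : ℝ) ^ (p ^ r - 1).factorization l ≤ (p : ℝ) ^ η := by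
      calc ∏ l ∈ S, (l : ℝ) ^ (p ^ r - 1).factorization l
          ≤ ∏ _l ∈ S, (p : ℝ) ^ (η' / s) :=
            Finset.prod_le_prod (fun l _ => by positivity) hsmall
        _ = (p : ℝ) ^ (η' / s * S.card) := by
            rw [Finset.prod_const, ← Real.rpow_natCast, ← Real.rpow_mul hp0.le]
        _ ≤ (p : ℝ) ^ η := by
            apply Real.rpow_le_rpow_of_exponent_le hp1
            have h5 : η' / s * S.card ≤ η' := by
              rw [div_mul_eq_mul_div, div_le_iff₀ hs0]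
              apply mul_le_mul_of_nonneg_left _ hη'0.le
              rw [hs]
              linarith
            exact h5.trans (min_le_left _ _)
    linarith
  -- counting
  have hA : ∀ l ∈ S, ((A l).card : ℝ) ≤ Cl l * (x : ℝ) ^ (1 - δ) := by
    intro l hl
    have hlp := hS l hl
    have hl0 : (0 : ℝ) < l := by exact_mod_cast hlp.pos
    have hl1 : (1 : ℝ) ≤ l := by exact_mod_cast hlp.one_le
    have h1 := Density.card_class hlp hr (jj l) x
    set v := r.factorization l with hv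
    have h2 : ((A l).card : ℝ) ≤ (l : ℝ) ^ (v + 1) * ((x / l ^ (jj l - v) : ℕ) + 1) := by
      exact_mod_cast h1
    have h3 : ((x / l ^ (jj l - v) : ℕ) : ℝ) ≤ (l : ℝ) ^ v * (x : ℝ) ^ (1 - δ) := by
      have h4 : ((x / l ^ (jj l - v) : ℕ) : ℝ) ≤ (x : ℝ) / ((l : ℝ) ^ (jj l - v)) := by
        have := Nat.cast_div_le (α := ℝ) (m := x) (n := l ^ (jj l - v))
        push_cast at this
        exact this
      refine h4.trans ?_
      rw [div_le_iff₀ (by positivity)]
      have h5 : (x : ℝ) ^ δ ≤ (l : ℝ) ^ v * (l : ℝ) ^ (jj l - v) := by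
        rw [← pow_add]
        refine (hjj l hlp).trans ?_
        exact pow_le_pow_right₀ hl1 (by omega)
      have h6 : (x : ℝ) = (x : ℝ) ^ (1 - δ) * (x : ℝ) ^ δ := by
        rw [← Real.rpow_add hx0]
        simp
      calc (x : ℝ) = (x : ℝ) ^ (1 - δ) * (x : ℝ) ^ δ := h6
        _ ≤ (x : ℝ) ^ (1 - δ) * ((l : ℝ) ^ v * (l : ℝ) ^ (jj l - v)) :=
            mul_le_mul_of_nonneg_left h5 (by positivity)
        _ = (l : ℝ) ^ v * (x : ℝ) ^ (1 - δ) * (l : ℝ) ^ (jj l - v) := by ring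
    calc ((A l).card : ℝ) ≤ (l : ℝ) ^ (v + 1) * ((x / l ^ (jj l - v) : ℕ) + 1) := h2
      _ ≤ (l : ℝ) ^ (v + 1) * ((l : ℝ) ^ v * (x : ℝ) ^ (1 - δ) + (x : ℝ) ^ (1 - δ)) :=
          mul_le_mul_of_nonneg_left (add_le_add h3 hxδ) (by positivity)
      _ = Cl l * (x : ℝ) ^ (1 - δ) := by
          rw [hCl]
          ring
  have hsqrt : ((Finset.Icc 1 (Nat.sqrt x)).card : ℝ) ≤ (x : ℝ) ^ (1 - δ) := by
    rw [Nat.card_Icc, Nat.add_sub_cancel]
    calc ((Nat.sqrt x : ℕ) : ℝ) ≤ Real.sqrt x := Real.nat_sqrt_le_real_sqrt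
      _ = (x : ℝ) ^ (1 / 2 : ℝ) := Real.sqrt_eq_rpow _
      _ ≤ (x : ℝ) ^ (1 - δ) := Real.rpow_le_rpow_of_exponent_le hx1 (by linarith)
  have hfin := (Finset.card_le_card hcover).trans (Finset.card_union_le _ _)
  have hbi : (S.biUnion A).card ≤ ∑ l ∈ S, (A l).card := Finset.card_biUnion_le
  have hfin' : (((Finset.range (x + 1)).filter fun p => p.Prime ∧ p ∉ S ∧
        (p : ℝ) ^ η < ∏ l ∈ S, (l : ℝ) ^ (p ^ r - 1).factorization l).card : ℝ) ≤
      ((Finset.Icc 1 (Nat.sqrt x)).card : ℝ) + ((∑ l ∈ S, (A l).card : ℕ) : ℝ) := by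
    exact_mod_cast hfin.trans (Nat.add_le_add_left hbi _)
  refine hfin'.trans ?_
  push_cast
  calc ((Finset.Icc 1 (Nat.sqrt x)).card : ℝ) + ∑ l ∈ S, ((A l).card : ℝ)
      ≤ (x : ℝ) ^ (1 - δ) + ∑ l ∈ S, Cl l * (x : ℝ) ^ (1 - δ) :=
        add_le_add hsqrt (Finset.sum_le_sum hA)
    _ = (1 + ∑ l ∈ S, Cl l) * (x : ℝ) ^ (1 - δ) := by
        rw [← Finset.sum_mul]
        ring

end Pool.Agent.GP.Half
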