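import Mathlib

/-!
# Module LinAlg: a rank drop modulo `p` and Hadamard's inequality

`F` an integer matrix, `w` its rank over `ℂ`, rank over `k` (a field of characteristic `p`) at most
`w - v`, all rows of squared length `≤ K`.  Then `p ^ (2 v) ≤ K ^ w`.

PROOF.
(1) Minor lemma, for a matrix `A : Matrix ι κ 𝕜` over a field `𝕜` of rank `t`: there are
`r : Fin t → ι`, `c : Fin t → κ` (injective) with `det (A.submatrix r c) ≠ 0` (choose `t` linearly
independent rows: the rows span a space of dimension `t` (`Matrix.rank_eq_finrank_span_row`) and a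
spanning family contains a basis; the `t × κ` matrix of these rows has rank `t`, so `t` of its
columns are linearly independent; a square matrix with independent rows/columns has nonzero
determinant).  Conversely, if some `s × s` submatrix has nonzero determinant then `s ≤ rank A`
(`Matrix.rank_submatrix_le`).
(2) Over `ℂ`: `D = F.submatrix r c`, a `w × w` integer matrix, `det D ≠ 0`.
(3) Over `𝔽_p = ZMod p`: the rank `s` of `D` modulo `p` is at most the rank over `k`: by (1) over
`ZMod p` there is an `s × s` submatrix with determinant nonzero mod `p`, hence nonzero in `k`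
(the map `ZMod p → k` is injective), so `s ≤ rank_k (F) ≤ w - v`.
(4) So the left kernel of `D mod p` has dimension `≥ v`: there is an invertible matrix
`U ∈ GL_w(𝔽_p)` such that `v` rows of `U (D mod p)` are zero (extend a basis of the left kernel to
a basis of `𝔽_p^w`).  Lift `U` to an integer matrix `U'`; `v` rows of `U' D` are divisible by `p`, so
`p ^ v ∣ det (U' D) = det U' * det D` (e.g. `Matrix.det_mul_column`/row version), and
`p ∤ det U'`, so `p ^ v ∣ det D` (coprimality).
(5) Hadamard: `(det D)^2 ≤ ∏ i, ∑ j, (D i j)^2` (Mathlib: `Orientation.abs_volumeForm_apply_le` with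
`EuclideanSpace ℝ (Fin w)`; or AM-GM for the eigenvalues of the Gram matrix after normalising the
rows).  Each `∑ j, (D i j)^2 ≤ ∑_{all columns} ≤ K` as `c` is injective.
(6) `p ^ (2 v) ≤ (det D)^2 ≤ K ^ w`.
-/

set_option linter.all false

namespace Pool.Agent.GP.Half

/-- Hadamard's inequality for integer matrices. -/
theorem hadamard_int {n : ℕ} (D : Matrix (Fin n) (Fin n) ℤ) :
    D.det ^ 2 ≤ ∏ i, ∑ j, D i j ^ 2 := by
  haveI : Fact (Module.finrank ℝ (EuclideanSpace ℝ (Fin n)) = n) := ⟨finrank_euclideanSpace_fin⟩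
  set b := EuclideanSpace.basisFun (Fin n) ℝ with hb
  set o := b.toBasis.orientation with ho
  set v : Fin n → EuclideanSpace ℝ (Fin n) := fun i => WithLp.toLp 2 (fun j => (D i j : ℝ)) with hv
  have h1 := o.abs_volumeForm_apply_le v
  rw [o.volumeForm_robust' b, Module.Basis.det_apply] at h1
  have h2 : b.toBasis.toMatrix v = (D.map (Int.castRingHom ℝ)).transpose := by
    ext i j
    rw [Module.Basis.toMatrix_apply]
    simp [hb, hv]
  rw [h2, Matrix.det_transpose] at h1
  have h3 : (D.map (Int.castRingHom ℝ)).det = (D.det : ℝ) :=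
    ((Int.castRingHom ℝ).map_det D).symm
  rw [h3] at h1
  have h4 : ((D.det : ℝ)) ^ 2 ≤ ∏ i, ∑ j, (D i j : ℝ) ^ 2 := by
    rw [← sq_abs]
    refine (pow_le_pow_left₀ (abs_nonneg _) h1 2).trans (le_of_eq ?_)
    rw [← Finset.prod_pow]
    refine Finset.prod_congr rfl fun i _ => ?_
    rw [EuclideanSpace.real_norm_sq_eq]
  exact_mod_cast h4

/-- divisibility of a determinant by rows -/
private theorem LinAlg_dvd_rows {w : ℕ} (p : ℤ) (M : Matrix (Fin w) (Fin w) ℤ) (S : Finset (Fin w))
    (h : ∀ i ∈ S, ∀ j, p ∣ M i j) : p ^ S.card ∣ M.det := by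
  classical
  choose! f hf using h
  set M' : Matrix (Fin w) (Fin w) ℤ := fun i j => if i ∈ S then f i j else M i j with hM'
  have h1 : M = Matrix.diagonal (fun i => if i ∈ S then p else 1) * M' := by
    ext i j
    rw [Matrix.diagonal_mul, hM']
    by_cases hi : i ∈ S
    · simp only [if_pos hi]
      exact hf i hi j
    · simp only [if_neg hi, one_mul]
  rw [h1, Matrix.det_mul, Matrix.det_diagonal, Finset.prod_ite_mem, Finset.univ_inter,
    Finset.prod_const]
  exact dvd_mul_right _ _

/-- if the rank of `D` modulo `p` is at most `w - v` then `p ^ v ∣ det D` -/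
theorem pow_dvd_det {w v p : ℕ} [Fact p.Prime] (D : Matrix (Fin w) (Fin w) ℤ)
    (h : (D.map (Int.cast : ℤ → ZMod p)).rank + v ≤ w) : (p : ℤ) ^ v ∣ D.det := by
  classical
  set Db : Matrix (Fin w) (Fin w) (ZMod p) := D.map (Int.cast : ℤ → ZMod p) with hDb
  obtain ⟨V, U, e, hV, hU, hVU⟩ := Matrix.exists_rank_normal_form Db
  have hp : p.Prime := Fact.out
  have hpZ : Prime (p : ℤ) := Nat.prime_iff_prime_int.1 hp
  -- lifts
  set V' : Matrix (Fin w) (Fin w) ℤ := V.map (fun x => (x.cast : ℤ)) with hV'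
  set U' : Matrix (Fin w) (Fin w) ℤ := U.map (fun x => (x.cast : ℤ)) with hU'
  have hV1 : (Int.castRingHom (ZMod p)).mapMatrix V' = V := by
    ext i j
    simp [hV']
  have hU1 : (Int.castRingHom (ZMod p)).mapMatrix U' = U := by
    ext i j
    simp [hU']
  have hD1 : (Int.castRingHom (ZMod p)).mapMatrix D = Db := by
    ext i j
    simp [hDb]
  have hcop : ∀ (A : Matrix (Fin w) (Fin w) ℤ), IsUnit ((Int.castRingHom (ZMod p)).mapMatrix A) →
      ¬ (p : ℤ) ∣ A.det := by
    intro A hA hdvd
    have h1 : ((A.det : ℤ) : ZMod p) = 0 := (ZMod.intCast_zmod_eq_zero_iff_dvd _ _).2 hdvd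
    have h2 := (Int.castRingHom (ZMod p)).map_det A
    rw [Matrix.isUnit_iff_isUnit_det, ← h2] at hA
    apply hA.ne_zero
    simpa using h1
  set S : Finset (Fin w) := Finset.univ.filter fun i => ∃ x, e i = Sum.inr x with hS
  have hM : ∀ i ∈ S, ∀ j, (p : ℤ) ∣ (V' * D * U') i j := by
    intro i hi j
    rw [hS, Finset.mem_filter] at hi
    obtain ⟨_, x, hx⟩ := hi
    rw [← ZMod.intCast_zmod_eq_zero_iff_dvd]
    have h1 : (Int.castRingHom (ZMod p)).mapMatrix (V' * D * U') =
        (Matrix.fromBlocks 1 0 0 0).submatrix e e := by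
      rw [map_mul, map_mul, hV1, hU1, hD1, hVU]
    have h2 : (Int.castRingHom (ZMod p)).mapMatrix (V' * D * U') i j = 0 := by
      rw [h1, Matrix.submatrix_apply, hx]
      cases e j <;> simp
    simpa using h2
  have h1 := LinAlg_dvd_rows (p : ℤ) (V' * D * U') S hM
  have hcard : v ≤ S.card := by
    have h2 : S.card = w - Db.rank := by
      have h3 : S = (Finset.univ : Finset (Fin (Fintype.card (Fin w) - Db.rank))).map
          ⟨fun x => e.symm (Sum.inr x), fun x y hxy => by
            have := e.symm.injective hxy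
            exact Sum.inr_injective this⟩ := by
        ext i
        rw [hS, Finset.mem_filter, Finset.mem_map]
        constructor
        · rintro ⟨_, x, hx⟩
          exact ⟨x, Finset.mem_univ _, by
            show e.symm (Sum.inr x) = i
            rw [← hx, e.symm_apply_apply]⟩
        · rintro ⟨x, _, hx⟩
          refine ⟨Finset.mem_univ _, x, ?_⟩
          rw [← hx]
          exact e.apply_symm_apply _
      rw [h3, Finset.card_map, Finset.card_univ, Fintype.card_fin, Fintype.card_fin]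
    omega
  have h2 : (p : ℤ) ^ v ∣ V'.det * D.det * U'.det := by
    rw [← Matrix.det_mul, ← Matrix.det_mul]
    exact (pow_dvd_pow _ hcard).trans h1
  have hcV := hcop V' (by rw [hV1]; exact hV)
  have hcU := hcop U' (by rw [hU1]; exact hU)
  have h3 : (p : ℤ) ^ v ∣ V'.det * D.det :=
    (hpZ.pow_dvd_of_dvd_mul_right v hcU h2)
  exact hpZ.pow_dvd_of_dvd_mul_left v hcV h3

/-- maximal independent set of rows -/
private theorem LinAlg_rows {𝕜 ι κ : Type} [Field 𝕜] [Fintype ι] [Fintype κ] (A : Matrix ι κ 𝕜)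
    {t : ℕ} (ht : A.rank = t) :
    ∃ r : Fin t → ι, Function.Injective r ∧ LinearIndependent 𝕜 (fun i => A (r i)) := by
  obtain ⟨κ', a, ha, hsp, hli⟩ := exists_linearIndependent' 𝕜 A.row
  haveI : Finite κ' := Finite.of_injective a ha
  haveI := Fintype.ofFinite κ'
  have h1 : Fintype.card κ' = t := by
    have h2 := linearIndependent_iff_card_eq_finrank_span.1 hli
    rw [h2, Set.finrank, hsp, ← ht, Matrix.rank_eq_finrank_span_row]
  set e : Fin t ≃ κ' := (Fintype.equivFinOfCardEq h1).symm with he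
  refine ⟨a ∘ e, ha.comp e.injective, ?_⟩
  exact hli.comp e e.injective

private theorem LinAlg_minor {𝕜 ι κ : Type} [Field 𝕜] [Fintype ι] [Fintype κ] (A : Matrix ι κ 𝕜)
    {t : ℕ} (ht : A.rank = t) :
    ∃ (r : Fin t → ι) (c : Fin t → κ), Function.Injective r ∧ Function.Injective c ∧
      (A.submatrix r c).det ≠ 0 := by
  classical
  obtain ⟨r, hr, hli⟩ := LinAlg_rows A ht
  have h1 : (A.submatrix r id).transpose.rank = t := by
    rw [Matrix.rank_transpose]
    have h2 : LinearIndependent 𝕜 (A.submatrix r id).row := hli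
    rw [h2.rank_matrix, Fintype.card_fin]
  obtain ⟨c, hc, hlc⟩ := LinAlg_rows _ h1
  refine ⟨r, c, hr, hc, ?_⟩
  have h3 : LinearIndependent 𝕜 (A.submatrix r c).transpose.row := hlc
  rw [Matrix.linearIndependent_rows_iff_isUnit, Matrix.isUnit_iff_isUnit_det,
    Matrix.det_transpose] at h3
  exact h3.ne_zero

theorem exists_minor {𝕜 ι κ : Type} [Field 𝕜] [Fintype ι] [Fintype κ] (A : Matrix ι κ 𝕜) :
    ∃ (r : Fin A.rank → ι) (c : Fin A.rank → κ), Function.Injective r ∧ Function.Injective c ∧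
      (A.submatrix r c).det ≠ 0 :=
  LinAlg_minor A rfl

theorem rank_bound {ι κ : Type} [Fintype ι] [Fintype κ] (F : Matrix ι κ ℤ) {p : ℕ}
    [Fact p.Prime] (k : Type) [Field k] [CharP k p] (K : ℕ)
    (hrow : ∀ i, ∑ j, F i j ^ 2 ≤ (K : ℤ)) (v : ℕ)
    (hv : (F.map (Int.cast : ℤ → k)).rank + v ≤ (F.map (Int.cast : ℤ → ℂ)).rank) :
    p ^ (2 * v) ≤ K ^ (F.map (Int.cast : ℤ → ℂ)).rank := by
  classical
  obtain ⟨w, hw⟩ : ∃ w, (F.map (Int.cast : ℤ → ℂ)).rank = w := ⟨_, rfl⟩
  rw [hw] at hv ⊢
  obtain ⟨r, c, hr, hc, hdet⟩ := LinAlg_minor (F.map (Int.cast : ℤ → ℂ)) hw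
  set D : Matrix (Fin w) (Fin w) ℤ := F.submatrix r c with hD
  have hD0 : D.det ≠ 0 := by
    intro h0
    apply hdet
    have h1 := (Int.castRingHom ℂ).map_det D
    rw [h0, map_zero] at h1
    rw [h1]
    rfl
  have hrank : (D.map (Int.cast : ℤ → ZMod p)).rank ≤ (F.map (Int.cast : ℤ → k)).rank := by
    obtain ⟨s, hs⟩ : ∃ s, (D.map (Int.cast : ℤ → ZMod p)).rank = s := ⟨_, rfl⟩
    rw [hs]
    obtain ⟨r', c', hr', hc', hdet'⟩ := LinAlg_minor (D.map (Int.cast : ℤ → ZMod p)) hs
    set D' : Matrix (Fin s) (Fin s) ℤ := D.submatrix r' c' with hD'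
    have h1 : ¬ (p : ℤ) ∣ D'.det := by
      intro hdvd
      apply hdet'
      have h2 := (Int.castRingHom (ZMod p)).map_det D'
      have h3 : ((D'.det : ℤ) : ZMod p) = 0 := (ZMod.intCast_zmod_eq_zero_iff_dvd _ _).2 hdvd
      have h4 : (Int.castRingHom (ZMod p)) D'.det = 0 := by simpa using h3
      rw [h4] at h2
      rw [h2]
      rfl
    have h5 : ((D'.det : ℤ) : k) ≠ 0 := by
      intro h0
      exact h1 ((CharP.intCast_eq_zero_iff k p _).1 h0)
    have h6 : ((F.map (Int.cast : ℤ → k)).submatrix (r ∘ r') (c ∘ c')).det ≠ 0 := by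
      have h7 := (Int.castRingHom k).map_det D'
      have h8 : (Int.castRingHom k).mapMatrix D' =
          (F.map (Int.cast : ℤ → k)).submatrix (r ∘ r') (c ∘ c') := by
        ext i j
        rfl
      rw [← h8, ← h7]
      simpa using h5
    have h9 := Matrix.rank_of_det_ne_zero h6
    rw [Fintype.card_fin] at h9
    rw [← h9]
    exact Matrix.rank_submatrix_le _ _ _
  have h1 : (p : ℤ) ^ v ∣ D.det := pow_dvd_det D (by omega)
  have h2 : ((p : ℤ) ^ v) ^ 2 ≤ D.det ^ 2 := by
    have h3 : ((p : ℤ) ^ v) ^ 2 ∣ D.det ^ 2 := pow_dvd_pow_of_dvd h1 2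
    exact Int.le_of_dvd (by positivity) h3
  have h3 := hadamard_int D
  have h4 : ∏ i, ∑ j, D i j ^ 2 ≤ (K : ℤ) ^ w := by
    calc ∏ i, ∑ j, D i j ^ 2 ≤ ∏ _i : Fin w, (K : ℤ) := by
          refine Finset.prod_le_prod (fun i _ => Finset.sum_nonneg fun j _ => sq_nonneg _)
            fun i _ => ?_
          refine le_trans ?_ (hrow (r i))
          have h5 : ∑ j, D i j ^ 2 = ∑ y ∈ (Finset.univ : Finset (Fin w)).map ⟨c, hc⟩,
              F (r i) y ^ 2 := by
            rw [Finset.sum_map]
            rfl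
          rw [h5]
          exact Finset.sum_le_sum_of_subset_of_nonneg (Finset.subset_univ _)
            fun j _ _ => sq_nonneg _
      _ = (K : ℤ) ^ w := by rw [Finset.prod_const, Finset.card_univ, Fintype.card_fin]
  have h5 : (p : ℤ) ^ (2 * v) ≤ (K : ℤ) ^ w := by
    calc (p : ℤ) ^ (2 * v) = ((p : ℤ) ^ v) ^ 2 := by rw [← pow_mul, mul_comm]
      _ ≤ _ := h2.trans (h3.trans h4)
  exact_mod_cast h5

end Pool.Agent.GP.Half
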