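import Mathlib

/-!
# Module PrimGen: primitivity is tested on finitely many elements

For a prime `l ∣ M` let `H_l = ker ((ℤ/M)ˣ → (ℤ/(M/l))ˣ)` (`ZMod.unitsMap`).

PROOF.
(1) `H_l` is cyclic and killed by `q`.  If `l² ∣ M`, `#H_l = φ(M)/φ(M/l) = l` is prime, so `H_l` is
cyclic and `x^l = 1` on it, `l ∣ q`.  If `l ∥ M`: the map `H_l → (ℤ/l)ˣ` is injective (`x ≡ 1` mod
`M/l` and mod `l`, coprime, so mod `M`), so `H_l` is cyclic (subgroup of a cyclic group) of order
dividing `l - 1 ∣ q`.  Let `h_l` be a generator.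
(2) `χ` factors through `M/l` iff `H_l ≤ ker χ` (`DirichletCharacter.factorsThrough_iff_ker_unitsMap`)
iff `χ(h_l) = 1`.
(3) `χ` is primitive iff it does not factor through `M/l` for any prime `l ∣ M`: if the conductor `f`
is not `M`, then `f ∣ M/l` for some prime `l ∣ M/f` and `χ` factors through `M/l` (factoring through
`f` implies factoring through every multiple of `f` dividing `M`).
-/

namespace Pool.Agent.GP.Half

theorem isPrimitive_iff (M : ℕ) [NeZero M] (K : Type) [Field K] (χ : DirichletCharacter K M) :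
    χ.IsPrimitive ↔ ∀ l : {l // l ∈ M.primeFactors}, ¬ χ.FactorsThrough (M / l.1) := by
  have hM : 0 < M := Nat.pos_of_ne_zero (NeZero.ne M)
  constructor
  · intro h l hf
    have h1 := DirichletCharacter.conductor_dvd_of_mem_conductorSet (χ := χ) (d := M / l.1) hf
    rw [(DirichletCharacter.isPrimitive_def χ).1 h] at h1
    have hl := Nat.mem_primeFactors.1 l.2
    have h2 : 0 < M / l.1 := Nat.div_pos (Nat.le_of_dvd hM hl.2.1) hl.1.pos
    have h3 := Nat.le_of_dvd h2 h1
    have h4 : M / l.1 < M := Nat.div_lt_self hM hl.1.one_lt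
    omega
  · intro h
    by_contra hne
    rw [DirichletCharacter.isPrimitive_def] at hne
    obtain ⟨c, hc⟩ := DirichletCharacter.conductor_dvd_level χ
    have hc1 : c ≠ 1 := by
      rintro rfl
      rw [mul_one] at hc
      exact hne hc.symm
    obtain ⟨l, hl, hlc⟩ := Nat.exists_prime_and_dvd hc1
    have hlM : l ∣ M := hc ▸ (hlc.mul_left _)
    refine h ⟨l, Nat.mem_primeFactors.2 ⟨hl, hlM, hM.ne'⟩⟩ ?_
    obtain ⟨c', rfl⟩ := hlc
    have h5 : M / l = χ.conductor * c' := by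
      apply Nat.div_eq_of_eq_mul_right hl.pos
      calc M = χ.conductor * (l * c') := hc
        _ = l * (χ.conductor * c') := by ring
    have h6 : χ.conductor ∣ M / l := by
      rw [h5]
      exact dvd_mul_right _ _
    exact DirichletCharacter.FactorsThrough.mono χ (DirichletCharacter.factorsThrough_conductor χ) h6
      (Nat.div_dvd_of_dvd hlM)

theorem card_ker (M N : ℕ) [NeZero M] (hN : N ∣ M) :
    Nat.card (ZMod.unitsMap hN).ker * N.totient = M.totient := by
  have hM : 0 < M := Nat.pos_of_ne_zero (NeZero.ne M)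
  have : NeZero N := ⟨fun h => by
    subst h
    exact hM.ne' (Nat.eq_zero_of_zero_dvd hN)⟩
  have h1 := Subgroup.card_eq_card_quotient_mul_card_subgroup (ZMod.unitsMap hN).ker
  have h2 : Nat.card ((ZMod M)ˣ ⧸ (ZMod.unitsMap hN).ker) = Nat.card (ZMod N)ˣ :=
    Nat.card_congr (QuotientGroup.quotientKerEquivOfSurjective _
      (ZMod.unitsMap_surjective hN)).toEquiv
  rw [h2, Nat.card_eq_fintype_card (α := (ZMod M)ˣ), Nat.card_eq_fintype_card (α := (ZMod N)ˣ),
    ZMod.card_units_eq_totient, ZMod.card_units_eq_totient] at h1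
  rw [h1, mul_comm]

theorem unitsMap_inj (l N : ℕ) [NeZero (l * N)] (hc : Nat.Coprime l N) (x : (ZMod (l * N))ˣ)
    (h1 : ZMod.unitsMap (dvd_mul_right l N) x = 1) (h2 : ZMod.unitsMap (dvd_mul_left N l) x = 1) :
    x = 1 := by
  have h3 := congrArg Units.val h1
  have h4 := congrArg Units.val h2
  rw [ZMod.unitsMap_val, Units.val_one] at h3 h4
  have h5 : (((x : ZMod (l * N)).val : ℕ) : ZMod l) = ((1 : ℕ) : ZMod l) := by
    rw [Nat.cast_one, ← h3, ZMod.natCast_val]
  have h6 : (((x : ZMod (l * N)).val : ℕ) : ZMod N) = ((1 : ℕ) : ZMod N) := by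
    rw [Nat.cast_one, ← h4, ZMod.natCast_val]
  rw [ZMod.natCast_eq_natCast_iff] at h5 h6
  have h7 := (Nat.modEq_and_modEq_iff_modEq_mul hc).1 ⟨h5, h6⟩
  rw [← ZMod.natCast_eq_natCast_iff, ZMod.natCast_zmod_val, Nat.cast_one] at h7
  exact Units.ext h7

theorem gen_exists (l N q : ℕ) [NeZero (l * N)] (hl : l.Prime) (h1 : l - 1 ∣ q)
    (h2 : l ^ 2 ∣ l * N → l ∣ q) :
    ∃ g : (ZMod (l * N))ˣ, g ^ q = 1 ∧
      (ZMod.unitsMap (dvd_mul_left N l)).ker = Subgroup.zpowers g := by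
  have hlN : 0 < l * N := Nat.pos_of_ne_zero (NeZero.ne (l * N))
  have hN : 0 < N := Nat.pos_of_mul_pos_left hlN
  have htN : 0 < N.totient := Nat.totient_pos.2 hN
  have hcard := card_ker (l * N) N (dvd_mul_left N l)
  have : Fact l.Prime := ⟨hl⟩
  suffices h : IsCyclic (ZMod.unitsMap (dvd_mul_left N l)).ker ∧
      Nat.card (ZMod.unitsMap (dvd_mul_left N l)).ker ∣ q by
    obtain ⟨hcyc, hdvd⟩ := h
    obtain ⟨g, hg⟩ := hcyc.exists_generator
    refine ⟨g.1, ?_, ?_⟩
    · have h3 : g ^ Nat.card (ZMod.unitsMap (dvd_mul_left N l)).ker = 1 := pow_card_eq_one'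
      obtain ⟨c, hc⟩ := hdvd
      have h4 : g ^ q = 1 := by
        rw [hc, pow_mul, h3, one_pow]
      have h5 := congrArg Subtype.val h4
      simpa using h5
    · ext x
      constructor
      · intro hx
        obtain ⟨k, hk⟩ := Subgroup.mem_zpowers_iff.1 (hg ⟨x, hx⟩)
        rw [Subgroup.mem_zpowers_iff]
        refine ⟨k, ?_⟩
        have h5 := congrArg Subtype.val hk
        simpa using h5
      · intro hx
        obtain ⟨k, rfl⟩ := Subgroup.mem_zpowers_iff.1 hx
        exact Subgroup.zpow_mem _ g.2 k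
  by_cases hd : l ∣ N
  · have h3 : Nat.card (ZMod.unitsMap (dvd_mul_left N l)).ker = l := by
      rw [Nat.totient_mul_of_prime_of_dvd hl hd] at hcard
      exact Nat.eq_of_mul_eq_mul_right htN hcard
    refine ⟨isCyclic_of_prime_card h3, ?_⟩
    rw [h3]
    apply h2
    rw [pow_two]
    exact mul_dvd_mul_left l hd
  · have h3 : Nat.card (ZMod.unitsMap (dvd_mul_left N l)).ker = l - 1 := by
      rw [Nat.totient_mul_of_prime_of_not_dvd hl hd] at hcard
      exact Nat.eq_of_mul_eq_mul_right htN hcard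
    refine ⟨?_, by rw [h3]; exact h1⟩
    have hc : Nat.Coprime l N := (Nat.Prime.coprime_iff_not_dvd hl).2 hd
    refine isCyclic_of_injective ((ZMod.unitsMap (dvd_mul_right l N)).comp
      (ZMod.unitsMap (dvd_mul_left N l)).ker.subtype) ?_
    rw [injective_iff_map_eq_one]
    intro x hx
    exact Subtype.ext (unitsMap_inj l N hc x.1 hx x.2)

theorem exists_gen (M q : ℕ) [NeZero M]
    (hq : ∀ l : ℕ, l.Prime → l ∣ M → l - 1 ∣ q ∧ (l ^ 2 ∣ M → l ∣ q)) :
    ∃ h : {l // l ∈ M.primeFactors} → (ZMod M)ˣ, (∀ l, h l ^ q = 1) ∧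
      ∀ (K : Type) [Field K] (χ : DirichletCharacter K M),
        χ.IsPrimitive ↔ ∀ l, χ.toUnitHom (h l) ≠ 1 := by
  have hM : 0 < M := Nat.pos_of_ne_zero (NeZero.ne M)
  have key : ∀ l : {l // l ∈ M.primeFactors}, ∃ g : (ZMod M)ˣ, g ^ q = 1 ∧
      (ZMod.unitsMap (Nat.div_dvd_of_dvd (Nat.mem_primeFactors.1 l.2).2.1)).ker =
        Subgroup.zpowers g := by
    rintro ⟨l, hl⟩
    obtain ⟨hlp, hlM, _⟩ := Nat.mem_primeFactors.1 hl
    obtain ⟨N, rfl⟩ := hlM
    obtain ⟨h1, h2⟩ := hq l hlp (dvd_mul_right l N)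
    obtain ⟨g, hg1, hg2⟩ := gen_exists l N q hlp h1 h2
    refine ⟨g, hg1, ?_⟩
    have h3 : l * N / l = N := Nat.mul_div_cancel_left N hlp.pos
    rw [← hg2]
    have aux : ∀ (N' : ℕ) (h : N' = N) (hd : N' ∣ l * N),
        (ZMod.unitsMap hd).ker = (ZMod.unitsMap (dvd_mul_left N l)).ker := by
      rintro N' rfl hd
      rfl
    exact aux _ h3 _
  choose h hh1 hh2 using key
  refine ⟨h, hh1, fun K _ χ => ?_⟩
  rw [isPrimitive_iff]
  refine forall_congr' fun l => not_congr ?_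
  rw [DirichletCharacter.factorsThrough_iff_ker_unitsMap
    (Nat.div_dvd_of_dvd (Nat.mem_primeFactors.1 l.2).2.1), hh2 l, Subgroup.zpowers_le,
    MonoidHom.mem_ker]

end Pool.Agent.GP.Half
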