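import Mathlib

/-!
# Module RankFourier: the rank of the matrix of translates of a function

`G` a finite abelian group, `C` a subgroup, `K` an algebraically closed field in which `|C|` is
invertible, `f : G → K`.  The rank of the `G × C` matrix `(f (b c))` is the number of characters
`λ` of `C` for which the Fourier coefficient `∑_{c ∈ C} f (b c) λ(c)` is nonzero for some `b`.

PROOF.  The rank is the dimension of the row space `R ⊆ (C → K)`, spanned by the rows
`f_b : c ↦ f (b c)`.  Let `Λ` be the set of `λ` in the statement.  Claim: `R = span {λ⁻¹ : λ ∈ Λ}`.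
* `⊆`: Fourier inversion on `C`: `f_b (c) = |C|⁻¹ ∑_λ (∑_{c'} f (b c') λ(c')) λ(c)⁻¹`, and the
  coefficients with `λ ∉ Λ` are zero.  (Inversion: `∑_λ λ(c' c⁻¹) = |C|` if `c = c'` and `0`
  otherwise; Mathlib: `CommGroup`-duality/`HasEnoughRootsOfUnity`, e.g.
  `CommGroup.exists_apply_ne_one_of_hasEnoughRootsOfUnity`, `card` of the dual group; or: the
  characters `C →* K` are linearly independent (`linearIndependent_monoidHom`) and there are `|C|`
  of them, so they are a basis of `C → K`; then compare coefficients with the orthogonality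
  relation `∑_c λ(c) μ(c)⁻¹ = |C| δ`.)
* `⊇`: for `λ ∈ Λ` with `s = ∑_{c'} f (b c') λ(c') ≠ 0`:
  `∑_{c₀ ∈ C} λ(c₀) f_{b c₀} (c) = ∑_{c₀} λ(c₀) f (b c₀ c) = λ(c)⁻¹ s`, so `λ⁻¹ ∈ R`.
The `λ⁻¹`, `λ ∈ Λ`, are linearly independent, so `dim R = |Λ|`.
-/

namespace Pool.Agent.GP.Half

namespace RankFourierAux

open Finset

variable {C K : Type} [CommGroup C] [Field K]

/-- a character as a function -/
def chf (μ : C →* Kˣ) : C → K := fun c => (μ c : K)

theorem coe_inj : Function.Injective fun μ : C →* Kˣ => (Units.coeHom K).comp μ := by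
  intro μ ν h
  ext c
  exact DFunLike.congr_fun h c

theorem chf_linInd : LinearIndependent K (fun μ : C →* Kˣ => chf μ) :=
  (linearIndependent_monoidHom C K).comp _ coe_inj

theorem inv_inj' : Function.Injective fun μ : C →* Kˣ => μ⁻¹ := by
  intro a b h
  ext c
  have h2 := congrArg (fun φ : C →* Kˣ => φ c) h
  have h3 : (a c)⁻¹ = (b c)⁻¹ := h2
  rw [inv_inj.1 h3]

theorem inv_linInd : LinearIndependent K (fun μ : C →* Kˣ => chf μ⁻¹) :=
  chf_linInd.comp _ inv_inj'

variable [Fintype C]

theorem orth (ψ : C →* Kˣ) (h : ψ ≠ 1) : ∑ c, (ψ c : K) = 0 := by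
  have h1 := sum_hom_units_eq_zero ((Units.coeHom K).comp ψ) (by
    intro h2
    apply h
    apply coe_inj
    show (Units.coeHom K).comp ψ = (Units.coeHom K).comp 1
    rw [h2]
    ext c
    simp)
  exact h1

theorem enough [IsAlgClosed K] (hC : (Fintype.card C : K) ≠ 0) :
    HasEnoughRootsOfUnity K (Monoid.exponent C) := by
  have h1 : ((Monoid.exponent C : ℕ) : K) ≠ 0 := by
    intro h0
    apply hC
    obtain ⟨k, hk⟩ : Monoid.exponent C ∣ Fintype.card C := Group.exponent_dvd_card
    rw [hk, Nat.cast_mul, h0, zero_mul]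
  have : NeZero ((Monoid.exponent C : ℕ) : K) := ⟨h1⟩
  infer_instance

theorem finite_chars [IsAlgClosed K] (hC : (Fintype.card C : K) ≠ 0) : Finite (C →* Kˣ) := by
  have := enough hC
  exact Finite.of_equiv _ (CommGroup.monoidHom_mulEquiv_of_hasEnoughRootsOfUnity C K).some.symm.toEquiv

theorem card_chars [IsAlgClosed K] (hC : (Fintype.card C : K) ≠ 0) [Fintype (C →* Kˣ)] :
    Fintype.card (C →* Kˣ) = Fintype.card C := by
  have := enough hC
  have h := CommGroup.card_monoidHom_of_hasEnoughRootsOfUnity C K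
  rwa [Nat.card_eq_fintype_card, Nat.card_eq_fintype_card] at h

theorem span_top [IsAlgClosed K] (hC : (Fintype.card C : K) ≠ 0) :
    Submodule.span K (Set.range fun μ : C →* Kˣ => chf (K := K) μ⁻¹) = ⊤ := by
  have := finite_chars (K := K) hC
  have : Fintype (C →* Kˣ) := Fintype.ofFinite _
  apply inv_linInd.span_eq_top_of_card_eq_finrank'
  rw [card_chars hC, Module.finrank_fintype_fun_eq_card]

/-- the pairing of two characters -/
theorem pair [DecidableEq (C →* Kˣ)] (μ l : C →* Kˣ) : ∑ c, chf μ⁻¹ c * (l c : K) =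
    if μ = l then (Fintype.card C : K) else 0 := by
  split_ifs with h
  · subst h
    have h1 : ∀ c : C, chf μ⁻¹ c * (μ c : K) = 1 := by
      intro c
      show (((μ⁻¹ : C →* Kˣ) c : Kˣ) : K) * (μ c : K) = 1
      rw [MonoidHom.inv_apply, ← Units.val_mul, inv_mul_cancel, Units.val_one]
    simp [h1]
  · have h1 : ∀ c : C, chf μ⁻¹ c * (l c : K) = ((μ⁻¹ * l) c : Kˣ) := by
      intro c
      show (((μ⁻¹ : C →* Kˣ) c : Kˣ) : K) * (l c : K) = _
      rw [← Units.val_mul]
      rfl
    rw [Finset.sum_congr rfl fun c _ => h1 c]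
    apply orth
    intro h2
    apply h
    ext c
    have h3 := DFunLike.congr_fun h2 c
    have h4 : (μ c)⁻¹ * l c = 1 := h3
    rw [inv_mul_eq_one.1 h4]

/-- Fourier expansion -/
theorem expand [IsAlgClosed K] (hC : (Fintype.card C : K) ≠ 0) [Fintype (C →* Kˣ)] (g : C → K) :
    g = ∑ μ : C →* Kˣ, ((Fintype.card C : K)⁻¹ * ∑ c, g c * (μ c : K)) • chf μ⁻¹ := by
  classical
  have hg : g ∈ Submodule.span K (Set.range fun μ : C →* Kˣ => chf (K := K) μ⁻¹) := by
    rw [span_top hC]
    trivial
  obtain ⟨a, ha⟩ := (Submodule.mem_span_range_iff_exists_fun K).1 hg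
  have key : ∀ l : C →* Kˣ, ∑ c, g c * (l c : K) = a l * (Fintype.card C : K) := by
    intro l
    have h1 : ∀ c, g c * (l c : K) = ∑ μ : C →* Kˣ, a μ * (chf μ⁻¹ c * (l c : K)) := by
      intro c
      rw [← ha]
      simp only [Finset.sum_apply, Pi.smul_apply, smul_eq_mul]
      rw [Finset.sum_mul]
      exact Finset.sum_congr rfl fun μ _ => by ring
    rw [Finset.sum_congr rfl fun c _ => h1 c, Finset.sum_comm]
    simp only [← Finset.mul_sum, pair]
    simp
  rw [Finset.sum_congr rfl fun μ _ => by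
    rw [key μ, mul_comm (a μ), ← mul_assoc, inv_mul_cancel₀ hC, one_mul]]
  exact ha.symm

end RankFourierAux

open RankFourierAux

theorem rank_eq_card {G : Type} [CommGroup G] [Fintype G] (C : Subgroup G) [Fintype C] (K : Type)
    [Field K] [IsAlgClosed K] (hC : (Fintype.card C : K) ≠ 0) (f : G → K) :
    (Matrix.of fun (b : G) (c : C) => f (b * c)).rank =
      Nat.card {μ : C →* Kˣ // ∃ b : G, ∑ c : C, f (b * c) * (μ c : K) ≠ 0} := by
  classical
  have := finite_chars (K := K) hC
  let : Fintype (C →* Kˣ) := Fintype.ofFinite _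
  rw [Matrix.rank_eq_finrank_span_row]
  set P : (C →* Kˣ) → Prop := fun μ => ∃ b : G, ∑ c : C, f (b * c) * (μ c : K) ≠ 0 with hP
  have hspan : Submodule.span K (Set.range
      (Matrix.of fun (b : G) (c : C) => f (b * c)).row) =
      Submodule.span K (Set.range fun μ : {μ : C →* Kˣ // P μ} => chf (K := K) μ.1⁻¹) := by
    apply le_antisymm
    · rw [Submodule.span_le]
      rintro _ ⟨b, rfl⟩
      have h1 := expand hC (fun c : C => f (b * c))
      have h2 : (Matrix.of fun (b : G) (c : C) => f (b * c)).row b = fun c : C => f (b * c) := rfl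
      rw [SetLike.mem_coe, h2, h1]
      refine Submodule.sum_mem _ fun μ _ => ?_
      by_cases hμ : P μ
      · exact Submodule.smul_mem _ _ (Submodule.subset_span ⟨⟨μ, hμ⟩, rfl⟩)
      · have h3 : ∑ c : C, f (b * c) * (μ c : K) = 0 := by
          by_contra h4
          exact hμ ⟨b, h4⟩
        rw [h3, mul_zero, zero_smul]
        exact Submodule.zero_mem _
    · rw [Submodule.span_le]
      rintro _ ⟨⟨μ, b, hb⟩, rfl⟩
      set s : K := ∑ c : C, f (b * c) * (μ c : K) with hs
      have h1 : chf (K := K) μ⁻¹ = s⁻¹ • ∑ c₀ : C, (μ c₀ : K) •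
          (Matrix.of fun (b : G) (c : C) => f (b * c)).row (b * c₀) := by
        funext c
        simp only [Pi.smul_apply, Finset.sum_apply, smul_eq_mul]
        have h2 : ∀ c₀ : C, (μ c₀ : K) *
            (Matrix.of fun (b : G) (c : C) => f (b * c)).row (b * c₀) c =
            (f (b * ((c₀ * c : C) : G)) * (μ (c₀ * c) : K)) * chf μ⁻¹ c := by
          intro c₀
          show (μ c₀ : K) * f (b * c₀ * c) = _
          have h3 : (μ (c₀ * c) : K) * chf μ⁻¹ c = μ c₀ := by
            show (μ (c₀ * c) : K) * (((μ⁻¹ : C →* Kˣ) c : Kˣ) : K) = μ c₀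
            rw [MonoidHom.inv_apply, map_mul, ← Units.val_mul, mul_assoc, mul_inv_cancel, mul_one]
          rw [mul_assoc (f (b * ((c₀ * c : C) : G))), h3, Subgroup.coe_mul, ← mul_assoc b, mul_comm]
        rw [Finset.sum_congr rfl fun c₀ _ => h2 c₀, ← Finset.sum_mul]
        have h4 : ∑ c₀ : C, f (b * ((c₀ * c : C) : G)) * (μ (c₀ * c) : K) = s := by
          rw [hs]
          exact Fintype.sum_equiv (Equiv.mulRight c) _ _ fun _ => rfl
        rw [h4, ← mul_assoc, inv_mul_cancel₀ hb, one_mul]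
      show chf (K := K) μ⁻¹ ∈ _
      rw [h1]
      refine Submodule.smul_mem _ _ (Submodule.sum_mem _ fun c₀ _ => ?_)
      exact Submodule.smul_mem _ _ (Submodule.subset_span ⟨b * c₀, rfl⟩)
  rw [hspan]
  have hli : LinearIndependent K (fun μ : {μ : C →* Kˣ // P μ} => chf (K := K) μ.1⁻¹) :=
    inv_linInd.comp _ Subtype.val_injective
  rw [finrank_span_eq_card hli, Nat.card_eq_fintype_card]

end Pool.Agent.GP.Half
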