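import Pool.Agent.GP.Half.Criterion
import Pool.Agent.GP.Half.LinAlg
import Pool.Agent.GP.Half.RankFourier
import Pool.Agent.GP.Half.Cube
import Pool.Agent.GP.Half.CountW
import Pool.Agent.GP.Half.PrimGen
import Pool.Agent.GP.Half.CardC
import Pool.Agent.GP.Half.Density
import Pool.Agent.GP.Half.Complex
import Pool.Agent.GP.Half.Avg

/-!
# Assembly: at least half of the eigenspaces vanish
-/

open Finset

namespace Pool.Agent.GP.Half

section eps

variable {M : ℕ}

theorem abs_eps_le (a : (ZMod M)ˣ) : |eps M a| ≤ 1 := by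
  unfold eps
  split_ifs <;> simp

variable [NeZero M]

theorem two_val_ne (hM : 2 < M) (a : (ZMod M)ˣ) : 2 * (a : ZMod M).val ≠ M := by
  intro h
  have hcop := ZMod.val_coe_unit_coprime a
  have h2 : (a : ZMod M).val ∣ M := Dvd.intro_left _ h
  have h3 : (a : ZMod M).val = 1 := by
    have := Nat.Coprime.eq_one_of_dvd hcop h2
    exact this
  omega

theorem eps_neg (hM : 2 < M) (a : (ZMod M)ˣ) : eps M (-1 * a) = - eps M a := by
  have h1 := two_val_ne hM a
  have hne : (a : ZMod M) ≠ 0 := by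
    intro h
    have hcop := ZMod.val_coe_unit_coprime a
    rw [h, ZMod.val_zero, Nat.coprime_zero_left] at hcop
    omega
  have h2 : ((-1 * a : (ZMod M)ˣ) : ZMod M).val = M - (a : ZMod M).val := by
    have : ((-1 * a : (ZMod M)ˣ) : ZMod M) = -(a : ZMod M) := by simp
    rw [this, ZMod.neg_val, if_neg hne]
  have h3 := ZMod.val_lt (a : ZMod M)
  unfold eps
  rw [h2]
  split_ifs <;> omega

theorem sum_eps {K : Type} [Field K] (hM : 2 < M) (χ : DirichletCharacter K M)
    (hodd : χ (-1) = -1) :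
    ∑ a : (ZMod M)ˣ, (eps M a : K) * χ (a : ZMod M) =
      2 * ∑ a ∈ halfSet M, χ (a : ZMod M) := by
  classical
  rw [← Finset.sum_filter_add_sum_filter_not (univ : Finset (ZMod M)ˣ)
    (fun a : (ZMod M)ˣ => 2 * (a : ZMod M).val < M)]
  have e1 : ∑ a ∈ (univ : Finset (ZMod M)ˣ).filter (fun a : (ZMod M)ˣ => 2 * (a : ZMod M).val < M),
      (eps M a : K) * χ (a : ZMod M) = ∑ a ∈ halfSet M, χ (a : ZMod M) := by
    refine Finset.sum_congr rfl fun a ha => ?_
    have : eps M a = 1 := if_pos (Finset.mem_filter.1 ha).2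
    rw [this, Int.cast_one, one_mul]
  have e2 : ∑ a ∈ (univ : Finset (ZMod M)ˣ).filter (fun a : (ZMod M)ˣ => ¬ 2 * (a : ZMod M).val < M),
      (eps M a : K) * χ (a : ZMod M) = ∑ a ∈ halfSet M, χ (a : ZMod M) := by
    refine Finset.sum_nbij' (fun a => -1 * a) (fun a => -1 * a) ?_ ?_ ?_ ?_ ?_
    · intro a ha
      have h1 : eps M a = -1 := if_neg (Finset.mem_filter.1 ha).2
      have h2 := eps_neg hM a
      rw [h1] at h2
      refine Finset.mem_filter.2 ⟨Finset.mem_univ _, ?_⟩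
      by_contra hcon
      have h3 : eps M (-1 * a) = -1 := if_neg hcon
      omega
    · intro a ha
      have h1 : eps M a = 1 := if_pos (Finset.mem_filter.1 ha).2
      have h2 := eps_neg hM a
      rw [h1] at h2
      refine Finset.mem_filter.2 ⟨Finset.mem_univ _, ?_⟩
      intro hcon
      have h3 : eps M (-1 * a) = 1 := if_pos hcon
      omega
    · intro a _
      simp
    · intro a _
      simp
    · intro a ha
      have h1 : eps M a = -1 := if_neg (Finset.mem_filter.1 ha).2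
      rw [h1]
      have h2 : ((-1 * a : (ZMod M)ˣ) : ZMod M) = -1 * (a : ZMod M) := by simp
      rw [h2, map_mul, hodd]
      simp
  rw [e1, e2, two_mul]

end eps

section main

variable {M q : ℕ} [NeZero M]

/-- the subgroup of solutions of `c ^ q = 1` -/
def Csub (M q : ℕ) : Subgroup (ZMod M)ˣ := (powMonoidHom q : (ZMod M)ˣ →* (ZMod M)ˣ).ker

theorem mem_Csub {c : (ZMod M)ˣ} : c ∈ Csub M q ↔ c ^ q = 1 := Iff.rfl

noncomputable instance : Fintype (Csub M q) := Fintype.ofFinite _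

variable (K : Type) [Field K] (h : {l // l ∈ M.primeFactors} → (ZMod M)ˣ)
  (hq : ∀ l, h l ^ q = 1) (hq2 : Even q)

/-- the elements of `C` on which the characters are required to be nontrivial -/
def PS (q : ℕ) (h : {l // l ∈ M.primeFactors} → (ZMod M)ˣ) : Set (Csub M q) :=
  {c | (c : (ZMod M)ˣ) = -1 ∨ ∃ l, (c : (ZMod M)ˣ) = h l}

/-- admissible characters of `C` -/
def W (q : ℕ) (h : {l // l ∈ M.primeFactors} → (ZMod M)ˣ) : Set (Csub M q →* Kˣ) :=
  {μ | ∀ c ∈ PS q h, μ c ≠ 1}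

/-- the Fourier coefficients of `ε` -/
noncomputable def coef (μ : Csub M q →* Kˣ) (b : (ZMod M)ˣ) : K :=
  ∑ c : Csub M q, (eps M (b * c) : K) * (μ c : K)

include hq2 in
theorem neg_one_mem : (-1 : (ZMod M)ˣ) ∈ Csub M q := by
  rw [mem_Csub]
  exact hq2.neg_one_pow

variable {K}

include hq2 in
theorem coef_even (hM : 2 < M) (h2 : (2 : K) ≠ 0) (μ : Csub M q →* Kˣ)
    (hμ : μ ⟨-1, neg_one_mem hq2⟩ = 1) (b : (ZMod M)ˣ) : coef K μ b = 0 := by
  have h1 : coef K μ b = - coef K μ b := by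
    conv_lhs => unfold coef
    rw [← Equiv.sum_comp (Equiv.mulLeft (⟨-1, neg_one_mem hq2⟩ : Csub M q))]
    unfold coef
    rw [← Finset.sum_neg_distrib]
    refine Finset.sum_congr rfl fun c _ => ?_
    simp only [Equiv.coe_mulLeft, Subgroup.coe_mul, map_mul, hμ, one_mul]
    have : b * (-1 * (c : (ZMod M)ˣ)) = -1 * (b * c) := by
      rw [mul_left_comm]
    rw [this, eps_neg hM]
    push_cast
    ring
  have h3 : (2 : K) * coef K μ b = 0 := by linear_combination h1
  exact (mul_eq_zero.1 h3).resolve_left h2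

/-- the integer matrix -/
def Fmat (q : ℕ) (h : {l // l ∈ M.primeFactors} → (ZMod M)ˣ) :
    Matrix (ZMod M)ˣ (Csub M q) ℤ :=
  Matrix.of fun b c => cube h (eps M) (b * c)

include hq hq2 in
theorem rank_Fmat [IsAlgClosed K] (hM : 2 < M) (h2 : (2 : K) ≠ 0)
    (hC : (Fintype.card (Csub M q) : K) ≠ 0) :
    ((Fmat q h).map (Int.cast : ℤ → K)).rank =
      Nat.card {μ : Csub M q →* Kˣ // μ ∈ W K q h ∧ ∃ b, coef K μ b ≠ 0} := by
  have e0 : (Fmat q h).map (Int.cast : ℤ → K) =
      Matrix.of fun (b : (ZMod M)ˣ) (c : Csub M q) =>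
        (fun g => (cube h (eps M) g : K)) (b * c) := rfl
  rw [e0]
  refine (rank_eq_card (Csub M q) K hC (fun g => (cube h (eps M) g : K))).trans ?_
  refine Nat.card_congr (Equiv.subtypeEquivRight fun μ => ?_)
  have e1 : ∀ b : (ZMod M)ˣ, ∑ c : Csub M q, (cube h (eps M) (b * c) : K) * (μ c : K) =
      (∏ l, (1 - ((μ ⟨h l, mem_Csub.2 (hq l)⟩ : Kˣ) : K)⁻¹)) * coef K μ b := fun b =>
    sum_cube h (eps M) (Csub M q) (fun l => mem_Csub.2 (hq l)) μ b
  simp only [e1]
  constructor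
  · rintro ⟨b, hb⟩
    have h3 := right_ne_zero_of_mul hb
    have h4 := left_ne_zero_of_mul hb
    rw [Finset.prod_ne_zero_iff] at h4
    refine ⟨?_, b, h3⟩
    rintro ⟨c, hc⟩ (hcP | ⟨l, hl⟩) h5
    · simp only at hcP
      subst hcP
      exact h3 (coef_even hq2 hM h2 μ h5 b)
    · simp only at hl
      subst hl
      apply h4 l (Finset.mem_univ _)
      rw [h5]
      simp
  · rintro ⟨hW, b, hb⟩
    refine ⟨b, mul_ne_zero ?_ hb⟩
    rw [Finset.prod_ne_zero_iff]
    intro l _ h5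
    apply hW ⟨h l, mem_Csub.2 (hq l)⟩ (Or.inr ⟨l, rfl⟩)
    rw [sub_eq_zero] at h5
    ext
    rw [Units.val_one]
    exact (inv_eq_one.1 h5.symm)

instance : Finite (Csub M q →* Kˣ) := by
  have h1 : Finite (Csub M q →* K) :=
    (linearIndependent_monoidHom (Csub M q) K).finite_of_isNoetherian
  refine Finite.of_injective (fun μ : Csub M q →* Kˣ => (Units.coeHom K).comp μ) ?_
  intro μ ν hμν
  ext c
  exact DFunLike.congr_fun hμν c

/-- an odd primitive extension of `μ` with a nonzero weighted sum of coefficients -/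
theorem exists_ext_complex (hM : 2 < M) (hq : ∀ l, h l ^ q = 1) (hq2 : Even q)
    (hprim : ∀ χ : DirichletCharacter ℂ M, χ.IsPrimitive ↔ ∀ l, χ.toUnitHom (h l) ≠ 1)
    (μ : Csub M q →* ℂˣ) (hμ : μ ∈ W ℂ q h) : ∃ χ : DirichletCharacter ℂ M, χ.IsPrimitive ∧
      ∑ b : (ZMod M)ˣ, χ (b : ZMod M) * coef ℂ μ b ≠ 0 := by
  obtain ⟨X, hX⟩ := exists_extend (Csub M q) ℂ (by
    have : Nat.card (ZMod M)ˣ ≠ 0 := Nat.card_pos.ne'
    exact_mod_cast this) μ
  have hXc : ∀ c : Csub M q, X c = μ c := fun c => DFunLike.congr_fun hX c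
  let χ : DirichletCharacter ℂ M := MulChar.ofUnitHom X
  have hχ : ∀ a : (ZMod M)ˣ, χ (a : ZMod M) = (X a : ℂ) := fun a => MulChar.ofUnitHom_coe X a
  have hχu : ∀ a : (ZMod M)ˣ, χ.toUnitHom a = X a := by
    intro a
    ext
    rw [MulChar.coe_toUnitHom, hχ]
  have hprimχ : χ.IsPrimitive := by
    rw [hprim]
    intro l
    rw [hχu]
    have := hXc ⟨h l, mem_Csub.2 (hq l)⟩
    simp only at this
    rw [this]
    exact hμ _ (Or.inr ⟨l, rfl⟩)
  have hodd : χ (-1) = -1 := by
    have h1 : χ (-1) = (X (-1) : ℂ) := by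
      have := hχ (-1)
      simpa using this
    rw [h1]
    have h2 := hXc ⟨-1, neg_one_mem hq2⟩
    simp only at h2
    have h3 : X (-1) ≠ 1 := by
      rw [h2]
      exact hμ _ (Or.inl rfl)
    have h4 : X (-1) ^ 2 = 1 := by rw [← map_pow]; simp
    have h5 : ((X (-1) : ℂˣ) : ℂ) ^ 2 = 1 := by
      rw [← Units.val_pow_eq_pow_val, h4, Units.val_one]
    rw [sq] at h5
    rcases mul_self_eq_one_iff.1 h5 with h6 | h6
    · exact absurd (Units.ext h6) h3
    · exact h6
  have hne := half_sum_ne_zero hM χ hprimχ hodd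
  refine ⟨χ, hprimχ, ?_⟩
  have h1 : ∑ b : (ZMod M)ˣ, χ (b : ZMod M) * coef ℂ μ b =
      (Fintype.card (Csub M q) : ℂ) * ∑ a : (ZMod M)ˣ, (eps M a : ℂ) * χ (a : ZMod M) := by
    unfold coef
    simp only [Finset.mul_sum]
    rw [Finset.sum_comm]
    have h2 : ∀ c : Csub M q, ∑ b : (ZMod M)ˣ,
        χ (b : ZMod M) * ((eps M (b * c) : ℂ) * (μ c : ℂ)) =
        ∑ a : (ZMod M)ˣ, (eps M a : ℂ) * χ (a : ZMod M) := by
      intro c
      rw [← Equiv.sum_comp (Equiv.mulRight (c : (ZMod M)ˣ))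
        (fun a : (ZMod M)ˣ => (eps M a : ℂ) * χ (a : ZMod M))]
      refine Finset.sum_congr rfl fun b _ => ?_
      rw [Equiv.coe_mulRight, hχ, hχ, map_mul, hXc, Units.val_mul]
      ring
    rw [Finset.sum_congr rfl fun c _ => h2 c, Finset.sum_const, Finset.card_univ, nsmul_eq_mul,
      Finset.mul_sum]
  rw [h1, sum_eps hM χ hodd]
  have h2 : (Fintype.card (Csub M q) : ℂ) ≠ 0 := by
    exact_mod_cast Fintype.card_ne_zero
  exact mul_ne_zero h2 (mul_ne_zero two_ne_zero hne)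

/-- over `ℂ` all admissible characters have a nonzero coefficient -/
theorem exists_coef_complex (hM : 2 < M) (hq : ∀ l, h l ^ q = 1) (hq2 : Even q)
    (hprim : ∀ χ : DirichletCharacter ℂ M, χ.IsPrimitive ↔ ∀ l, χ.toUnitHom (h l) ≠ 1)
    (μ : Csub M q →* ℂˣ) (hμ : μ ∈ W ℂ q h) : ∃ b, coef ℂ μ b ≠ 0 := by
  obtain ⟨χ, -, h1⟩ := exists_ext_complex h hM hq hq2 hprim μ hμ
  by_contra hcon
  push Not at hcon
  apply h1
  simp only [hcon, mul_zero, Finset.sum_const_zero]

end main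

section count

variable {M q : ℕ} [NeZero M] {k : Type} [Field k] [IsAlgClosed k]
  (h : {l // l ∈ M.primeFactors} → (ZMod M)ˣ)

/-- the admissible characters of `C` with all coefficients zero -/
def V (k : Type) [Field k] (q : ℕ) (h : {l // l ∈ M.primeFactors} → (ZMod M)ˣ) :
    Set (Csub M q →* kˣ) :=
  {μ | μ ∈ W k q h ∧ ∀ b, coef k μ b = 0}

/-- the main inequality on `C` -/
theorem pow_V_le {p : ℕ} [Fact p.Prime] [CharP k p] (hp2 : p ≠ 2) (hM : 2 < M)
    (hpG : ¬ p ∣ M.totient) (hq : ∀ l, h l ^ q = 1) (hq2 : Even q)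
    (hprim : ∀ χ : DirichletCharacter ℂ M, χ.IsPrimitive ↔ ∀ l, χ.toUnitHom (h l) ≠ 1) :
    p ^ (2 * Nat.card (V k q h)) ≤
      (Fintype.card (Csub M q) * 4 ^ M.primeFactors.card) ^ Nat.card (W k q h) := by
  have h2k : (2 : k) ≠ 0 := by
    intro h0
    have : ((2 : ℕ) : k) = 0 := by exact_mod_cast h0
    rw [CharP.cast_eq_zero_iff k p] at this
    exact hp2 ((Nat.prime_dvd_prime_iff_eq Fact.out Nat.prime_two).1 this)
  have hCdvd : Fintype.card (Csub M q) ∣ M.totient := by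
    rw [← ZMod.card_units_eq_totient, ← Nat.card_eq_fintype_card, ← Nat.card_eq_fintype_card]
    exact Subgroup.card_subgroup_dvd_card _
  have hCk : (Fintype.card (Csub M q) : k) ≠ 0 := by
    intro h0
    rw [CharP.cast_eq_zero_iff k p] at h0
    exact hpG (h0.trans hCdvd)
  have hCC : (Fintype.card (Csub M q) : ℂ) ≠ 0 := by exact_mod_cast Fintype.card_ne_zero
  -- ranks
  have rC : ((Fmat q h).map (Int.cast : ℤ → ℂ)).rank = Nat.card (W k q h) := by
    rw [rank_Fmat h hq hq2 hM two_ne_zero hCC]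
    have e1 : Nat.card {μ : Csub M q →* ℂˣ // μ ∈ W ℂ q h ∧ ∃ b, coef ℂ μ b ≠ 0} =
        Nat.card {μ : Csub M q →* ℂˣ // ∀ c ∈ PS q h, μ c ≠ 1} := by
      refine Nat.card_congr (Equiv.subtypeEquivRight fun μ => ?_)
      exact ⟨fun hμ => hμ.1, fun hμ => ⟨hμ, exists_coef_complex h hM hq hq2 hprim μ hμ⟩⟩
    rw [e1, card_hom_eq ℂ k (by rw [Nat.card_eq_fintype_card]; exact hCC)
      (by rw [Nat.card_eq_fintype_card]; exact hCk)]
    rfl
  have rk : ((Fmat q h).map (Int.cast : ℤ → k)).rank + Nat.card (V k q h) =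
      Nat.card (W k q h) := by
    rw [rank_Fmat h hq hq2 hM h2k hCk]
    have e1 := Set.ncard_inter_add_ncard_sdiff_eq_ncard (W k q h)
      {μ : Csub M q →* kˣ | ∃ b, coef k μ b ≠ 0} (Set.toFinite _)
    rw [← Nat.card_coe_set_eq, ← Nat.card_coe_set_eq, ← Nat.card_coe_set_eq] at e1
    rw [← e1]
    congr 1
    refine congrArg (fun s : Set (Csub M q →* kˣ) => Nat.card s) ?_
    ext μ
    constructor
    · rintro ⟨h1, h2⟩
      exact ⟨h1, fun ⟨b, hb⟩ => hb (h2 b)⟩
    · rintro ⟨h1, h2⟩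
      refine ⟨h1, fun b => ?_⟩
      by_contra hb
      exact h2 ⟨b, hb⟩
  have := rank_bound (Fmat q h) (p := p) k (Fintype.card (Csub M q) * 4 ^ M.primeFactors.card)
    (by
      intro b
      have h1 : ∀ c : Csub M q, Fmat q h b c ^ 2 ≤ (4 : ℤ) ^ M.primeFactors.card := by
        intro c
        have h3 := abs_cube_le h (eps M) abs_eps_le (b * c)
        have h4 : Fmat q h b c = cube h (eps M) (b * c) := rfl
        rw [h4, ← sq_abs]
        calc |cube h (eps M) (b * c)| ^ 2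
            ≤ (2 ^ Fintype.card {l // l ∈ M.primeFactors}) ^ 2 := by
              gcongr
          _ = _ := by
            rw [Fintype.card_coe, ← pow_mul, mul_comm, pow_mul]
            norm_num
      calc ∑ c : Csub M q, Fmat q h b c ^ 2 ≤ ∑ _c : Csub M q, (4 : ℤ) ^ M.primeFactors.card :=
            Finset.sum_le_sum fun c _ => h1 c
        _ = _ := by
          rw [Finset.sum_const, Finset.card_univ, nsmul_eq_mul]
          push_cast
          ring)
    (Nat.card (V k q h)) (by rw [rC, rk])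
  rw [rC] at this
  exact this

end count

section final

variable {p N r : ℕ} [hp : Fact p.Prime]

theorem half_abstract (hp2 : p ≠ 2) (hN : 0 < N) (hpN : ¬ p ∣ N) (hphi : ¬ p ∣ N.totient)
    (hr : 0 < r) (hr4 : 4 ∣ p ^ r - 1)
    (hrl : ∀ l : ℕ, l.Prime → l ∣ N → l * (l - 1) ∣ p ^ r - 1) (Q K : ℕ) [NeZero (N * p)]
    (main : ∀ h : {l // l ∈ (N * p).primeFactors} → (ZMod (N * p))ˣ,
      (∀ l, h l ^ (p ^ r - 1) = 1) →
      (∀ χ : DirichletCharacter ℂ (N * p), χ.IsPrimitive ↔ ∀ l, χ.toUnitHom (h l) ≠ 1) →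
      p ^ (2 * Nat.card (V (Fpbar p) (p ^ r - 1) h)) *
        Q ^ Nat.card (W (Fpbar p) (p ^ r - 1) h) ≤ K ^ Nat.card (W (Fpbar p) (p ^ r - 1) h)) :
    p ^ (2 * (badChar p N).ncard) * Q ^ (oddPrim p N).ncard ≤ K ^ (oddPrim p N).ncard := by
  have hpr := hp.out
  have hp3 : 3 ≤ p := by
    have := hpr.two_le
    omega
  have hM : 2 < N * p := by nlinarith
  set q := p ^ r - 1 with hqdef
  have hq2 : Even q := (even_iff_two_dvd.2 (dvd_trans (by norm_num) hr4))
  have hp1q : p - 1 ∣ q := by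
    rw [hqdef]
    have := Nat.sub_dvd_pow_sub_pow p 1 r
    rwa [one_pow] at this
  have hcopN : Nat.Coprime N p := ((Nat.Prime.coprime_iff_not_dvd hpr).2 hpN).symm
  have htot : ¬ p ∣ (N * p).totient := by
    rw [Nat.totient_mul hcopN, Nat.totient_prime hpr, hpr.dvd_mul]
    rintro (h1 | h1)
    · exact hphi h1
    · have := Nat.le_of_dvd (by omega) h1
      omega
  obtain ⟨h, hq, hprim⟩ := exists_gen (N * p) q (by
    intro l hl hlM
    rcases (Nat.Prime.dvd_mul hl).1 hlM with h1 | h1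
    · have h2 := hrl l hl h1
      exact ⟨(Dvd.intro_left _ rfl).trans h2, fun _ => (Dvd.intro _ rfl).trans h2⟩
    · have h2 : l = p := (Nat.prime_dvd_prime_iff_eq hl hpr).1 h1
      subst h2
      refine ⟨hp1q, fun h3 => ?_⟩
      exfalso
      apply hpN
      rw [sq] at h3
      exact Nat.dvd_of_mul_dvd_mul_right hpr.pos h3)
  have main := main h hq (hprim ℂ)
  have hGk : (Nat.card (ZMod (N * p))ˣ : Fpbar p) ≠ 0 := by
    rw [Nat.card_eq_fintype_card, ZMod.card_units_eq_totient]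
    intro h0
    rw [CharP.cast_eq_zero_iff (Fpbar p) p] at h0
    exact htot h0
  -- `oddPrim` is the set of characters restricting to `W`
  have h2k : (2 : Fpbar p) ≠ 0 := by
    intro h0
    have : ((2 : ℕ) : Fpbar p) = 0 := by exact_mod_cast h0
    rw [CharP.cast_eq_zero_iff (Fpbar p) p] at this
    exact hp2 ((Nat.prime_dvd_prime_iff_eq Fact.out Nat.prime_two).1 this)
  have hoddiff : ∀ χ : DirichletCharacter (Fpbar p) (N * p),
      χ (-1) = -1 ↔ χ.toUnitHom (-1) ≠ 1 := by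
    intro χ
    have e1 : ((χ.toUnitHom (-1) : (Fpbar p)ˣ) : Fpbar p) = χ (-1) := by
      rw [MulChar.coe_toUnitHom]
      simp
    constructor
    · intro h1 h2
      rw [h2, Units.val_one, h1] at e1
      apply h2k
      linear_combination e1
    · intro h1
      have h3 : χ (-1) * χ (-1) = 1 := by
        rw [← map_mul]
        simp
      rcases mul_self_eq_one_iff.1 h3 with h4 | h4
      · exfalso
        apply h1
        ext
        rw [e1, h4, Units.val_one]
      · exact h4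
  have hW : ∀ χ : DirichletCharacter (Fpbar p) (N * p), χ ∈ oddPrim p N ↔
      χ.toUnitHom.comp (Csub (N * p) q).subtype ∈ W (Fpbar p) q h := by
    intro χ
    constructor
    · rintro ⟨h1, h2⟩ ⟨c, hc⟩ (h3 | ⟨l, h3⟩)
      · simp only at h3
        subst h3
        exact (hoddiff χ).1 h2
      · simp only at h3
        subst h3
        exact (hprim (Fpbar p) χ).1 h1 l
    · intro h1
      refine ⟨(hprim (Fpbar p) χ).2 fun l => ?_, (hoddiff χ).2 ?_⟩
      · exact h1 ⟨h l, mem_Csub.2 (hq l)⟩ (Or.inr ⟨l, rfl⟩)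
      · exact h1 ⟨-1, neg_one_mem hq2⟩ (Or.inl rfl)
  have hV : ∀ χ : DirichletCharacter (Fpbar p) (N * p), χ ∈ badChar p N →
      χ.toUnitHom.comp (Csub (N * p) q).subtype ∈ V (Fpbar p) q h := by
    rintro χ ⟨h1, h2⟩
    refine ⟨(hW χ).1 h1, fun b => ?_⟩
    unfold EigenZero NoEigenHom at h2
    push Not at h2
    obtain ⟨φ, hφ, x₀, hx₀⟩ := h2
    have hev : (omega p N (Fpbar p) * χ.toUnitHom) (-1) = 1 := by
      ext
      rw [MonoidHom.mul_apply, Units.val_mul, Units.val_one]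
      have e1 : ((χ.toUnitHom (-1) : (Fpbar p)ˣ) : Fpbar p) = χ (-1) := by
        rw [MulChar.coe_toUnitHom]
        simp
      rw [e1, h1.2]
      simp [omega]
    have h3 := criterion hpr hp2 hN hpN hphi _ hev φ hφ x₀ hx₀
    have h4 : ∑ a ∈ halfSet (N * p), χ (a : ZMod (N * p)) = 0 := by
      rw [← h3]
      refine Finset.sum_congr rfl fun a _ => ?_
      rw [MonoidHom.mul_apply, inv_mul_cancel_left, MulChar.coe_toUnitHom]
    have h5 := avg hpr hp2 hN hpN hphi hr hr4 hrl χ h1.1 h1.2 h4 b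
    rw [← h5]
    unfold coef
    classical
    refine Finset.sum_bij (fun c _ => (c : (ZMod (N * p))ˣ)) ?_ ?_ ?_ ?_
    · intro c _
      exact Finset.mem_filter.2 ⟨Finset.mem_univ _, mem_Csub.1 c.2⟩
    · intro c _ d _ hcd
      exact Subtype.ext hcd
    · intro c hc
      exact ⟨⟨c, mem_Csub.2 (Finset.mem_filter.1 hc).2⟩, Finset.mem_univ _, rfl⟩
    · intro c _
      rw [MonoidHom.comp_apply, Subgroup.coe_subtype, MulChar.coe_toUnitHom]
  -- counting
  have cA : (oddPrim p N).ncard = Nat.card (W (Fpbar p) q h) * (Csub (N * p) q).index := by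
    rw [← card_restrict (Csub (N * p) q) (Fpbar p) hGk (W (Fpbar p) q h), ← Nat.card_coe_set_eq]
    refine Nat.card_congr (Equiv.subtypeEquiv MulChar.equivToUnitHom fun χ => ?_)
    exact hW χ
  have cB : (badChar p N).ncard ≤ Nat.card (V (Fpbar p) q h) * (Csub (N * p) q).index := by
    have : Finite {χ : (ZMod (N * p))ˣ →* (Fpbar p)ˣ //
      χ.comp (Csub (N * p) q).subtype ∈ V (Fpbar p) q h} := inferInstance
    rw [← card_restrict (Csub (N * p) q) (Fpbar p) hGk (V (Fpbar p) q h), ← Nat.card_coe_set_eq]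
    refine Nat.card_le_card_of_injective (fun χ : badChar p N =>
      (⟨MulChar.toUnitHom χ.1, hV χ.1 χ.2⟩ : {χ : (ZMod (N * p))ˣ →* (Fpbar p)ˣ //
      χ.comp (Csub (N * p) q).subtype ∈ V (Fpbar p) q h})) ?_
    intro χ ψ hχψ
    apply Subtype.ext
    have := congrArg Subtype.val hχψ
    exact (MulChar.equivToUnitHom).injective this
  calc p ^ (2 * (badChar p N).ncard) * Q ^ (oddPrim p N).ncard
      ≤ p ^ (2 * (Nat.card (V (Fpbar p) q h) * (Csub (N * p) q).index)) *
          Q ^ (oddPrim p N).ncard :=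
        Nat.mul_le_mul_right _ (Nat.pow_le_pow_right hpr.pos (Nat.mul_le_mul_left _ cB))
    _ = (p ^ (2 * Nat.card (V (Fpbar p) q h)) * Q ^ Nat.card (W (Fpbar p) q h)) ^
          (Csub (N * p) q).index := by
        rw [mul_pow, ← pow_mul, ← pow_mul, ← cA, mul_assoc]
    _ ≤ (K ^ Nat.card (W (Fpbar p) q h)) ^ (Csub (N * p) q).index :=
        Nat.pow_le_pow_left main _
    _ = _ := by
        rw [← pow_mul, ← cA]

theorem half_main (hp2 : p ≠ 2) (hN : 0 < N) (hpN : ¬ p ∣ N) (hphi : ¬ p ∣ N.totient)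
    (hr : 0 < r) (hr4 : 4 ∣ p ^ r - 1)
    (hrl : ∀ l : ℕ, l.Prime → l ∣ N → l * (l - 1) ∣ p ^ r - 1) :
    p ^ (2 * (badChar p N).ncard) ≤
      (4 ^ (N.primeFactors.card + 1) * (p - 1) *
        Nat.card {h : (ZMod N)ˣ // h ^ (p ^ r - 1) = 1}) ^ (oddPrim p N).ncard := by
  have hpr := hp.out
  have hne : NeZero (N * p) := ⟨(Nat.mul_pos hN hpr.pos).ne'⟩
  have hp3 : 3 ≤ p := by
    have := hpr.two_le
    omega
  have hM : 2 < N * p := by nlinarith
  have hq2 : Even (p ^ r - 1) := (even_iff_two_dvd.2 (dvd_trans (by norm_num) hr4))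
  have hp1q : p - 1 ∣ p ^ r - 1 := by
    have := Nat.sub_dvd_pow_sub_pow p 1 r
    rwa [one_pow] at this
  have hcopN : Nat.Coprime N p := ((Nat.Prime.coprime_iff_not_dvd hpr).2 hpN).symm
  have htot : ¬ p ∣ (N * p).totient := by
    rw [Nat.totient_mul hcopN, Nat.totient_prime hpr, hpr.dvd_mul]
    rintro (h1 | h1)
    · exact hphi h1
    · have := Nat.le_of_dvd (by omega) h1
      omega
  have h1 := half_abstract hp2 hN hpN hphi hr hr4 hrl 1
    (4 ^ (N.primeFactors.card + 1) * (p - 1) *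
        Nat.card {h : (ZMod N)ˣ // h ^ (p ^ r - 1) = 1}) (fun h hq hprim => by
      have main := pow_V_le (k := Fpbar p) (p := p) h hp2 hM htot hq hq2 hprim
      have cC : Fintype.card (Csub (N * p) (p ^ r - 1)) =
          (p - 1) * Nat.card {h : (ZMod N)ˣ // h ^ (p ^ r - 1) = 1} := by
        rw [← card_split hpr hN.ne' hpN hp1q, ← Nat.card_eq_fintype_card]
        rfl
      have cP : (N * p).primeFactors.card = N.primeFactors.card + 1 := by
        rw [Nat.Coprime.primeFactors_mul hcopN, Finset.card_union_of_disjoint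
          (Nat.Coprime.disjoint_primeFactors hcopN), Nat.Prime.primeFactors hpr,
          Finset.card_singleton]
      rw [cC, cP] at main
      rw [one_pow, mul_one]
      refine main.trans (le_of_eq ?_)
      congr 1
      ring)
  rwa [one_pow, mul_one] at h1

end final

end Pool.Agent.GP.Half
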