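import Pool.Agent.GP.Statement

/-!
# Eigenspaces of the unramified Iwasawa module

`Δ = Gal(ℚ(ζ_{N p^∞}) / ℚ_cyc) ≅ (ℤ/Np)ˣ` (`ℚ_cyc` the cyclotomic `ℤ_p`-extension of `ℚ`).
-/

namespace Pool.Agent.GP

/-- The automorphism `g` of `L ⊇ ℚ_∞ = ℚ(ζ_{N p^∞})` restricts to the element of
`Δ = Gal(ℚ_∞/ℚ_cyc) ≅ (ℤ/Np)ˣ` given by `a`: it acts on the `N p`-th roots of unity by raising to
the power `a`, and `g ^ (p - 1)` is the identity on all `p`-power roots of unity. -/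
def LiftsDelta (p N : ℕ) {L : Type} [Field L] (g : L ≃+* L) (a : (ZMod (N * p))ˣ) : Prop :=
  (∀ z : L, z ^ (N * p) = 1 → g z = z ^ (a : ZMod (N * p)).val) ∧
    ∀ (n : ℕ) (z : L), z ^ (p ^ n) = 1 → g^[p - 1] z = z

/-- `φ : Gal(L/F) → k` is a homomorphism to the additive group of `k`, continuous for the Krull
topology: it is zero on the automorphisms fixing some finite set `s ⊆ L`. -/
def ContHom {F L k : Type} [Field F] [Field L] [Algebra F L] [Field k]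
    (φ : (L ≃ₐ[F] L) → k) : Prop :=
  (∀ x y, φ (x * y) = φ x + φ y) ∧
    ∃ s : Finset L, ∀ x : L ≃ₐ[F] L, (∀ z ∈ s, x z = z) → φ x = 0

/-- `y = g x g⁻¹` -/
def ConjBy {F L : Type} [Field F] [Field L] [Algebra F L] (g : L ≃+* L) (x y : L ≃ₐ[F] L) : Prop :=
  ∀ z, y (g z) = g (x z)

/-- `φ : Gal(L/F) → k` is a continuous homomorphism on which `Δ` acts by the character `θ`:
`φ(g x g⁻¹) = θ(g) φ(x)`. -/
def EigenHom (p N : ℕ) {F L k : Type} [Field F] [Field L] [Algebra F L] [Field k]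
    (θ : (ZMod (N * p))ˣ →* kˣ) (φ : (L ≃ₐ[F] L) → k) : Prop :=
  ContHom φ ∧ ∀ (g : L ≃+* L) (a : (ZMod (N * p))ˣ), LiftsDelta p N g a →
    ∀ x y : L ≃ₐ[F] L, ConjBy g x y → φ y = θ a * φ x

/-- The only `φ : Gal(L/F) → k` as in `EigenHom` is zero. -/
def NoEigenHom (p N : ℕ) (F L : Type) {k : Type} [Field F] [Field L] [Algebra F L] [Field k]
    (θ : (ZMod (N * p))ˣ →* kˣ) : Prop :=
  ∀ φ : (L ≃ₐ[F] L) → k, EigenHom p N θ φ → ∀ x, φ x = 0

/-- `X_θ = 0` for `X = Gal(L/ℚ_∞)`, `L` the maximal unramified abelian pro-`p` extension of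
`ℚ_∞ = ℚ(ζ_{N p^∞})`: the only continuous homomorphism `φ : X → k` with `φ(g x g⁻¹) = θ(g) φ(x)`
for `g ∈ Δ` is zero. -/
def EigenZero {k : Type} [Field k] (p N : ℕ) (θ : (ZMod (N * p))ˣ →* kˣ) : Prop :=
  NoEigenHom p N (Qinf p N) (maxUnram p (Qinf p N)) θ

/-- an algebraic closure of `𝔽_p` -/
abbrev Fpbar (p : ℕ) [Fact p.Prime] : Type := AlgebraicClosure (ZMod p)

/-- The character `ω` giving the action on the `p`-th roots of unity:
`(ℤ/Np)ˣ → (ℤ/p)ˣ = 𝔽_pˣ ⊆ kˣ`. -/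
noncomputable def omega (p N : ℕ) (k : Type) [Field k] [CharP k p] : (ZMod (N * p))ˣ →* kˣ :=
  Units.map (ZMod.castHom (Dvd.intro_left N rfl : p ∣ N * p) k : ZMod (N * p) →* k)

/-- the odd primitive Dirichlet characters modulo `N p` with values in `𝔽̄_p` -/
def oddPrim (p N : ℕ) [Fact p.Prime] : Set (DirichletCharacter (Fpbar p) (N * p)) :=
  {χ | χ.IsPrimitive ∧ χ (-1) = -1}

/-- those `χ` for which the eigenspace `X_θ`, `θ = ω χ`, is not zero -/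
def badChar (p N : ℕ) [Fact p.Prime] : Set (DirichletCharacter (Fpbar p) (N * p)) :=
  {χ | χ ∈ oddPrim p N ∧ ¬ EigenZero p N (omega p N (Fpbar p) * χ.toUnitHom)}

end Pool.Agent.GP
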