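import Pool.Agent.GP.Desc.BaseChange
import Pool.Agent.GP.Half.Defs

/-!
# Composita of unramified abelian `p`-extensions
-/

open IntermediateField NumberField

namespace Pool.Agent.GP.Half

open Pool.Agent.GP

section

variable {F : IntermediateField ℚ ℂ}

theorem sup_isUnramifiedAbelianP {p : ℕ} (hp : p.Prime) {M₁ M₂ : IntermediateField F ℂ}
    (h₁ : IsUnramifiedAbelianP p M₁) (h₂ : IsUnramifiedAbelianP p M₂) :
    IsUnramifiedAbelianP p (M₁ ⊔ M₂) := by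
  have hfin₁ := h₁.finite
  have hgal₁ := h₁.galois
  have hfin₂ := h₂.finite
  have hgal₂ := h₂.galois
  set M : IntermediateField F ℂ := M₁ ⊔ M₂ with hM
  have hfin : FiniteDimensional F M := IntermediateField.finiteDimensional_sup M₁ M₂
  have hnorm : Normal F M := IntermediateField.normal_sup F ℂ M₁ M₂
  have hgal : IsGalois F M := ⟨⟩
  have hs₁ : ∀ z : ℂ, z ∈ M₁ → z ∈ M := fun z hz => (le_sup_left : M₁ ≤ M) hz
  have hs₂ : ∀ z : ℂ, z ∈ M₂ → z ∈ M := fun z hz => (le_sup_right : M₂ ≤ M) hz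
  choose r₁ hr₁ using fun σ : M ≃ₐ[F] M => BaseChangeAux.exists_res le_rfl M₁ M hs₁ σ
  choose r₂ hr₂ using fun σ : M ≃ₐ[F] M => BaseChangeAux.exists_res le_rfl M₂ M hs₂ σ
  have hr₁' : ∀ (σ : M ≃ₐ[F] M) (b : M₁),
      σ ⟨b, hs₁ b b.2⟩ = ⟨(r₁ σ b : M₁), hs₁ _ (r₁ σ b).2⟩ :=
    fun σ b => Subtype.ext (hr₁ σ b).symm
  have hr₂' : ∀ (σ : M ≃ₐ[F] M) (b : M₂),
      σ ⟨b, hs₂ b b.2⟩ = ⟨(r₂ σ b : M₂), hs₂ _ (r₂ σ b).2⟩ :=
    fun σ b => Subtype.ext (hr₂ σ b).symm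
  have hm₁ : ∀ σ τ : M ≃ₐ[F] M, r₁ (σ * τ) = r₁ σ * r₁ τ := by
    intro σ τ
    apply AlgEquiv.ext
    intro b
    apply Subtype.ext
    rw [hr₁, AlgEquiv.mul_apply, AlgEquiv.mul_apply, hr₁' τ b, hr₁ σ (r₁ τ b)]
  have hm₂ : ∀ σ τ : M ≃ₐ[F] M, r₂ (σ * τ) = r₂ σ * r₂ τ := by
    intro σ τ
    apply AlgEquiv.ext
    intro b
    apply Subtype.ext
    rw [hr₂, AlgEquiv.mul_apply, AlgEquiv.mul_apply, hr₂' τ b, hr₂ σ (r₂ τ b)]
  have hMadj : M = IntermediateField.adjoin F ((M₁ : Set ℂ) ∪ (M₂ : Set ℂ)) := by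
    rw [IntermediateField.adjoin_union, IntermediateField.adjoin_self,
      IntermediateField.adjoin_self]
  have hinj : Function.Injective fun σ : M ≃ₐ[F] M => (r₁ σ, r₂ σ) := by
    intro σ τ h
    have e₁ : r₁ σ = r₁ τ := congrArg Prod.fst h
    have e₂ : r₂ σ = r₂ τ := congrArg Prod.snd h
    have key : ∀ z : ℂ, z ∈ IntermediateField.adjoin F ((M₁ : Set ℂ) ∪ (M₂ : Set ℂ)) →
        ∀ hz : z ∈ M, σ ⟨z, hz⟩ = τ ⟨z, hz⟩ := by
      intro z hz
      induction hz using IntermediateField.adjoin_induction with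
      | mem x hx =>
        intro hz
        rcases hx with hx | hx
        · have h3 := hr₁' σ ⟨x, hx⟩
          have h4 := hr₁' τ ⟨x, hx⟩
          rw [e₁] at h3
          exact h3.trans h4.symm
        · have h3 := hr₂' σ ⟨x, hx⟩
          have h4 := hr₂' τ ⟨x, hx⟩
          rw [e₂] at h3
          exact h3.trans h4.symm
      | algebraMap x => exact fun hz => (σ.commutes x).trans (τ.commutes x).symm
      | add x y hx hy ihx ihy =>
        intro hz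
        rw [← hMadj] at hx hy
        have e : (⟨x + y, hz⟩ : M) = ⟨x, hx⟩ + ⟨y, hy⟩ := rfl
        rw [e, map_add, map_add, ihx hx, ihy hy]
      | inv x hx ih =>
        intro hz
        rw [← hMadj] at hx
        have e : (⟨x⁻¹, hz⟩ : M) = (⟨x, hx⟩ : M)⁻¹ := rfl
        rw [e, map_inv₀, map_inv₀, ih hx]
      | mul x y hx hy ihx ihy =>
        intro hz
        rw [← hMadj] at hx hy
        have e : (⟨x * y, hz⟩ : M) = ⟨x, hx⟩ * ⟨y, hy⟩ := rfl
        rw [e, map_mul, map_mul, ihx hx, ihy hy]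
    apply AlgEquiv.ext
    rintro ⟨z, hz⟩
    refine key z ?_ hz
    rw [← hMadj]
    exact hz
  refine ⟨hfin, hgal, ?_, ?_, ?_⟩
  · intro σ τ
    apply hinj
    simp only [hm₁, hm₂, h₁.comm, h₂.comm]
  · obtain ⟨n₁, hn₁⟩ := h₁.degree
    obtain ⟨n₂, hn₂⟩ := h₂.degree
    let φ : (M ≃ₐ[F] M) →* (M₁ ≃ₐ[F] M₁) × (M₂ ≃ₐ[F] M₂) :=
      MonoidHom.mk' (fun σ => (r₁ σ, r₂ σ)) (fun σ τ => by
        simp only [hm₁, hm₂, Prod.mk_mul_mk])
    have h3 : Nat.card (M ≃ₐ[F] M) ∣ Nat.card ((M₁ ≃ₐ[F] M₁) × (M₂ ≃ₐ[F] M₂)) :=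
      Subgroup.card_dvd_of_injective φ hinj
    rw [Nat.card_prod, IsGalois.card_aut_eq_finrank, IsGalois.card_aut_eq_finrank,
      IsGalois.card_aut_eq_finrank, hn₁, hn₂, ← pow_add] at h3
    obtain ⟨k, _, hk⟩ := (Nat.dvd_prime_pow hp).1 h3
    exact ⟨k, hk⟩
  · intro P hP σ hσ
    have a₁ : r₁ σ = 1 := by
      have hmax : (P.comap (BaseChangeAux.incl M₁ M hs₁).toRingHom).IsMaximal :=
        Ideal.isMaximal_comap_of_isIntegral_of_isMaximal' _ (BaseChangeAux.incl_integral M₁ M hs₁) P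
      refine h₁.unram _ hmax (r₁ σ) ?_
      intro x y hxy
      rw [Ideal.mem_comap]
      have h2 := hσ (BaseChangeAux.incl M₁ M hs₁ x) (BaseChangeAux.incl M₁ M hs₁ y) ?_
      · change BaseChangeAux.incl M₁ M hs₁ (y - x) ∈ P
        rw [map_sub]
        exact h2
      · rw [BaseChangeAux.incl_coe, BaseChangeAux.incl_coe]
        apply Subtype.ext
        change ((y : M₁) : ℂ) = _
        rw [hxy, hr₁]
    have a₂ : r₂ σ = 1 := by
      have hmax : (P.comap (BaseChangeAux.incl M₂ M hs₂).toRingHom).IsMaximal :=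
        Ideal.isMaximal_comap_of_isIntegral_of_isMaximal' _ (BaseChangeAux.incl_integral M₂ M hs₂) P
      refine h₂.unram _ hmax (r₂ σ) ?_
      intro x y hxy
      rw [Ideal.mem_comap]
      have h2 := hσ (BaseChangeAux.incl M₂ M hs₂ x) (BaseChangeAux.incl M₂ M hs₂ y) ?_
      · change BaseChangeAux.incl M₂ M hs₂ (y - x) ∈ P
        rw [map_sub]
        exact h2
      · rw [BaseChangeAux.incl_coe, BaseChangeAux.incl_coe]
        apply Subtype.ext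
        change ((y : M₂) : ℂ) = _
        rw [hxy, hr₂]
    have one₁ : r₁ 1 = 1 := by
      apply AlgEquiv.ext
      intro b
      exact Subtype.ext (hr₁ 1 b)
    have one₂ : r₂ 1 = 1 := by
      apply AlgEquiv.ext
      intro b
      exact Subtype.ext (hr₂ 1 b)
    apply hinj
    simp only [a₁, a₂, one₁, one₂]

theorem bot_isUnramifiedAbelianP (p : ℕ) : IsUnramifiedAbelianP p (⊥ : IntermediateField F ℂ) := by
  have hsub : ∀ σ : (⊥ : IntermediateField F ℂ) ≃ₐ[F] (⊥ : IntermediateField F ℂ), σ = 1 := by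
    intro σ
    apply AlgEquiv.ext
    rintro ⟨z, hz⟩
    obtain ⟨w, rfl⟩ := IntermediateField.mem_bot.1 hz
    exact σ.commutes w
  refine ⟨inferInstance, inferInstance, fun σ τ => by rw [hsub σ, hsub τ], ⟨0, ?_⟩,
    fun P _ σ _ => hsub σ⟩
  rw [pow_zero]
  exact IntermediateField.finrank_bot

end

section

variable {p N : ℕ}

theorem exists_field_mem (hp : p.Prime) {z : ℂ} (hz : z ∈ Lmax p N) :
    ∃ M : IntermediateField (Qinf p N) ℂ, IsUnramifiedAbelianP p M ∧ z ∈ M := by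
  rw [Lmax_eq_adjoin] at hz
  induction hz using IntermediateField.adjoin_induction with
  | mem x hx => exact hx
  | algebraMap x => exact ⟨⊥, bot_isUnramifiedAbelianP p, IntermediateField.algebraMap_mem _ x⟩
  | add x y hx hy ihx ihy =>
    obtain ⟨M₁, h₁, hx₁⟩ := ihx
    obtain ⟨M₂, h₂, hy₂⟩ := ihy
    exact ⟨M₁ ⊔ M₂, sup_isUnramifiedAbelianP hp h₁ h₂,
      add_mem ((le_sup_left : M₁ ≤ M₁ ⊔ M₂) hx₁) ((le_sup_right : M₂ ≤ M₁ ⊔ M₂) hy₂)⟩
  | inv x hx ih =>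
    obtain ⟨M₁, h₁, hx₁⟩ := ih
    exact ⟨M₁, h₁, inv_mem hx₁⟩
  | mul x y hx hy ihx ihy =>
    obtain ⟨M₁, h₁, hx₁⟩ := ihx
    obtain ⟨M₂, h₂, hy₂⟩ := ihy
    exact ⟨M₁ ⊔ M₂, sup_isUnramifiedAbelianP hp h₁ h₂,
      mul_mem ((le_sup_left : M₁ ≤ M₁ ⊔ M₂) hx₁) ((le_sup_right : M₂ ≤ M₁ ⊔ M₂) hy₂)⟩

theorem exists_field_finset (hp : p.Prime) (s : Finset (Lmax p N)) :
    ∃ M : IntermediateField (Qinf p N) ℂ, IsUnramifiedAbelianP p M ∧
      ∀ z ∈ s, (z : ℂ) ∈ M := by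
  classical
  induction s using Finset.induction_on with
  | empty => exact ⟨⊥, bot_isUnramifiedAbelianP p, fun z hz => absurd hz (Finset.notMem_empty z)⟩
  | insert a s ha ih =>
    obtain ⟨M₁, h₁, hM₁⟩ := ih
    obtain ⟨M₂, h₂, hM₂⟩ := exists_field_mem hp a.2
    refine ⟨M₁ ⊔ M₂, sup_isUnramifiedAbelianP hp h₁ h₂, fun z hz => ?_⟩
    rcases Finset.mem_insert.1 hz with rfl | hz
    · exact (le_sup_right : M₂ ≤ M₁ ⊔ M₂) hM₂
    · exact (le_sup_left : M₁ ≤ M₁ ⊔ M₂) (hM₁ z hz)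

end

end Pool.Agent.GP.Half
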