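import Pool.Agent.GP.Half.CountW
import Pool.Agent.GP.Half.Avg

/-!
# Module Count2: a small shift changes few values of `ε`

`M = N p`, `ε = eps M`.  If `b' = b + p y` in `ℤ/M` and `y h` has a small representative `z` modulo
`N` for every `h` with `h ^ q = 1` (`|z| Q ≤ N`), then `ε(b c) ≠ ε(b' c)` for few `c` with `c^q = 1`.

PROOF.  Map `c` to its image `h` in `(ℤ/N)ˣ` (`h ^ q = 1`); it suffices to bound each fibre by
`2 (p/Q + 1)` (`Finset.card_le_mul_card_image` or similar).  Fix `h` and `z`.  For `c` in the fibre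
put `x = (b c).val ∈ [0, M)`.  `x` determines `c`; `x mod N` is fixed (`b h`).  In `ℤ/M`:
`b' c = b c + p y c = b c + p z` (as `z ≡ y c mod N`).  Put `D = |p z|`, `D Q ≤ M` so `D ≤ M`.
* `z ≥ 0`: `(b' c).val = (x + D) mod M`.  If `2 x < M` and `2 ((x + D) mod M) ≥ M` then
  `M/2 - D ≤ x < M/2`; if `2 x ≥ M` and `2 ((x+D) mod M) < M` then `M - D ≤ x < M`.
* `z < 0`: `(b' c).val = (x - D) mod M`: `2x < M` and then `x < D`, i.e. `0 ≤ x < D`; or `2x ≥ M` and
  then `M/2 ≤ x < M/2 + D`.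
So `x` lies in one of two half-open intervals of length `D`; each contains at most
`D/N + 1 ≤ p/Q + 1` (floor division) integers in the given class modulo `N`
(a half-open interval of length `D` contains at most `⌈D/N⌉ ≤ ⌊D/N⌋ + 1` of them; `D/N ≤ p/Q`
because `D Q ≤ N p`).
-/

open Finset

namespace Pool.Agent.GP.Half

/-- A half-open interval of length `D` meets a residue class modulo `N` in at most `D / N + 1`
points. -/
theorem card_interval_class {N D u r : ℕ} (hN : 0 < N) (S : Finset ℕ)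
    (hS : ∀ x ∈ S, u ≤ x ∧ x < u + D ∧ x % N = r) : S.card ≤ D / N + 1 := by
  rw [← Finset.card_range (D / N + 1)]
  apply Finset.card_le_card_of_injOn (fun x => (x - u) / N)
  · intro x hx
    obtain ⟨h1, h2, -⟩ := hS x hx
    rw [Finset.mem_coe, Finset.mem_range]
    have : (x - u) / N ≤ D / N := Nat.div_le_div_right (by omega)
    show (x - u) / N < D / N + 1
    omega
  · intro x hx x' hx' hxx
    obtain ⟨h1, h2, h3⟩ := hS x hx
    obtain ⟨h1', h2', h3'⟩ := hS x' hx'
    have hxx' : (x - u) / N = (x' - u) / N := hxx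
    have h4 : x ≡ x' [MOD N] := h3.trans h3'.symm
    have h5 : x - u ≡ x' - u [MOD N] := by
      apply Nat.ModEq.add_right_cancel' u
      rw [Nat.sub_add_cancel h1, Nat.sub_add_cancel h1']
      exact h4
    have h6 : x - u = x' - u := by
      rw [← Nat.div_add_mod (x - u) N, ← Nat.div_add_mod (x' - u) N, hxx', h5]
    omega

/-- The position of a value of `x` at which the shift by `D` changes the half. -/
theorem half_shift_pos {M D x x' : ℕ} (hD : D ≤ M) (hx : x < M) (hx' : x' < M)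
    (h : x' = x + D ∨ x' + M = x + D) (hne : ¬ (2 * x < M ↔ 2 * x' < M)) :
    ((M + 1) / 2 - D ≤ x ∧ x < (M + 1) / 2 - D + D) ∨ (M - D ≤ x ∧ x < M - D + D) := by
  by_cases h1 : 2 * x < M
  · have h2 : ¬ 2 * x' < M := fun h3 => hne ⟨fun _ => h3, fun _ => h1⟩
    left
    omega
  · have h2 : 2 * x' < M := by
      by_contra h3
      exact hne ⟨fun h => absurd h h1, fun h => absurd h h3⟩
    right
    omega

theorem half_shift_neg {M D x x' : ℕ} (hD : D ≤ M) (hx : x < M) (hx' : x' < M)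
    (h : x = x' + D ∨ x + M = x' + D) (hne : ¬ (2 * x < M ↔ 2 * x' < M)) :
    (0 ≤ x ∧ x < 0 + D) ∨ ((M + 1) / 2 ≤ x ∧ x < (M + 1) / 2 + D) := by
  by_cases h1 : 2 * x < M
  · have h2 : ¬ 2 * x' < M := fun h3 => hne ⟨fun _ => h3, fun _ => h1⟩
    left
    omega
  · have h2 : 2 * x' < M := by
      by_contra h3
      exact hne ⟨fun h => absurd h h1, fun h => absurd h h3⟩
    right
    omega

theorem val_eq_of_cast {M : ℕ} [NeZero M] (a b : ZMod M) (D : ℕ) (hD : D ≤ M)
    (h : b = a + (D : ZMod M)) : b.val = a.val + D ∨ b.val + M = a.val + D := by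
  have hM : 0 < M := Nat.pos_of_ne_zero (NeZero.ne M)
  have ha := ZMod.val_lt a
  have hb := ZMod.val_lt b
  have h1 : ((a.val + D : ℕ) : ZMod M) = ((b.val : ℕ) : ZMod M) := by
    rw [Nat.cast_add, ZMod.natCast_zmod_val, ZMod.natCast_zmod_val, h]
  rw [ZMod.natCast_eq_natCast_iff] at h1
  have h2 : (a.val + D) % M = b.val := by
    have h3 : (a.val + D) % M = b.val % M := h1
    rw [h3, Nat.mod_eq_of_lt hb]
  rcases Nat.lt_or_ge (a.val + D) M with h3 | h3
  · left
    rw [Nat.mod_eq_of_lt h3] at h2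
    exact h2.symm
  · right
    have h4 : (a.val + D) % M = (a.val + D - M) % M := by
      rw [Nat.mod_eq_sub_mod h3]
    rcases Nat.lt_or_ge (a.val + D - M) M with h5 | h5
    · rw [h4, Nat.mod_eq_of_lt h5] at h2
      omega
    · omega

theorem card_fibre_le {M N p Q y : ℕ} [NeZero M] (hM : M = N * p) (hNM : N ∣ M)
    (hN : 0 < N) (hQ : 0 < Q)
    (b b' : (ZMod M)ˣ) (hb' : (b' : ZMod M) = b + p * y)
    (h : (ZMod N)ˣ) (z : ℤ) (hz : (z : ZMod N) = y * (h : ZMod N)) (hzQ : z.natAbs * Q ≤ N)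
    (T : Finset (ZMod M)ˣ)
    (hT : ∀ c ∈ T, eps M (b * c) ≠ eps M (b' * c) ∧ ZMod.unitsMap hNM c = h) :
    T.card ≤ 2 * (p / Q + 1) := by
  classical
  have : NeZero N := ⟨hN.ne'⟩
  set D : ℕ := p * z.natAbs with hD
  have hDQ : D * Q ≤ M := by
    calc D * Q = p * (z.natAbs * Q) := by rw [hD, mul_assoc]
      _ ≤ p * N := Nat.mul_le_mul_left p hzQ
      _ = M := by rw [hM, mul_comm]
  have hDM : D ≤ M := le_trans (Nat.le_mul_of_pos_right D hQ) hDQ
  have hDN : D / N ≤ p / Q := by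
    rw [Nat.le_div_iff_mul_le hQ]
    have h1 : D / N * N ≤ D := Nat.div_mul_le_self D N
    have h2 : D / N * N * Q ≤ N * p := hM ▸ le_trans (Nat.mul_le_mul_right Q h1) hDQ
    have h3 : N * (D / N * Q) ≤ N * p := by
      calc N * (D / N * Q) = D / N * N * Q := by ring
        _ ≤ N * p := h2
    exact Nat.le_of_mul_le_mul_left h3 hN
  -- the relation between `b c` and `b' c`
  have hrel : ∀ c ∈ T, ((b' * c : (ZMod M)ˣ) : ZMod M) =
      ((b * c : (ZMod M)ˣ) : ZMod M) + ((p * z : ℤ) : ZMod M) := by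
    intro c hc
    have h1 := (hT c hc).2
    have h2 : (h : ZMod N) = (((c : ZMod M).val : ℕ) : ZMod N) := by
      rw [← h1, ZMod.unitsMap_def, Units.coe_map]
      show (ZMod.castHom hNM (ZMod N)) (c : ZMod M) = _
      rw [ZMod.castHom_apply, ZMod.cast_eq_val]
    have h3 : ((z - y * (c : ZMod M).val : ℤ) : ZMod N) = 0 := by
      push_cast
      rw [hz, h2]
      ring
    rw [ZMod.intCast_zmod_eq_zero_iff_dvd] at h3
    have h4 : ((M : ℕ) : ℤ) ∣ p * (z - y * (c : ZMod M).val) := by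
      have h6 : ((M : ℕ) : ℤ) = p * N := by
        rw [hM]
        push_cast
        ring
      have h7 := mul_dvd_mul_left (p : ℤ) h3
      rw [← h6] at h7
      exact h7
    rw [← ZMod.intCast_zmod_eq_zero_iff_dvd] at h4
    have h5 : ((p : ℕ) : ZMod M) * (y : ZMod M) * (c : ZMod M) = ((p * z : ℤ) : ZMod M) := by
      push_cast at h4 ⊢
      rw [ZMod.natCast_zmod_val] at h4
      linear_combination -h4
    rw [Units.val_mul, Units.val_mul, hb', ← h5]
    ring
  have hmod : ∀ c ∈ T, ((b * c : (ZMod M)ˣ) : ZMod M).val % N =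
      ((ZMod.unitsMap hNM b : ZMod N) * (h : ZMod N)).val := by
    intro c hc
    rw [← (hT c hc).2, ← Units.val_mul, ← map_mul, ZMod.unitsMap_def, Units.coe_map]
    show _ = ((ZMod.castHom hNM (ZMod N)) ((b * c : (ZMod M)ˣ) : ZMod M) : ZMod N).val
    rw [ZMod.castHom_apply, ZMod.cast_eq_val, ZMod.val_natCast]
  have hepsne : ∀ c ∈ T, ¬ (2 * ((b * c : (ZMod M)ˣ) : ZMod M).val < M ↔
      2 * ((b' * c : (ZMod M)ˣ) : ZMod M).val < M) := by
    intro c hc hiff
    apply (hT c hc).1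
    unfold eps
    by_cases h1 : 2 * ((b * c : (ZMod M)ˣ) : ZMod M).val < M
    · rw [if_pos h1, if_pos (hiff.1 h1)]
    · rw [if_neg h1, if_neg (fun h2 => h1 (hiff.2 h2))]
  -- two intervals
  obtain ⟨u₁, u₂, hu⟩ : ∃ u₁ u₂ : ℕ, ∀ c ∈ T,
      (u₁ ≤ ((b * c : (ZMod M)ˣ) : ZMod M).val ∧
        ((b * c : (ZMod M)ˣ) : ZMod M).val < u₁ + D) ∨
      (u₂ ≤ ((b * c : (ZMod M)ˣ) : ZMod M).val ∧
        ((b * c : (ZMod M)ˣ) : ZMod M).val < u₂ + D) := by
    rcases le_or_gt 0 z with hz0 | hz0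
    · refine ⟨(M + 1) / 2 - D, M - D, fun c hc => ?_⟩
      apply half_shift_pos hDM (ZMod.val_lt _) (ZMod.val_lt _) _ (hepsne c hc)
      apply val_eq_of_cast _ _ D hDM
      rw [hrel c hc]
      congr 1
      have : (p * z : ℤ) = ((D : ℕ) : ℤ) := by
        rw [hD]
        push_cast
        rw [abs_of_nonneg hz0]
      rw [this, Int.cast_natCast]
    · refine ⟨0, (M + 1) / 2, fun c hc => ?_⟩
      apply half_shift_neg hDM (ZMod.val_lt _) (ZMod.val_lt _) _ (hepsne c hc)
      apply val_eq_of_cast _ _ D hDM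
      rw [hrel c hc]
      have : (p * z : ℤ) = - ((D : ℕ) : ℤ) := by
        rw [hD]
        push_cast
        rw [abs_of_neg hz0]
        ring
      rw [this, Int.cast_neg, Int.cast_natCast]
      ring
  -- split `T`
  have hinj : Set.InjOn (fun c : (ZMod M)ˣ => ((b * c : (ZMod M)ˣ) : ZMod M).val) T := by
    intro c _ c' _ hcc
    have h1 : ((b * c : (ZMod M)ˣ) : ZMod M) = ((b * c' : (ZMod M)ˣ) : ZMod M) :=
      ZMod.val_injective M hcc
    exact mul_left_cancel (Units.ext h1)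
  rw [← Finset.card_image_of_injOn hinj]
  set I := T.image (fun c : (ZMod M)ˣ => ((b * c : (ZMod M)ˣ) : ZMod M).val) with hI
  have hI1 : ((I.filter fun x => u₁ ≤ x ∧ x < u₁ + D)).card ≤ D / N + 1 := by
    apply card_interval_class (u := u₁)
      (r := ((ZMod.unitsMap hNM b : ZMod N) * (h : ZMod N)).val) hN
    intro x hx
    rw [Finset.mem_filter, hI, Finset.mem_image] at hx
    obtain ⟨⟨c, hc, rfl⟩, h1, h2⟩ := hx
    exact ⟨h1, h2, hmod c hc⟩
  have hI2 : ((I.filter fun x => ¬ (u₁ ≤ x ∧ x < u₁ + D))).card ≤ D / N + 1 := by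
    apply card_interval_class (u := u₂)
      (r := ((ZMod.unitsMap hNM b : ZMod N) * (h : ZMod N)).val) hN
    intro x hx
    rw [Finset.mem_filter, hI, Finset.mem_image] at hx
    obtain ⟨⟨c, hc, rfl⟩, h1⟩ := hx
    rcases hu c hc with h2 | h2
    · exact absurd h2 h1
    · exact ⟨h2.1, h2.2, hmod c hc⟩
  have h3 := Finset.card_filter_add_card_filter_not (s := I) (fun x => u₁ ≤ x ∧ x < u₁ + D)
  omega

theorem card_shift_le {N p q Q y : ℕ} [NeZero (N * p)] (hp : p.Prime) (hN : 0 < N)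
    (hpN : ¬ p ∣ N) (hQ : 0 < Q)
    (hz : ∀ h : (ZMod N)ˣ, h ^ q = 1 → ∃ z : ℤ, (z : ZMod N) = y * (h : ZMod N) ∧
      z.natAbs * Q ≤ N)
    (b b' : (ZMod (N * p))ˣ) (hb' : (b' : ZMod (N * p)) = b + p * y) :
    ((univ : Finset (ZMod (N * p))ˣ).filter fun c =>
      c ^ q = 1 ∧ eps (N * p) (b * c) ≠ eps (N * p) (b' * c)).card ≤
      Nat.card {h : (ZMod N)ˣ // h ^ q = 1} * (2 * (p / Q + 1)) := by
  classical
  have : NeZero N := ⟨hN.ne'⟩
  have h1 : Nat.card {h : (ZMod N)ˣ // h ^ q = 1} =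
      ((univ : Finset (ZMod N)ˣ).filter fun h => h ^ q = 1).card := by
    rw [Nat.card_eq_fintype_card, Fintype.card_subtype]
  rw [h1, mul_comm (Finset.card _)]
  apply Finset.card_le_mul_card_image_of_maps_to
    (f := ZMod.unitsMap (Dvd.intro p rfl : N ∣ N * p))
  · intro c hc
    rw [Finset.mem_filter] at hc ⊢
    refine ⟨Finset.mem_univ _, ?_⟩
    rw [← map_pow, hc.2.1, map_one]
  · intro h hh
    rw [Finset.mem_filter] at hh
    obtain ⟨z, hz1, hz2⟩ := hz h hh.2
    apply card_fibre_le rfl (Dvd.intro p rfl : N ∣ N * p) hN hQ b b' hb' h z hz1 hz2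
    intro c hc
    rw [Finset.mem_filter, Finset.mem_filter] at hc
    exact ⟨hc.1.2.2, hc.2⟩

end Pool.Agent.GP.Half
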