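import Pool.Agent.GP.Desc.Surject
import Pool.Agent.GP.Half.Defs

/-!
# The Kummer generator attached to a homomorphism `X → 𝔽_p`
-/

open IntermediateField NumberField

namespace Pool.Agent.GP.Half

open Pool.Agent.GP

section

variable {p N : ℕ}

/-- `a ↦ ζ ^ a` on `ℤ/p` -/
noncomputable def zpowHom {F : Type*} [Field F] (p : ℕ) [NeZero p] (ζ : Fˣ) (hζ : ζ ^ p = 1) :
    Multiplicative (ZMod p) →* Fˣ where
  toFun a := ζ ^ (Multiplicative.toAdd a).val
  map_one' := by simp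
  map_mul' a b := by
    have key : ∀ c : ℕ, ζ ^ c = ζ ^ (c % p) := by
      intro c
      conv_lhs => rw [← Nat.mod_add_div c p]
      rw [pow_add, pow_mul, hζ, one_pow, mul_one]
    rw [toAdd_mul, ZMod.val_add, ← key, pow_add]

theorem zpowHom_apply {F : Type*} [Field F] (p : ℕ) [NeZero p] (ζ : Fˣ) (hζ : ζ ^ p = 1)
    (a : ZMod p) : zpowHom p ζ hζ (Multiplicative.ofAdd a) = ζ ^ a.val := rfl

/-- every automorphism of `M` extends to `L` -/
theorem exists_extend_Lmax (hp : p.Prime) (hN : 0 < N) {M : IntermediateField (Qinf p N) ℂ}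
    (hM : IsUnramifiedAbelianP p M) (σ : M ≃ₐ[Qinf p N] M) :
    ∃ x : Lmax p N ≃ₐ[Qinf p N] Lmax p N,
      ∀ b : M, ((x ⟨b, le_Lmax hM b.2⟩ : Lmax p N) : ℂ) = ((σ b : M) : ℂ) := by
  have hgal := Lmax_isGalois hp hN
  let _ : Algebra ℚ (Qinf p N) := DivisionRing.toRatAlgebra
  have hst : IsScalarTower ℚ (Qinf p N) (Lmax p N) := IsScalarTower.of_algebraMap_eq (fun r => by
    simp)
  have hgal' : IsGalois (Qinf p N) (Lmax p N) :=
    IsGalois.tower_top_of_isGalois ℚ (Qinf p N) (Lmax p N)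
  let _ : Algebra M (Lmax p N) := (IntermediateField.inclusion (le_Lmax hM)).toAlgebra
  have hst2 : IsScalarTower (Qinf p N) M (Lmax p N) := IsScalarTower.of_algebraMap_eq fun x => rfl
  refine ⟨σ.liftNormal (Lmax p N), fun b => ?_⟩
  have h1 := σ.liftNormal_commutes (Lmax p N) b
  exact congrArg (fun t : Lmax p N => (t : ℂ)) h1

theorem exists_kummer (hp : p.Prime) (hN : 0 < N) {M : IntermediateField (Qinf p N) ℂ}
    (hM : IsUnramifiedAbelianP p M) (e : (Lmax p N ≃ₐ[Qinf p N] Lmax p N) → ZMod p)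
    (hadd : ∀ x y, e (x * y) = e x + e y)
    (hcont : ∀ x : Lmax p N ≃ₐ[Qinf p N] Lmax p N,
      (∀ z : Lmax p N, (z : ℂ) ∈ M → x z = z) → e x = 0)
    {ζ : ℂ} (hζ : ζ ^ p = 1) :
    ∃ b : M, b ≠ 0 ∧ ∀ x : Lmax p N ≃ₐ[Qinf p N] Lmax p N,
      ((x ⟨b, le_Lmax hM b.2⟩ : Lmax p N) : ℂ) = ζ ^ (e x).val * b := by
  have := hM.finite
  have := hM.galois
  have hne : NeZero p := ⟨hp.ne_zero⟩
  have hζ0 : ζ ≠ 0 := by
    rintro rfl
    rw [zero_pow hp.ne_zero] at hζ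
    exact zero_ne_one hζ
  have hζQ : ζ ∈ Qinf p N := root_mem_Qinf 1 (by rw [pow_one]; exact hζ)
  let u : (Qinf p N)ˣ := Units.mk0 ⟨ζ, hζQ⟩ (fun h => hζ0 (congrArg Subtype.val h))
  have hu : u ^ p = 1 := by
    apply Units.ext
    rw [Units.val_pow_eq_pow_val, Units.val_one]
    exact Subtype.ext hζ
  choose lift hlift using exists_extend_Lmax hp hN hM
  have hmul : ∀ x y : Lmax p N ≃ₐ[Qinf p N] Lmax p N,
      (∀ z : Lmax p N, (z : ℂ) ∈ M → x z = y z) → e x = e y := by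
    intro x y h
    have h1 : e (y⁻¹ * x) = 0 := by
      apply hcont
      intro z hz
      rw [AlgEquiv.mul_apply, h z hz, ← AlgEquiv.mul_apply, inv_mul_cancel, AlgEquiv.one_apply]
    have h2 := hadd y (y⁻¹ * x)
    rw [mul_inv_cancel_left, h1, add_zero] at h2
    exact h2
  have hL : ∀ (σ : M ≃ₐ[Qinf p N] M) (z : Lmax p N) (hz : (z : ℂ) ∈ M),
      lift σ z = ⟨(σ ⟨z, hz⟩ : M), le_Lmax hM (σ ⟨z, hz⟩).2⟩ := by
    intro σ z hz
    apply Subtype.ext
    exact hlift σ ⟨z, hz⟩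
  have hadd' : ∀ σ τ : M ≃ₐ[Qinf p N] M, e (lift (σ * τ)) = e (lift σ) + e (lift τ) := by
    intro σ τ
    rw [← hadd]
    apply hmul
    intro z hz
    rw [AlgEquiv.mul_apply, hL (σ * τ) z hz, hL τ z hz, hL σ _ (τ ⟨z, hz⟩).2]
    rfl
  let χ : (M ≃ₐ[Qinf p N] M) →* (Qinf p N)ˣ :=
    { toFun := fun σ => zpowHom p u hu (Multiplicative.ofAdd (e (lift σ)))
      map_one' := by
        have h1 : e (lift 1) = 0 := by
          have := hadd' 1 1
          rw [one_mul] at this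
          exact left_eq_add.1 this
        rw [h1]
        exact map_one _
      map_mul' := fun σ τ => by
        rw [hadd', ofAdd_add, map_mul] }
  obtain ⟨b, hb, hb2⟩ := KummerAux.exists_resolvent χ
  refine ⟨b, hb, fun x => ?_⟩
  obtain ⟨τ, hτ⟩ := exists_restrict hM x
  have h1 : e (lift τ) = e x := by
    apply hmul
    intro z hz
    rw [hL τ z hz]
    apply Subtype.ext
    exact hτ ⟨z, hz⟩
  rw [← hτ b, hb2 τ]
  have h2 : χ τ = u ^ (e x).val := by
    change zpowHom p u hu (Multiplicative.ofAdd (e (lift τ))) = _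
    rw [h1]
    rfl
  rw [h2, Algebra.smul_def]
  rfl

end

end Pool.Agent.GP.Half
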