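import Pool.Agent.GP.SubLevel

/-!
# The half sum of an odd character of level `N p` at level `N p ^ m`
-/

open Finset

namespace Pool.Agent.GP.Half

open Pool.Agent.GP

section

variable {K : Type} [Field K]

theorem sum_halfSet_range {M : ℕ} [NeZero M] (G : ℕ → K)
    (hG : ∀ d, ¬ Nat.Coprime d M → G d = 0) :
    ∑ a ∈ halfSet M, G (a : ZMod M).val = ∑ d ∈ range ((M + 1) / 2), G d := by
  have hM0 : 0 < M := Nat.pos_of_ne_zero (NeZero.ne M)
  refine Finset.sum_of_injOn (fun a : (ZMod M)ˣ => (a : ZMod M).val) ?_ ?_ ?_ ?_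
  · intro a _ b _ hab
    exact Units.ext (ZMod.val_injective _ hab)
  · intro a ha
    have h1 := (Finset.mem_filter.1 (Finset.mem_coe.1 ha)).2
    simp only [Finset.coe_range, Set.mem_Iio]
    omega
  · intro d hd hd'
    refine hG d fun hcop => hd' ?_
    have h0 := Finset.mem_range.1 hd
    have h2 : 2 * d < M := by omega
    have h1 : d < M := by omega
    refine ⟨ZMod.unitOfCoprime d hcop, ?_, ?_⟩
    · refine Finset.mem_coe.2 (Finset.mem_filter.2 ⟨Finset.mem_univ _, ?_⟩)
      rw [ZMod.coe_unitOfCoprime, ZMod.val_natCast_of_lt h1]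
      exact h2
    · simp only [ZMod.coe_unitOfCoprime]
      exact ZMod.val_natCast_of_lt h1
  · intro a _
    rfl

theorem sum_period_zero (h2 : (2 : K) ≠ 0) {M : ℕ} (hM : 0 < M) (G : ℕ → K) (h0 : G 0 = 0)
    (hneg : ∀ d, d ≤ M → G (M - d) = - G d) : ∑ d ∈ range M, G d = 0 := by
  obtain ⟨n, rfl⟩ : ∃ n, M = n + 1 := ⟨M - 1, by omega⟩
  have h1 : ∑ d ∈ range (n + 1), G d = ∑ d ∈ range n, G (d + 1) := by
    rw [Finset.sum_range_succ', h0, add_zero]
  have h3 : ∑ d ∈ range n, G (d + 1) = ∑ d ∈ range n, - G (d + 1) := by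
    rw [← Finset.sum_range_reflect]
    refine Finset.sum_congr rfl fun d hd => ?_
    have hd' := Finset.mem_range.1 hd
    rw [← hneg (d + 1) (by omega)]
    congr 1
    omega
  rw [h1]
  rw [Finset.sum_neg_distrib] at h3
  have h4 : (2 : K) * ∑ d ∈ range n, G (d + 1) = 0 := by linear_combination h3
  exact (mul_eq_zero.1 h4).resolve_left h2

theorem sum_halfSet_level (h2 : (2 : K) ≠ 0) {p N m : ℕ} (hp : p.Prime) (hp2 : p ≠ 2)
    (hm : 1 ≤ m) [NeZero (N * p)] [NeZero (N * p ^ m)] (hdvd : N * p ∣ N * p ^ m)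
    (ψ : (ZMod (N * p))ˣ →* K) (hodd : ψ (-1) = -1) :
    ∑ a ∈ halfSet (N * p ^ m), ψ (ZMod.unitsMap hdvd a) = ∑ d ∈ halfSet (N * p), ψ d := by
  classical
  have hM0 : 0 < N * p := Nat.pos_of_ne_zero (NeZero.ne (N * p))
  have hM1 : 1 < N * p := by
    have hN0 : 0 < N := Nat.pos_of_mul_pos_right hM0
    have := hp.two_le
    nlinarith
  let G : ℕ → K := fun d => if h : Nat.Coprime d (N * p) then ψ (ZMod.unitOfCoprime d h) else 0
  have hG0 : ∀ d, ¬ Nat.Coprime d (N * p) → G d = 0 := fun d h => dif_neg h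
  have hG1 : ∀ d (h : Nat.Coprime d (N * p)), G d = ψ (ZMod.unitOfCoprime d h) :=
    fun d h => dif_pos h
  have hcop : ∀ d, Nat.Coprime d (N * p ^ m) ↔ Nat.Coprime d (N * p) := by
    intro d
    rw [Nat.coprime_mul_iff_right, Nat.coprime_mul_iff_right, Nat.coprime_pow_right_iff hm]
  have hper : ∀ d, G (d + N * p) = G d := by
    intro d
    by_cases h : Nat.Coprime d (N * p)
    · have h' : Nat.Coprime (d + N * p) (N * p) := by simpa using h
      rw [hG1 _ h, hG1 _ h']
      congr 1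
      ext
      rw [ZMod.coe_unitOfCoprime, ZMod.coe_unitOfCoprime, Nat.cast_add, ZMod.natCast_self,
        add_zero]
    · have h' : ¬ Nat.Coprime (d + N * p) (N * p) := by simpa using h
      rw [hG0 _ h, hG0 _ h']
  have hneg : ∀ d, d ≤ N * p → G (N * p - d) = - G d := by
    intro d hd
    by_cases h : Nat.Coprime d (N * p)
    · have h' : Nat.Coprime (N * p - d) (N * p) := (Nat.coprime_self_sub_left hd).2 h
      rw [hG1 _ h, hG1 _ h']
      have e1 : ZMod.unitOfCoprime (N * p - d) h' = -1 * ZMod.unitOfCoprime d h := by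
        ext
        rw [ZMod.coe_unitOfCoprime, Nat.cast_sub hd, ZMod.natCast_self, zero_sub]
        simp
      rw [e1, map_mul, hodd, neg_one_mul]
    · have h' : ¬ Nat.Coprime (N * p - d) (N * p) := fun h3 =>
        h ((Nat.coprime_self_sub_left hd).1 h3)
      rw [hG0 _ h, hG0 _ h', neg_zero]
  have hG00 : G 0 = 0 := hG0 0 (by
    rw [Nat.coprime_zero_left]
    omega)
  have hfull := sum_period_zero h2 hM0 G hG00 hneg
  have hperm : ∀ t d, G (N * p * t + d) = G d := by
    intro t
    induction t with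
    | zero => intro d; simp
    | succ t ih =>
      intro d
      rw [show N * p * (t + 1) + d = (N * p * t + d) + N * p by ring, hper, ih]
  have hfullt : ∀ t, ∑ d ∈ range (N * p * t), G d = 0 := by
    intro t
    induction t with
    | zero => simp
    | succ t ih =>
      rw [show N * p * (t + 1) = N * p * t + N * p by ring, Finset.sum_range_add, ih, zero_add]
      rw [← hfull]
      exact Finset.sum_congr rfl fun d _ => hperm t d
  have e1 : ∑ a ∈ halfSet (N * p ^ m), ψ (ZMod.unitsMap hdvd a) =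
      ∑ a ∈ halfSet (N * p ^ m), G (a : ZMod (N * p ^ m)).val := by
    refine Finset.sum_congr rfl fun a _ => ?_
    have h3 := ZMod.val_coe_unit_coprime a
    rw [hG1 _ ((hcop _).1 h3)]
    congr 1
    ext
    rw [ZMod.unitsMap_val, ZMod.coe_unitOfCoprime, ZMod.cast_eq_val]
  have e2 : ∑ d ∈ halfSet (N * p), ψ d = ∑ d ∈ halfSet (N * p), G (d : ZMod (N * p)).val := by
    refine Finset.sum_congr rfl fun a _ => ?_
    have h3 := ZMod.val_coe_unit_coprime a
    rw [hG1 _ h3]
    congr 1
    ext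
    rw [ZMod.coe_unitOfCoprime, ZMod.natCast_zmod_val]
  rw [e1, e2, sum_halfSet_range G (fun d h => hG0 d (fun h' => h ((hcop d).2 h'))),
    sum_halfSet_range G hG0]
  obtain ⟨t, ht⟩ : Odd (p ^ (m - 1)) := (hp.odd_of_ne_two hp2).pow
  have h5 : N * p ^ m = N * p * (2 * t + 1) := by
    rw [← ht, mul_assoc, ← pow_succ', Nat.sub_add_cancel hm]
  have h6 : (N * p ^ m + 1) / 2 = N * p * t + (N * p + 1) / 2 := by
    rw [h5]
    have : N * p * (2 * t + 1) + 1 = (N * p + 1) + 2 * (N * p * t) := by ring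
    rw [this, Nat.add_mul_div_left _ _ (by norm_num), add_comm]
  rw [h6, Finset.sum_range_add, hfullt, zero_add]
  exact Finset.sum_congr rfl fun d _ => hperm t d

end

end Pool.Agent.GP.Half
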