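import Pool.Agent.GP.Half.Teich
import Pool.Agent.GP.Half.Eig
import Pool.Agent.GP.Half.AnnRel
import Pool.Agent.GP.Half.LevelSum
import Pool.Agent.GP.Half.Compositum

/-!
# Module Criterion (helper82): Kummer theory + Stickelberger for one eigenspace
-/

open IntermediateField NumberField

namespace Pool.Agent.GP.Half

open Pool.Agent.GP

section

variable {p N : ℕ}

open IsCyclotomicExtension.Rat in
/-- an automorphism of `L` acting on the `M`-th roots of unity by `a` restricts to `σ_a` -/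
theorem ringAut_eq {m : ℕ} [NeZero (N * p ^ m)] [NumberField (Lev (N * p ^ m))]
    [IsCyclotomicExtension {N * p ^ m} ℚ (Lev (N * p ^ m))] (g : Lmax p N ≃+* Lmax p N)
    (a : (ZMod (N * p ^ m))ˣ)
    (hg : ∀ z : Lmax p N, z ^ (N * p ^ m) = 1 → g z = z ^ (a : ZMod (N * p ^ m)).val)
    (z : Lev (N * p ^ m)) (hz : (z : ℂ) ∈ Lmax p N) :
    ((g ⟨z, hz⟩ : Lmax p N) : ℂ) =
      (((galEquivZMod (N * p ^ m) (Lev (N * p ^ m))).symm a z : Lev (N * p ^ m)) : ℂ) := by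
  obtain ⟨σ, hσ⟩ := ringAut_lev m g
  have h1 : σ = (galEquivZMod (N * p ^ m) (Lev (N * p ^ m))).symm a := by
    rw [MulEquiv.eq_symm_apply]
    have key : (Lev (N * p ^ m)).val.comp (σ : Lev (N * p ^ m) →ₐ[ℚ] Lev (N * p ^ m)) =
        (Lev (N * p ^ m)).val.comp
          (((galEquivZMod (N * p ^ m) (Lev (N * p ^ m))).symm a :
            Lev (N * p ^ m) ≃ₐ[ℚ] Lev (N * p ^ m)) : Lev (N * p ^ m) →ₐ[ℚ] Lev (N * p ^ m)) := by
      apply lev_hom_ext
      intro w hw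
      have e1 := hσ w
      have e2 := galEquivZMod_apply_of_pow_eq (N * p ^ m) (Lev (N * p ^ m))
        ((galEquivZMod (N * p ^ m) (Lev (N * p ^ m))).symm a) hw
      rw [MulEquiv.apply_symm_apply] at e2
      have hwL : (⟨w, lev_le_Lmax m w.2⟩ : Lmax p N) ^ (N * p ^ m) = 1 :=
        Subtype.ext (congrArg (fun t : Lev (N * p ^ m) => (t : ℂ)) hw)
      have e3 := congrArg (fun t : Lmax p N => (t : ℂ)) (hg _ hwL)
      have e4 := congrArg (fun t : Lev (N * p ^ m) => (t : ℂ)) e2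
      exact e1.trans (e3.trans e4.symm)
    have h2 : σ = (galEquivZMod (N * p ^ m) (Lev (N * p ^ m))).symm a := by
      ext w
      exact congrArg Subtype.val (Subtype.ext (DFunLike.congr_fun key w) :
        σ w = (galEquivZMod (N * p ^ m) (Lev (N * p ^ m))).symm a w)
    rw [h2, MulEquiv.apply_symm_apply]
  rw [← h1]
  exact (hσ z).symm

theorem mem_Qinf_of_fixed (hp : p.Prime) (hN : 0 < N) (η : Lmax p N)
    (h : ∀ x : Lmax p N ≃ₐ[Qinf p N] Lmax p N, x η = η) : (η : ℂ) ∈ Qinf p N := by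
  have hgal := Lmax_isGalois hp hN
  let _ : Algebra ℚ (Qinf p N) := DivisionRing.toRatAlgebra
  have hst : IsScalarTower ℚ (Qinf p N) (Lmax p N) := IsScalarTower.of_algebraMap_eq (fun r => by
    simp)
  have hgal' : IsGalois (Qinf p N) (Lmax p N) :=
    IsGalois.tower_top_of_isGalois ℚ (Qinf p N) (Lmax p N)
  obtain ⟨y, hy⟩ := (InfiniteGalois.mem_range_algebraMap_iff_fixed η).2 h
  rw [← hy]
  exact y.2

/-- `x' = g⁻¹ x g` -/
theorem exists_conj_aut (hp : p.Prime) (hN : 0 < N) (x : Lmax p N ≃ₐ[Qinf p N] Lmax p N)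
    (g : Lmax p N ≃+* Lmax p N) :
    ∃ x' : Lmax p N ≃ₐ[Qinf p N] Lmax p N, ∀ z, x (g z) = g (x' z) := by
  refine ⟨conjAut hp hN x g.symm, fun z => ?_⟩
  rw [conjAut_apply, RingEquiv.symm_symm, RingEquiv.apply_symm_apply]

/-- complex conjugation on `L` -/
noncomputable def cL (p N : ℕ) : Lmax p N ≃+* Lmax p N := conjL (fun _ hz => conj_mem_Lmax hz)

theorem cL_coe (z : Lmax p N) : ((cL p N z : Lmax p N) : ℂ) = starRingEnd ℂ z := rfl

theorem cL_cL (z : Lmax p N) : cL p N (cL p N z) = z := conjL_conjL _ z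

theorem cL_root {M : ℕ} (hM : M ≠ 0) (z : Lmax p N) (hz : z ^ M = 1) : cL p N z * z = 1 := by
  apply Subtype.ext
  have h1 : (z : ℂ) ^ M = 1 := congrArg (fun t : Lmax p N => (t : ℂ)) hz
  have h2 := conj_root hM h1
  rw [mul_comm] at h2
  exact h2

theorem cL_liftsDelta (hp : p.Prime) (hp2 : p ≠ 2) (hN : 0 < N) [NeZero (N * p)] :
    LiftsDelta p N (cL p N) (-1) := by
  have hM : 2 < N * p := by
    have := hp.two_le
    have : 3 ≤ p := by omega
    nlinarith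
  refine ⟨fun z hz => ?_, fun n z _ => ?_⟩
  · have h1 := cL_root (by omega) z hz
    have hz0 : z ≠ 0 := right_ne_zero_of_mul_eq_one h1
    have h2 : ((-1 : (ZMod (N * p))ˣ) : ZMod (N * p)).val = N * p - 1 := by
      have h3 : ((-1 : (ZMod (N * p))ˣ) : ZMod (N * p)) = -1 := by simp
      have : Fact (1 < N * p) := ⟨by omega⟩
      rw [h3, ZMod.neg_val, if_neg one_ne_zero, ZMod.val_one]
    rw [h2]
    apply mul_right_cancel₀ hz0
    rw [h1, ← pow_succ, Nat.sub_add_cancel (by omega), hz]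
  · obtain ⟨t, ht⟩ : Even (p - 1) := (hp.even_sub_one hp2)
    rw [ht, ← two_mul, Function.iterate_mul]
    have h1 : (cL p N)^[2] = id := by
      funext w
      exact cL_cL w
    rw [h1, Function.iterate_id, id]

theorem exists_add_functional {k : Type} [Field k] [Fact p.Prime] [CharP k p] {t : k}
    (ht : t ≠ 0) : ∃ lam : k →+ ZMod p, lam t ≠ 0 := by
  let _ : Algebra (ZMod p) k := ZMod.algebra k p
  by_contra hcon
  push Not at hcon
  apply ht
  rw [← Module.forall_dual_apply_eq_zero_iff (ZMod p)]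
  intro f
  exact hcon f.toAddMonoidHom

theorem lam_mul {k : Type} [Field k] [Fact p.Prime] [CharP k p] (lam : k →+ ZMod p) (n : ℕ)
    (t : k) : lam ((n : k) * t) = (n : ZMod p) * lam t := by
  rw [← nsmul_eq_mul, map_nsmul, nsmul_eq_mul]

theorem exists_bm [hpF : Fact p.Prime] (hp2 : p ≠ 2) (hN : 0 < N) [NeZero (N * p)]
    {k : Type} [Field k] [CharP k p] {θ : (ZMod (N * p))ˣ →* kˣ} (heven : θ (-1) = 1)
    {φ : (Lmax p N ≃ₐ[Qinf p N] Lmax p N) → k} (hφ : EigenHom p N θ φ)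
    (lam : k →+ ZMod p) :
    ∃ (ξ : (Lmax p N)ˣ) (hξ : ξ ^ p = 1) (n m : ℕ) (B : Lev (N * p ^ (m + 1)))
      (bm : Lmax p N), IsPrimitiveRoot ξ p ∧ bm ≠ 0 ∧ (B : ℂ) = (bm : ℂ) ^ (p ^ n) ∧
      (B : ℂ) * starRingEnd ℂ B = 1 ∧ IdealPow (p ^ n) B ∧
      ∀ x, x bm = ((zpowHom p ξ hξ (Multiplicative.ofAdd (lam (φ x))) : (Lmax p N)ˣ) :
        Lmax p N) * bm := by
  have hp := hpF.out
  have hne : NeZero p := ⟨hp.ne_zero⟩
  have hζ := Complex.isPrimitiveRoot_exp p hp.ne_zero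
  set ζ := Complex.exp (2 * Real.pi * Complex.I / p) with hζdef
  obtain ⟨sfin, hcont'⟩ := hφ.1.2
  obtain ⟨M, hM, hMs⟩ := exists_field_finset hp sfin
  have hcont : ∀ x : Lmax p N ≃ₐ[Qinf p N] Lmax p N,
      (∀ z : Lmax p N, (z : ℂ) ∈ M → x z = z) → φ x = 0 :=
    fun x hx => hcont' x fun z hz => hx z (hMs z hz)
  obtain ⟨b, hb0, hb⟩ := exists_kummer hp hN hM (fun x => lam (φ x))
    (fun x y => by rw [hφ.1.1, map_add])
    (fun x hx => by rw [hcont x hx, map_zero]) hζ.pow_eq_one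
  have hζQ : ζ ∈ Qinf p N := root_mem_Qinf 1 (by rw [pow_one]; exact hζ.pow_eq_one)
  have heig : ∀ σ : M ≃ₐ[Qinf p N] M, ∃ z : Qinf p N, σ b = z • b := by
    intro σ
    obtain ⟨x, hx⟩ := exists_extend_Lmax hp hN hM σ
    refine ⟨⟨ζ, hζQ⟩ ^ (lam (φ x)).val, ?_⟩
    apply Subtype.ext
    rw [← hx b, hb x, Algebra.smul_def]
    rfl
  obtain ⟨n, m, B₀, hB₀, hI₀⟩ := radical_of_eigenvector hp hN hM b hb0 heig
  obtain ⟨B₁, hB₁, hI₁⟩ := raise_level B₀ hI₀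
  obtain ⟨B, hB, hBB, hI⟩ := radical_minus hp B₁ hI₁
  let bL : Lmax p N := ⟨b, le_Lmax hM b.2⟩
  have hbL : bL ≠ 0 := fun h => hb0 (Subtype.ext (congrArg (fun t : Lmax p N => (t : ℂ)) h))
  have hcb : cL p N bL ≠ 0 := (map_ne_zero_iff _ (cL p N).injective).2 hbL
  let z : Lmax p N := ⟨ζ, Qinf_le_Lmax hζQ⟩
  have hz : IsPrimitiveRoot z p :=
    IsPrimitiveRoot.of_map_of_injective (f := (Lmax p N).val) hζ Subtype.val_injective
  have hz0 : z ≠ 0 := hz.ne_zero hp.ne_zero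
  have hcop : Nat.Coprime 2 p := (Nat.coprime_primes Nat.prime_two hp).2 (Ne.symm hp2)
  have hz2 : IsPrimitiveRoot (z ^ 2) p := hz.pow_of_coprime 2 hcop
  let ξ : (Lmax p N)ˣ := Units.mk0 (z ^ 2) (pow_ne_zero _ hz0)
  have hξp : IsPrimitiveRoot ξ p := by
    rw [← IsPrimitiveRoot.coe_units_iff]
    exact hz2
  refine ⟨ξ, hξp.pow_eq_one, n, m, B, bL / cL p N bL, hξp, div_ne_zero hbL hcb, ?_, hBB, hI, ?_⟩
  · rw [hB, hB₁, hB₀, map_pow, ← div_pow]
    rfl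
  · intro x
    have e1 : x bL = z ^ (lam (φ x)).val * bL := Subtype.ext (hb x)
    obtain ⟨x', hx'⟩ := exists_conj_aut hp hN x (cL p N)
    have e2 : φ x = φ x' := by
      have := hφ.2 (cL p N) (-1) (cL_liftsDelta hp hp2 hN) x' x hx'
      rw [this, heven, Units.val_one, one_mul]
    have e3 : x' bL = z ^ (lam (φ x')).val * bL := Subtype.ext (hb x')
    have e4 : cL p N z = z⁻¹ := eq_inv_of_mul_eq_one_left (cL_root hp.ne_zero z hz.pow_eq_one)
    rw [map_div₀, hx', e3, map_mul, map_pow, e4, e1, e2, zpowHom_apply,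
      Units.val_pow_eq_pow_val, Units.val_mk0, sq z, mul_pow, inv_pow]
    have hze : z ^ (lam (φ x')).val ≠ 0 := pow_ne_zero _ hz0
    field_simp

theorem omega_val [NeZero (N * p)] {k : Type} [Field k] [CharP k p] (d : (ZMod (N * p))ˣ) :
    ((omega p N k d : kˣ) : k) = ((d : ZMod (N * p)).val : k) := by
  unfold omega
  rw [Units.coe_map]
  change ZMod.castHom (Dvd.intro_left N rfl : p ∣ N * p) k (d : ZMod (N * p)) = _
  rw [ZMod.castHom_apply, ZMod.natCast_val]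

theorem conj_bm [hpF : Fact p.Prime] (hN : 0 < N) [NeZero (N * p)]
    {k : Type} [Field k] [CharP k p] {θ : (ZMod (N * p))ˣ →* kˣ}
    {φ : (Lmax p N ≃ₐ[Qinf p N] Lmax p N) → k} (hφ : EigenHom p N θ φ)
    (lam : k →+ ZMod p) {ξ : (Lmax p N)ˣ} (hξ : ξ ^ p = 1) {bm : Lmax p N}
    (hbm : ∀ x, x bm = ((zpowHom p ξ hξ (Multiplicative.ofAdd (lam (φ x))) : (Lmax p N)ˣ) :
        Lmax p N) * bm)
    {g : Lmax p N ≃+* Lmax p N} {d : (ZMod (N * p))ˣ} (hg : LiftsDelta p N g d)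
    (x : Lmax p N ≃ₐ[Qinf p N] Lmax p N) :
    x (g bm) = ((zpowHom p ξ hξ (Multiplicative.ofAdd
      (lam (((omega p N k d * (θ d)⁻¹ : kˣ) : k) * φ x))) : (Lmax p N)ˣ) : Lmax p N) * g bm := by
  have hp := hpF.out
  obtain ⟨x', hx'⟩ := exists_conj_aut hp hN x g
  have e1 : φ x = θ d * φ x' := hφ.2 g d hg x' x hx'
  have e2 : ((omega p N k d * (θ d)⁻¹ : kˣ) : k) * φ x =
      ((d : ZMod (N * p)).val : k) * φ x' := by
    rw [e1, Units.val_mul, omega_val, mul_assoc, Units.inv_mul_cancel_left]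
  have e3 : ((d : ZMod (N * p)).val : ZMod p) * lam (φ x') =
      (d : ZMod (N * p)).val • lam (φ x') := by rw [nsmul_eq_mul]
  have e4 : g (ξ : Lmax p N) = (ξ : Lmax p N) ^ (d : ZMod (N * p)).val := by
    apply hg.1
    rw [mul_comm, pow_mul]
    have := congrArg (fun u : (Lmax p N)ˣ => (u : Lmax p N)) hξ
    simp only [Units.val_pow_eq_pow_val, Units.val_one] at this
    rw [this, one_pow]
  rw [hx', hbm x', map_mul, e2, lam_mul, e3, ofAdd_nsmul, map_pow, zpowHom_apply]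
  congr 1
  rw [Units.val_pow_eq_pow_val, map_pow, e4, Units.val_pow_eq_pow_val, Units.val_pow_eq_pow_val,
    ← pow_mul, ← pow_mul, mul_comm]

/-- `η = ∏ (g_d bm) ^ n_d` is fixed if `∑ n_d θ'(d) = 0` -/
theorem prod_fixed [hpF : Fact p.Prime] (hN : 0 < N) [NeZero (N * p)]
    {k : Type} [Field k] [CharP k p] {θ : (ZMod (N * p))ˣ →* kˣ}
    {φ : (Lmax p N ≃ₐ[Qinf p N] Lmax p N) → k} (hφ : EigenHom p N θ φ)
    (lam : k →+ ZMod p) {ξ : (Lmax p N)ˣ} (hξ : ξ ^ p = 1) {bm : (Lmax p N)ˣ}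
    (hbm : ∀ x, x bm = ((zpowHom p ξ hξ (Multiplicative.ofAdd (lam (φ x))) : (Lmax p N)ˣ) :
        Lmax p N) * bm)
    (g : (ZMod (N * p))ˣ → Lmax p N ≃+* Lmax p N)
    (hg : ∀ d, LiftsDelta p N (g d) d) {ι : Type} (S : Finset ι) (n : ι → ℤ)
    (d : ι → (ZMod (N * p))ˣ)
    (hrel : ∑ i ∈ S, (n i : k) * ((omega p N k (d i) * (θ (d i))⁻¹ : kˣ) : k) = 0) :
    ((∏ i ∈ S, (g (d i) (bm : Lmax p N)) ^ (n i) : Lmax p N) : ℂ) ∈ Qinf p N := by
  have hp := hpF.out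
  apply mem_Qinf_of_fixed hp hN
  intro x
  rw [map_prod]
  have e1 : ∀ i, x ((g (d i) (bm : Lmax p N)) ^ (n i)) =
      ((zpowHom p ξ hξ (Multiplicative.ofAdd
        (lam ((n i : k) * ((omega p N k (d i) * (θ (d i))⁻¹ : kˣ) : k) * φ x))) : (Lmax p N)ˣ) :
        Lmax p N) * (g (d i) (bm : Lmax p N)) ^ (n i) := by
    intro i
    rw [map_zpow₀, conj_bm hN hφ lam hξ hbm (hg (d i)) x, mul_zpow, mul_assoc, ← zsmul_eq_mul,
      map_zsmul, ofAdd_zsmul, map_zpow, Units.val_zpow_eq_zpow_val]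
  rw [Finset.prod_congr rfl fun i _ => e1 i, Finset.prod_mul_distrib, ← Units.coe_prod,
    ← map_prod, ← ofAdd_sum, ← map_sum, ← Finset.sum_mul, hrel, zero_mul, map_zero, ofAdd_zero,
    map_one, Units.val_one, one_mul]

/-- `χ(a) ^ (p ^ s) = χ(a)` for a character of `(ℤ/N p^m)ˣ` in characteristic `p` -/
theorem char_pow_eq [hpF : Fact p.Prime] (hpN : ¬ p ∣ N) {m s : ℕ}
    [NeZero (N * p ^ (m + 1))] (hs : p ^ s ≡ 1 [MOD N.totient * (p - 1)]) {k' : Type} [Field k']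
    [CharP k' p] (χ : (ZMod (N * p ^ (m + 1)))ˣ →* k') (a : (ZMod (N * p ^ (m + 1)))ˣ) :
    χ a ^ (p ^ s) = χ a := by
  have hp := hpF.out
  have hcop : Nat.Coprime N (p ^ (m + 1)) :=
    Nat.Coprime.pow_right _ ((Nat.Prime.coprime_iff_not_dvd hp).2 hpN).symm
  have h1 : a ^ (N.totient * (p - 1) * p ^ m) = 1 := by
    have h2 : Nat.totient (N * p ^ (m + 1)) = N.totient * (p - 1) * p ^ m := by
      rw [Nat.totient_mul hcop, Nat.totient_prime_pow_succ hp]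
      ring
    rw [← h2]
    exact ZMod.pow_totient a
  have h3 : (χ a ^ (N.totient * (p - 1))) ^ p ^ m = 1 := by
    rw [← pow_mul, ← map_pow, h1, map_one]
  have h4 : χ a ^ (N.totient * (p - 1)) = 1 := by
    have h5 : iterateFrobenius k' p m (χ a ^ (N.totient * (p - 1))) = iterateFrobenius k' p m 1 := by
      rw [map_one, iterateFrobenius_def, h3]
    exact (iterateFrobenius k' p m).injective h5
  conv_rhs => rw [← pow_one (χ a)]
  exact pow_eq_of_modEq h4 hs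

open IsCyclotomicExtension.Rat in
/-- If the `θ`-eigenspace of `Hom(X, k)` is not zero (`θ` even) then
`∑_{a < Np/2} (ω⁻¹θ)(a) = 0`. -/
theorem criterion_Lmax [hpF : Fact p.Prime] (hp2 : p ≠ 2) (hN : 0 < N) (hpN : ¬ p ∣ N)
    (hphi : ¬ p ∣ N.totient) [NeZero (N * p)]
    {k : Type} [Field k] [CharP k p] {θ : (ZMod (N * p))ˣ →* kˣ} (heven : θ (-1) = 1)
    {φ : (Lmax p N ≃ₐ[Qinf p N] Lmax p N) → k} (hφ : EigenHom p N θ φ)
    {x₀ : Lmax p N ≃ₐ[Qinf p N] Lmax p N} (hx₀ : φ x₀ ≠ 0) :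
    ∑ a ∈ halfSet (N * p), (((omega p N k a)⁻¹ * θ a : kˣ) : k) = 0 := by
  have hp := hpF.out
  have hp3 : 3 ≤ p := by
    have := hp.two_le
    omega
  obtain ⟨lam, hlam⟩ := exists_add_functional hx₀
  obtain ⟨ξ, hξ, n, m, B, bm, hprim, hbm0, hB, hBB, hI, hbm⟩ := exists_bm hp2 hN heven hφ lam
  have hNe : NeZero (N * p ^ (m + 1)) := ⟨(Nat.mul_pos hN (pow_pos hp.pos _)).ne'⟩
  have := numberField_lev (N * p ^ (m + 1))
  have := isCyclotomic_lev (N * p ^ (m + 1))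
  have hdvd : N * p ∣ N * p ^ (m + 1) := Nat.mul_dvd_mul_left _ (dvd_pow_self p (Nat.succ_ne_zero m))
  obtain ⟨T, s, hT, hs, hg⟩ := exists_teich hp hN hpN hphi hdvd
  choose g hg1 hg2 hg3 using hg
  have hlift : ∀ d, LiftsDelta p N (g d) d := fun d => ⟨hg1 d, hg2 d⟩
  let u : (Lmax p N)ˣ := Units.mk0 bm hbm0
  have hBne := hI.ne_zero
  let Bu : (Lev (N * p ^ (m + 1)))ˣ := Units.mk0 B hBne
  let j : Lev (N * p ^ (m + 1)) →+* Lmax p N :=
    { toFun := fun z => ⟨z, lev_le_Lmax (m + 1) z.2⟩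
      map_one' := rfl
      map_mul' := fun _ _ => rfl
      map_zero' := rfl
      map_add' := fun _ _ => rfl }
  have hjB : j B = bm ^ (p ^ n) := Subtype.ext hB
  have hgB : ∀ d, j ((galUnits (N * p ^ (m + 1)) (T d) Bu : (Lev (N * p ^ (m + 1)))ˣ) :
      Lev (N * p ^ (m + 1))) = g d bm ^ (p ^ n) := by
    intro d
    rw [← map_pow, ← hjB]
    apply Subtype.ext
    rw [galUnits_coe]
    exact (ringAut_eq (g d) (T d) (hg3 d) B _).symm
  have key : ∀ (ι : Type) (S : Finset ι) (c : ι → ℤ) (d : ι → (ZMod (N * p))ˣ),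
      ∑ i ∈ S, (c i : k) * ((omega p N k (d i) * (θ (d i))⁻¹ : kˣ) : k) = 0 →
      ∏ i ∈ S, (galUnits (N * p ^ (m + 1)) (T (d i)) Bu) ^ (c i) ∈
        powSub p N (m + 1) (p ^ n) := by
    intro ι S c d hrel
    refine ⟨_, prod_fixed hN hφ lam hξ (bm := u) hbm g hlift S c d hrel, ?_⟩
    have e1 : (∏ i ∈ S, (g (d i) (u : Lmax p N)) ^ (c i) : Lmax p N) ^ (p ^ n) =
        j ((∏ i ∈ S, (galUnits (N * p ^ (m + 1)) (T (d i)) Bu) ^ (c i) :
          (Lev (N * p ^ (m + 1)))ˣ) : Lev (N * p ^ (m + 1))) := by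
      rw [Units.coe_prod, map_prod, ← Finset.prod_pow]
      refine Finset.prod_congr rfl fun i _ => ?_
      rw [Units.val_zpow_eq_zpow_val, map_zpow₀, hgB]
      change ((g (d i) bm) ^ (c i)) ^ (p ^ n) = _
      rw [← zpow_natCast, ← zpow_natCast, ← zpow_mul, ← zpow_mul, mul_comm]
    exact congrArg (fun t : Lmax p N => (t : ℂ)) e1
  have hb : Bu ∉ powSub p N (m + 1) (p ^ n) := by
    rintro ⟨η, hη, h1⟩
    have hbmC : (bm : ℂ) ≠ 0 := fun h => hbm0 (Subtype.ext h)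
    have h2 : η ^ (p ^ n) = (bm : ℂ) ^ (p ^ n) := h1.trans hB
    have hη0 : η ≠ 0 := by
      rintro rfl
      rw [zero_pow (pow_pos hp.pos n).ne'] at h2
      exact pow_ne_zero _ hbmC h2.symm
    have h3 : ((bm : ℂ) / η) ^ (p ^ n) = 1 := by
      rw [div_pow, h2, div_self (pow_ne_zero _ hbmC)]
    have h4 : (bm : ℂ) ∈ Qinf p N := by
      have h5 := mul_mem (root_mem_Qinf (N := N) n h3) hη
      rwa [div_mul_cancel₀ _ hη0] at h5
    have h5 : x₀ bm = bm := x₀.commutes ⟨(bm : ℂ), h4⟩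
    have h6 := hbm x₀
    rw [h5] at h6
    have h7 : ((zpowHom p ξ hξ (Multiplicative.ofAdd (lam (φ x₀))) : (Lmax p N)ˣ) : Lmax p N) =
        1 := (mul_eq_right₀ hbm0).1 h6.symm
    have h8 : ξ ^ (lam (φ x₀)).val = 1 := Units.ext h7
    have h9 := hprim.dvd_of_pow_eq_one _ h8
    have h10 := Nat.eq_zero_of_dvd_of_lt h9 (ZMod.val_lt _)
    exact hlam ((ZMod.val_eq_zero _).1 h10)
  obtain ⟨k', _, _, χ, hχ⟩ := rep_char_rel (powSub p N (m + 1) (p ^ n))
    (galUnits (N * p ^ (m + 1))) (galUnits_powSub hp hN (p ^ n)) p n Bu (radical_q B hBne) hb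
  let α : (ZMod (N * p))ˣ →* k := (Units.coeHom k).comp (omega p N k * θ⁻¹)
  have hα : ∀ d, α d = ((omega p N k d * (θ d)⁻¹ : kˣ) : k) := fun d => rfl
  let β : (ZMod (N * p))ˣ →* k' := χ.comp T
  have H : ∀ r : MonoidAlgebra ℤ (ZMod (N * p))ˣ,
      MonoidAlgebra.lift ℤ k (ZMod (N * p))ˣ α r = 0 →
      MonoidAlgebra.lift ℤ k' (ZMod (N * p))ˣ β r = 0 := by
    intro r hr
    rw [MonoidAlgebra.lift_apply] at hr ⊢
    have h1 := hχ _ r.coeff.support (fun d => r.coeff d) (fun d => T d)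
      (key _ r.coeff.support (fun d => r.coeff d) (fun d => d) (by
        rw [← hr, Finsupp.sum]
        refine Finset.sum_congr rfl fun d _ => ?_
        rw [zsmul_eq_mul, hα]))
    rw [Finsupp.sum, ← h1]
    refine Finset.sum_congr rfl fun d _ => ?_
    rw [zsmul_eq_mul]
    rfl
  have h2k : (2 : k') ≠ 0 := by
    intro h0
    have : ((2 : ℕ) : k') = 0 := by exact_mod_cast h0
    rw [CharP.cast_eq_zero_iff k' p] at this
    exact hp2 ((Nat.prime_dvd_prime_iff_eq Fact.out Nat.prime_two).1 this)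
  have hsum : ∑ a ∈ halfSet (N * p ^ (m + 1)), χ a⁻¹ = 0 := by
    have hM : 2 < N * p ^ (m + 1) := by
      have h2 : p ≤ p ^ (m + 1) := Nat.le_self_pow (Nat.succ_ne_zero m) p
      nlinarith
    have h1 := radical_S (s := n) hp hN B hBB hI hM hBne
    have h2 := hχ _ (halfSet (N * p ^ (m + 1))) (fun _ => 2) (fun a => a⁻¹) (by
      rw [← Finset.prod_pow] at h1
      exact_mod_cast h1)
    rw [← Finset.mul_sum] at h2
    push_cast at h2
    exact (mul_eq_zero.1 h2).resolve_left h2k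
  have hβ1 : β (-1) = -1 := by
    have h1 := hχ (Fin 2) Finset.univ (fun _ => 1) (fun i => T (![-1, 1] i)) (by
      apply key
      rw [Fin.sum_univ_two]
      simp only [Matrix.cons_val_zero, Matrix.cons_val_one, map_one, inv_one, mul_one,
        Units.val_one, Int.cast_one, heven]
      rw [one_mul]
      have h2 : ((omega p N k (-1) : kˣ) : k) = -1 := by
        simp [omega]
      rw [h2, neg_add_cancel])
    rw [Fin.sum_univ_two] at h1
    simp only [Matrix.cons_val_zero, Matrix.cons_val_one, map_one, mul_one, Int.cast_one,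
      one_mul] at h1
    exact eq_neg_of_add_eq_zero_left h1
  let ψ : (ZMod (N * p))ˣ →* k' := β.comp (invMonoidHom)
  have hψ : ∀ d, ψ d = β d⁻¹ := fun d => rfl
  have hψ1 : ψ (-1) = -1 := by
    rw [hψ, ← hβ1]
    congr 1
  have hψa : ∀ a : (ZMod (N * p ^ (m + 1)))ˣ, χ a⁻¹ = ψ (ZMod.unitsMap hdvd a) := by
    intro a
    rw [hψ, ← map_inv]
    change χ a⁻¹ = χ (T (ZMod.unitsMap hdvd a⁻¹))
    rw [hT, map_pow, char_pow_eq hpN hs]
  have hβ : ∑ d ∈ halfSet (N * p), β d⁻¹ = 0 := by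
    rw [← hsum, Finset.sum_congr rfl fun a _ => hψa a,
      sum_halfSet_level h2k hp hp2 (Nat.succ_le_succ (Nat.zero_le m)) hdvd ψ hψ1]
    rfl
  have hfin := rel_symm (p := p) α β H
    (∑ d ∈ halfSet (N * p), MonoidAlgebra.of ℤ (ZMod (N * p))ˣ d⁻¹) (by
      rw [map_sum, ← hβ]
      exact Finset.sum_congr rfl fun d _ => MonoidAlgebra.lift_of _ _)
  rw [map_sum] at hfin
  rw [← hfin]
  refine Finset.sum_congr rfl fun d _ => ?_
  rw [MonoidAlgebra.lift_of, hα, map_inv, map_inv, inv_inv]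

theorem criterion_of_eq [hpF : Fact p.Prime] (hp2 : p ≠ 2) (hN : 0 < N) (hpN : ¬ p ∣ N)
    (hphi : ¬ p ∣ N.totient) [NeZero (N * p)]
    {k : Type} [Field k] [CharP k p] {θ : (ZMod (N * p))ˣ →* kˣ} (heven : θ (-1) = 1)
    {L : IntermediateField (Qinf p N) ℂ} (hL : L = Lmax p N)
    {φ : (L ≃ₐ[Qinf p N] L) → k} (hφ : EigenHom p N θ φ)
    {x₀ : L ≃ₐ[Qinf p N] L} (hx₀ : φ x₀ ≠ 0) :
    ∑ a ∈ halfSet (N * p), (((omega p N k a)⁻¹ * θ a : kˣ) : k) = 0 := by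
  subst hL
  exact criterion_Lmax hp2 hN hpN hphi heven hφ hx₀

/-- If the `θ`-eigenspace of `Hom(X, k)` is not zero (`θ` even) then
`∑_{a < Np/2} (ω⁻¹θ)(a) = 0`. -/
theorem criterion (hp : p.Prime) (hp2 : p ≠ 2) (hN : 0 < N) (hpN : ¬ p ∣ N)
    (hphi : ¬ p ∣ N.totient) [NeZero (N * p)]
    {k : Type} [Field k] [CharP k p] (θ : (ZMod (N * p))ˣ →* kˣ) (heven : θ (-1) = 1)
    (φ : (maxUnram p (Qinf p N) ≃ₐ[Qinf p N] maxUnram p (Qinf p N)) → k)
    (hφ : EigenHom p N θ φ)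
    (x₀ : maxUnram p (Qinf p N) ≃ₐ[Qinf p N] maxUnram p (Qinf p N)) (hx₀ : φ x₀ ≠ 0) :
    ∑ a ∈ halfSet (N * p), (((omega p N k a)⁻¹ * θ a : kˣ) : k) = 0 := by
  have : Fact p.Prime := ⟨hp⟩
  exact criterion_of_eq hp2 hN hpN hphi heven (maxUnram_eq p N) hφ hx₀

end

end Pool.Agent.GP.Half
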