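import Mathlib

/-!
# Module Dirichlet2: a multiplier making all roots of unity of order `l - 1` small modulo `l ^ n`

For a prime `l` there is a constant `c > 0` such that for all `n`, `Q > 0` with
`(c Q) ^ φ(l-1) < l ^ n` there is `y`, not divisible by `l ^ n`, such that for every `t ∈ (ℤ/l^n)ˣ`
with `t ^ (l-1) = 1` (or `t = -1`, needed only for `l = 2`) the class `y t` has a representative `z`
with `|z| Q ≤ l ^ n`.

PROOF.  Put `f = l - 1`, `d = φ(f) ≥ 1`.  For `j < f` divide `X ^ j` by the monic cyclotomic polynomial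
`Φ_f` over `ℤ` (`Polynomial.modByMonic`): the remainder is `∑_{i<d} a_{ji} X^i`.  Let
`c = 1 + ∑_{j<f} ∑_{i<d} |a_{ji}|` (depends only on `l`).
The hypothesis forces `n ≥ 1`.  The subgroup `μ = {t : t ^ f = 1}` of `(ℤ/l^n)ˣ` is cyclic (for `l` odd
`(ℤ/l^n)ˣ` is cyclic: `ZMod.isCyclic_units_of_prime_pow`; for `l = 2`, `f = 1` and `μ` is trivial) of
order exactly `f` (`f ∣ φ(l^n)`); let `τ` be a generator.  `Φ_f(τ) = 0` in `ℤ/l^n`:
`0 = τ^f - 1 = ∏_{d' ∣ f} Φ_{d'}(τ)`, and for `d' < f` the element `Φ_{d'}(τ)` is a unit, because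
modulo `l` it is not zero: the reduction `τ̄ ∈ 𝔽_l` has order exactly `f` (the kernel of
`(ℤ/l^n)ˣ → (ℤ/l)ˣ` is an `l`-group and `μ` has order prime to `l`), while `Φ_{d'}(τ̄) = 0` would give
`τ̄ ^ d' = 1`.  (An element of `ℤ/l^n` which is nonzero modulo `l` is a unit.)
Hence `τ^j = ∑_{i<d} a_{ji} τ^i`.
Pigeonhole: `Q' = c Q`, `Q' ^ d < l ^ n`.  For `y ∈ {0, …, Q'^d}` consider the vector
`(⌊Q' (y τ^i).val / l^n⌋)_{i<d} ∈ {0..Q'-1}^d`: two of them coincide, `y₁ < y₂`; put `y = y₂ - y₁`,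
`0 < y ≤ Q'^d < l^n`, and `z_i = (y₂ τ^i).val - (y₁ τ^i).val`, `|z_i| Q' < l^n`, `z_i ≡ y τ^i`.
For `t = τ^j`: `z = ∑_i a_{ji} z_i`, `|z| Q ≤ c max|z_i| Q ≤ l^n`.  For `t = -1` with `l = 2`:
`τ = 1`, `z = - z_0`; for `l` odd `-1 ∈ μ`.
-/

namespace Pool.Agent.GP.Half

namespace Dirichlet2

open Polynomial

variable {l n : ℕ}

/-- reduction modulo `l` -/
noncomputable def red (l n : ℕ) (hn : n ≠ 0) : ZMod (l ^ n) →+* ZMod l :=
  ZMod.castHom (dvd_pow_self l hn) (ZMod l)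

lemma dvd_of_red (hl : l.Prime) (hn : n ≠ 0) {a : ZMod (l ^ n)} (h : red l n hn a = 0) :
    (l : ZMod (l ^ n)) ∣ a := by
  have : NeZero (l ^ n) := ⟨pow_ne_zero _ hl.ne_zero⟩
  have h1 : a = ((a.val : ℕ) : ZMod (l ^ n)) := (ZMod.natCast_zmod_val a).symm
  rw [h1, map_natCast, ZMod.natCast_eq_zero_iff] at h
  obtain ⟨k, hk⟩ := h
  rw [h1, hk, Nat.cast_mul]
  exact dvd_mul_right _ _

lemma isUnit_of_red (hl : l.Prime) (hn : n ≠ 0) {a : ZMod (l ^ n)} (h : red l n hn a ≠ 0) :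
    IsUnit a := by
  have : NeZero (l ^ n) := ⟨pow_ne_zero _ hl.ne_zero⟩
  have h1 : a = ((a.val : ℕ) : ZMod (l ^ n)) := (ZMod.natCast_zmod_val a).symm
  rw [h1, map_natCast, Ne, ZMod.natCast_eq_zero_iff] at h
  rw [h1, ZMod.isUnit_iff_coprime]
  exact (((Nat.Prime.coprime_iff_not_dvd hl).2 h).symm).pow_right n

lemma pow_pow_eq {R : Type*} [CommRing R] {a : R} (ha : a ^ l = a) (k : ℕ) : a ^ l ^ k = a := by
  induction k with
  | zero => simp
  | succ k ih => rw [pow_succ, pow_mul, ih, ha]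

lemma eq_of_red (hl : l.Prime) (hn : n ≠ 0) {a b : ZMod (l ^ n)} (ha : a ^ l = a) (hb : b ^ l = b)
    (h : red l n hn a = red l n hn b) : a = b := by
  have h1 : (l : ZMod (l ^ n)) ∣ a - b := dvd_of_red hl hn (by rw [map_sub, h, sub_self])
  have h2 := dvd_sub_pow_of_dvd_sub h1 (n - 1)
  rw [pow_pow_eq ha, pow_pow_eq hb, Nat.sub_add_cancel (Nat.one_le_iff_ne_zero.mpr hn)] at h2
  have h3 : ((l : ZMod (l ^ n)) ^ n) = 0 := by
    rw [← Nat.cast_pow, ZMod.natCast_self]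
  rw [h3, zero_dvd_iff, sub_eq_zero] at h2
  exact h2

/-- a generator of the roots of unity of order `l - 1` in `ℤ/l^n`, which is a root of the cyclotomic
polynomial -/
lemma exists_gen (hl : l.Prime) (hn : n ≠ 0) : ∃ τ : (ZMod (l ^ n))ˣ,
    aeval (τ : ZMod (l ^ n)) (cyclotomic (l - 1) ℤ) = 0 ∧
    ∀ t : (ZMod (l ^ n))ˣ, t ^ (l - 1) = 1 → ∃ j, j < l - 1 ∧ t = τ ^ j := by
  have : Fact l.Prime := ⟨hl⟩
  have : NeZero (l ^ n) := ⟨pow_ne_zero _ hl.ne_zero⟩
  have hf : 0 < l - 1 := by have := hl.two_le; omega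
  obtain ⟨g, hg⟩ := IsCyclic.exists_generator (α := (ZMod l)ˣ)
  have hord : orderOf g = l - 1 := by
    rw [orderOf_eq_card_of_forall_mem_zpowers hg, Nat.card_eq_fintype_card, ZMod.card_units]
  obtain ⟨g', hg'⟩ := ZMod.unitsMap_surjective (dvd_pow_self l hn) g
  set τ : (ZMod (l ^ n))ˣ := g' ^ l ^ (n - 1) with hτ
  have hτ1 : τ ^ (l - 1) = 1 := by
    rw [hτ, ← pow_mul, ← Nat.totient_prime_pow hl (Nat.pos_of_ne_zero hn), ZMod.pow_totient]
  have hgl : ((g : ZMod l)) ^ l = g := ZMod.pow_card _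
  have hredτ : red l n hn (τ : ZMod (l ^ n)) = (g : ZMod l) := by
    have h1 : red l n hn (g' : ZMod (l ^ n)) = (g : ZMod l) := by
      rw [← hg']; rfl
    rw [hτ, Units.val_pow_eq_pow_val, map_pow, h1, pow_pow_eq hgl]
  have hroot : ∀ t : (ZMod (l ^ n))ˣ, t ^ (l - 1) = 1 → ((t : ZMod (l ^ n))) ^ l = t := by
    intro t ht
    have h1 : t ^ l = t := by
      calc t ^ l = t ^ (l - 1 + 1) := by
            congr 1
            omega
        _ = t := by rw [pow_succ, ht, one_mul]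
    rw [← Units.val_pow_eq_pow_val, h1]
  refine ⟨τ, ?_, ?_⟩
  · have h1 := congrArg (fun p : (ZMod (l ^ n))[X] => p.eval (τ : ZMod (l ^ n)))
      (prod_cyclotomic_eq_X_pow_sub_one hf (ZMod (l ^ n)))
    simp only [eval_prod, eval_sub, eval_pow, eval_X, eval_one] at h1
    rw [← Units.val_pow_eq_pow_val, hτ1, Units.val_one, sub_self,
      ← Finset.mul_prod_erase _ _ (Nat.mem_divisors_self (l - 1) hf.ne')] at h1
    have h2 : IsUnit (∏ x ∈ (l - 1).divisors.erase (l - 1),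
        eval (τ : ZMod (l ^ n)) (cyclotomic x (ZMod (l ^ n)))) := by
      refine Finset.prod_induction _ IsUnit (fun _ _ ha hb => ha.mul hb) isUnit_one ?_
      intro x hx
      rw [Finset.mem_erase, Nat.mem_divisors] at hx
      apply isUnit_of_red hl hn
      have h3 : red l n hn (eval (τ : ZMod (l ^ n)) (cyclotomic x (ZMod (l ^ n))))
          = eval (g : ZMod l) (cyclotomic x (ZMod l)) := by
        rw [← hredτ, ← map_cyclotomic x (red l n hn), eval_map, eval₂_hom]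
      rw [h3]
      intro h4
      have h5 : (X ^ x - 1 : (ZMod l)[X]).eval (g : ZMod l) = 0 :=
        eval_eq_zero_of_dvd_of_eval_eq_zero (cyclotomic.dvd_X_pow_sub_one x (ZMod l)) h4
      simp only [eval_sub, eval_pow, eval_X, eval_one] at h5
      have h6 : g ^ x = 1 := by
        apply Units.ext
        rw [Units.val_pow_eq_pow_val, Units.val_one]
        exact sub_eq_zero.mp h5
      have h7 := orderOf_dvd_of_pow_eq_one h6
      rw [hord] at h7
      exact hx.1 (Nat.dvd_antisymm hx.2.1 h7)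
    have h3 := (IsUnit.mul_left_eq_zero h2).mp h1
    rw [← map_cyclotomic_int, eval_map] at h3
    rw [aeval_def]
    exact h3
  · intro t ht
    classical
    have h1 : ZMod.unitsMap (dvd_pow_self l hn) t ∈ Subgroup.zpowers g := hg _
    rw [mem_zpowers_iff_mem_range_orderOf, Finset.mem_image] at h1
    obtain ⟨j, hj, hjt⟩ := h1
    rw [Finset.mem_range, hord] at hj
    refine ⟨j, hj, ?_⟩
    apply Units.ext
    apply eq_of_red hl hn (hroot t ht)
    · apply hroot
      rw [← pow_mul, mul_comm, pow_mul, hτ1, one_pow]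
    · rw [Units.val_pow_eq_pow_val, map_pow, hredτ, ← Units.val_pow_eq_pow_val]
      have h2 : g ^ j = ZMod.unitsMap (dvd_pow_self l hn) t := hjt
      rw [h2]
      rfl

/-- Dirichlet's theorem on simultaneous approximation modulo `N` -/
lemma exists_simul (N d Q : ℕ) (hN : 0 < N) (hQ : 0 < Q) (hlt : Q ^ d < N)
    (x : Fin d → ZMod N) : ∃ y : ℕ, ¬ N ∣ y ∧ ∀ i, ∃ z : ℤ, (z : ZMod N) = y * x i ∧
      z.natAbs * Q < N := by
  have : NeZero N := ⟨hN.ne'⟩
  have hb : ∀ (y : ℕ) (i : Fin d), Q * ((y : ZMod N) * x i).val / N < Q := by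
    intro y i
    rw [Nat.div_lt_iff_lt_mul hN]
    exact Nat.mul_lt_mul_of_pos_left (ZMod.val_lt _) hQ
  let F : Fin (Q ^ d + 1) → (Fin d → Fin Q) := fun y i =>
    ⟨Q * (((y : ℕ) : ZMod N) * x i).val / N, hb y i⟩
  have hcard : Fintype.card (Fin d → Fin Q) < Fintype.card (Fin (Q ^ d + 1)) := by
    simp
  obtain ⟨y₁, y₂, hne, heq⟩ := Fintype.exists_ne_map_eq_of_card_lt F hcard
  wlog hlt' : y₁ < y₂ generalizing y₁ y₂
  · exact this y₂ y₁ hne.symm heq.symm (lt_of_le_of_ne (not_lt.mp hlt') hne.symm)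
  have hlt2 : (y₁ : ℕ) < (y₂ : ℕ) := hlt'
  refine ⟨y₂ - y₁, ?_, ?_⟩
  · intro hdvd
    have h1 := Nat.le_of_dvd (by omega) hdvd
    have h2 := y₂.2
    omega
  · intro i
    refine ⟨((((y₂ : ℕ) : ZMod N) * x i).val : ℤ) - ((((y₁ : ℕ) : ZMod N) * x i).val : ℤ), ?_, ?_⟩
    · push_cast
      rw [ZMod.natCast_zmod_val, ZMod.natCast_zmod_val, Nat.cast_sub hlt2.le]
      ring
    · have h1 := congrArg Fin.val (congrFun heq i)
      simp only [F] at h1
      set a := (((y₁ : ℕ) : ZMod N) * x i).val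
      set b := (((y₂ : ℕ) : ZMod N) * x i).val
      have ha := Nat.div_add_mod (Q * a) N
      have hb := Nat.div_add_mod (Q * b) N
      have ha2 := Nat.mod_lt (Q * a) hN
      have hb2 := Nat.mod_lt (Q * b) hN
      rw [h1] at ha
      have h2 : ((b : ℤ) - a).natAbs * Q = ((Q * b : ℤ) - Q * a).natAbs := by
        rw [← mul_sub, Int.natAbs_mul, Int.natAbs_natCast, mul_comm]
      rw [h2]
      have ha' : (Q * a : ℤ) = (N * (Q * b / N) : ℕ) + ((Q * a % N : ℕ) : ℤ) := by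
        rw [← Nat.cast_add, ha]; push_cast; ring
      have hb' : (Q * b : ℤ) = (N * (Q * b / N) : ℕ) + ((Q * b % N : ℕ) : ℤ) := by
        rw [← Nat.cast_add, hb]; push_cast; ring
      rw [ha', hb']
      omega

end Dirichlet2

open Dirichlet2 Polynomial

theorem exists_mult (l : ℕ) (hl : l.Prime) : ∃ c : ℕ, 0 < c ∧ ∀ n Q : ℕ, 0 < Q →
    (c * Q) ^ (l - 1).totient < l ^ n → ∃ y : ℕ, ¬ l ^ n ∣ y ∧
      ∀ t : (ZMod (l ^ n))ˣ, (t ^ (l - 1) = 1 ∨ t = -1) →
        ∃ z : ℤ, (z : ZMod (l ^ n)) = y * (t : ZMod (l ^ n)) ∧ z.natAbs * Q ≤ l ^ n := by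
  set f := l - 1 with hf
  set d := f.totient with hd
  let r : ℕ → ℤ[X] := fun j => (X ^ j : ℤ[X]) %ₘ cyclotomic f ℤ
  have hdeg : ∀ j, (r j).degree < d := by
    intro j
    have := degree_modByMonic_lt (X ^ j : ℤ[X]) (cyclotomic.monic f ℤ)
    rwa [degree_cyclotomic] at this
  set c : ℕ := 1 + ∑ j ∈ Finset.range f, ∑ i : Fin d, ((r j).coeff i).natAbs with hc
  refine ⟨c, by omega, ?_⟩
  intro n Q hQ hlt
  have hcQ : 0 < c * Q := Nat.mul_pos (by omega) hQ
  have hn : n ≠ 0 := by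
    rintro rfl
    rw [pow_zero] at hlt
    have := Nat.pow_pos (n := d) hcQ
    omega
  obtain ⟨τ, hτ, hgen⟩ := exists_gen hl hn
  have hN : 0 < l ^ n := pow_pos hl.pos n
  obtain ⟨y, hy, hz⟩ := exists_simul (l ^ n) d (c * Q) hN hcQ hlt
    (fun i => (τ : ZMod (l ^ n)) ^ (i : ℕ))
  choose z hz1 hz2 using hz
  refine ⟨y, hy, ?_⟩
  have key : ∀ t : (ZMod (l ^ n))ˣ, t ^ f = 1 →
      ∃ z : ℤ, (z : ZMod (l ^ n)) = y * (t : ZMod (l ^ n)) ∧ z.natAbs * Q ≤ l ^ n := by
    intro t ht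
    obtain ⟨j, hj, rfl⟩ := hgen t ht
    have h1 : ((τ : ZMod (l ^ n))) ^ j = ∑ i : Fin d, ((r j).coeff i : ZMod (l ^ n))
        * (τ : ZMod (l ^ n)) ^ (i : ℕ) := by
      have h2 := aeval_modByMonic_eq_self_of_root (p := (X ^ j : ℤ[X])) hτ
      rw [map_pow, aeval_X] at h2
      rw [← h2]
      change aeval (τ : ZMod (l ^ n)) (r j) = _
      rw [aeval_def, eval₂_eq_sum_range' _ (n := d), Finset.sum_range]
      · rfl
      · by_cases h0 : r j = 0
        · rw [h0, natDegree_zero]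
          exact Nat.totient_pos.mpr (by have := hl.two_le; omega)
        · exact (natDegree_lt_iff_degree_lt h0).mpr (hdeg j)
    refine ⟨∑ i : Fin d, (r j).coeff i * z i, ?_, ?_⟩
    · push_cast
      rw [h1, Finset.mul_sum]
      refine Finset.sum_congr rfl fun i _ => ?_
      rw [hz1 i]
      ring
    · have h2 : (∑ i : Fin d, (r j).coeff i * z i).natAbs ≤
          ∑ i : Fin d, ((r j).coeff i).natAbs * (z i).natAbs := by
        refine (Int.natAbs_sum_le _ _).trans (le_of_eq ?_)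
        refine Finset.sum_congr rfl fun i _ => ?_
        rw [Int.natAbs_mul]
      have h3 : c * ((∑ i : Fin d, (r j).coeff i * z i).natAbs * Q) ≤ c * l ^ n := by
        calc c * ((∑ i : Fin d, (r j).coeff i * z i).natAbs * Q)
            ≤ c * ((∑ i : Fin d, ((r j).coeff i).natAbs * (z i).natAbs) * Q) := by gcongr
          _ = ∑ i : Fin d, ((r j).coeff i).natAbs * ((z i).natAbs * (c * Q)) := by
              rw [Finset.sum_mul, Finset.mul_sum]
              refine Finset.sum_congr rfl fun i _ => ?_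
              ring
          _ ≤ ∑ i : Fin d, ((r j).coeff i).natAbs * l ^ n := by
              gcongr with i _
              exact (hz2 i).le
          _ = (∑ i : Fin d, ((r j).coeff i).natAbs) * l ^ n := by rw [Finset.sum_mul]
          _ ≤ c * l ^ n := by
              gcongr
              have h9 : (∑ i : Fin d, ((r j).coeff i).natAbs) ≤
                  ∑ j ∈ Finset.range f, ∑ i : Fin d, ((r j).coeff i).natAbs :=
                Finset.single_le_sum (f := fun j => ∑ i : Fin d, ((r j).coeff i).natAbs)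
                  (fun _ _ => Nat.zero_le _) (Finset.mem_range.mpr hj)
              omega
      exact Nat.le_of_mul_le_mul_left h3 (by omega)
  intro t ht
  rcases ht with ht | rfl
  · exact key t ht
  · obtain ⟨z, hz, hz'⟩ := key 1 (one_pow _)
    refine ⟨-z, ?_, ?_⟩
    · push_cast
      rw [hz]
      simp
    · rwa [Int.natAbs_neg]

end Pool.Agent.GP.Half
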