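import Mathlib

/-!
# Module Numeric: the numerical deduction

`S` a finite set of primes, `r ≥ 1`, `cc l > 0` constants.  There are `η > 0` and `p₀` such that for
every prime `p ≥ p₀` with `∏_{l ∈ S} l ^ v_l(p^r - 1) ≤ p ^ η`, every `N` with prime factors in `S`
(`ω = ω(N) ≤ |S|`) and all natural numbers `A`, `B`, `E` satisfying the inequalities below, and every
prime `l`: `B ≤ ½ (1 - min(1, v_l(N) log l / (φ(l-1) log p)) + ε) A`.

PROOF.  Let `s = |S|`, `P = ∏_{l ∈ S} l ≥ 1`, `c₀ = max_{l∈S} cc l`.  `E ≤ P p^η`.  May assume `A > 0`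
(if `A = 0` then `h0` gives `p ^ (2B) ≤ 1`, so `B = 0`).
(a) From `h0`: `2 B log p ≤ A (log (4^(s+1) P) + (1 + η) log p)`.
(b) Let `l ∣ N`, `κ = v_l(N)`, `φ = φ(l-1) ≥ 1`, `e = max(1, v_l(p^r-1))`, `l^e ≤ P p^η`.  Let `Q` be the largest
natural number with `(cc l Q) ^ φ * l^e < l^κ`; if there is no `Q ≥ 1`, then
`l^κ ≤ (cc l)^φ l^e ≤ c₀^φ P p^η`, so `ϑ := κ log l/(φ log p)` is at most `η + const/log p`, and (a)
suffices.  Otherwise `(cc l (Q+1)) ^ φ * l^e ≥ l^κ`, `Q + 1 ≤ 2 Q`, so
`log Q ≥ ϑ log p - η log p - const`.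
(The set of `Q` is bounded: `Q ≤ (cc l Q)^φ < l^κ`; use `Nat.findGreatest` or `Nat.sqrt`-like maximality.)
`h1`: `2 B log p + A log Q ≤ A (log (32 4^s P) + η log p + log (p + Q))`, and
`log (p+Q) ≤ log 2 + max(log p, log Q)`, so
`2 B log p ≤ A (const + η log p + max(log p - log Q, 0)) ≤ A (const + 2 η log p + max(1 - ϑ, 0) log p)`.
Divide by `2 log p`: with `η = ε/4` and `const / log p ≤ ε/4` for `p ≥ p₀` we get
`B ≤ ½ (max(1 - ϑ, 0) + ε) A`, and `max(1-ϑ, 0) = 1 - min(1, ϑ)`.
(c) `l ∤ N`: `v_l(N) = 0`, the bound is `½ (1 + ε) A`, which is (a).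
-/

namespace Pool.Agent.GP.Half

/-- Logarithms of an inequality between powers of natural numbers. -/
theorem numeric_log_pow {p B X A : ℕ} (hp : 0 < p) (h : p ^ (2 * B) ≤ X ^ A) (hA : 0 < A) :
    0 < X ∧ 2 * (B : ℝ) * Real.log p ≤ A * Real.log X := by
  have hX : 0 < X := by
    rcases Nat.eq_zero_or_pos X with h0 | h0
    · subst h0
      rw [zero_pow hA.ne'] at h
      have : 0 < p ^ (2 * B) := Nat.pow_pos hp
      omega
    · exact h0
  refine ⟨hX, ?_⟩
  have h1 : ((p : ℝ)) ^ (2 * B) ≤ (X : ℝ) ^ A := by exact_mod_cast h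
  have h2 : (0 : ℝ) < (p : ℝ) ^ (2 * B) := by positivity
  have h3 := Real.log_le_log h2 h1
  rw [Real.log_pow, Real.log_pow] at h3
  push_cast at h3
  exact h3

/-- The final deduction when `log p` is large: `ϑ` is the exponent, `K`, `c` are constants. -/
theorem numeric_final {ε L K c η θ a b : ℝ} (hη : η = ε / 4) (hL : 0 < L)
    (hbig : 2 * (K + c) ≤ ε * L) (ha : 0 ≤ a)
    (h : 2 * b * L ≤ a * (K + c + 2 * η * L + max (1 - θ) 0 * L)) :
    b ≤ 1 / 2 * (1 - min 1 θ + ε) * a := by
  have hm : max (1 - θ) 0 = 1 - min 1 θ := by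
    rcases le_total 1 θ with h1 | h1
    · rw [min_eq_left h1, max_eq_right (by linarith)]; ring
    · rw [min_eq_right h1, max_eq_left (by linarith)]
  rw [hm] at h
  subst hη
  have h2 : a * (K + c + 2 * (ε / 4) * L + (1 - min 1 θ) * L) ≤
      a * ((1 - min 1 θ + ε) * L) := by
    apply mul_le_mul_of_nonneg_left _ ha
    nlinarith
  have h3 : 2 * b * L ≤ (1 - min 1 θ + ε) * a * L := by nlinarith
  have h4 : 2 * b ≤ (1 - min 1 θ + ε) * a := le_of_mul_le_mul_right h3 hL
  linarith

theorem numeric (S : Finset ℕ) (hS : ∀ l ∈ S, l.Prime) (ε : ℝ) (hε : 0 < ε) (cc : ℕ → ℕ)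
    (hcc : ∀ l ∈ S, 0 < cc l) (r : ℕ) :
    ∃ (η : ℝ) (p₀ : ℕ), 0 < η ∧ ∀ p : ℕ, p.Prime → p₀ ≤ p →
      ∏ l ∈ S, (l : ℝ) ^ (p ^ r - 1).factorization l ≤ (p : ℝ) ^ η →
      ∀ N : ℕ, 0 < N → N.primeFactors ⊆ S → ∀ A B E : ℕ,
        E ≤ ∏ l ∈ N.primeFactors, l ^ ((p ^ r - 1).factorization l + 1) →
        p ^ (2 * B) ≤ (4 ^ (N.primeFactors.card + 1) * (p - 1) * E) ^ A →
        (∀ l ∈ N.primeFactors, ∀ e Q : ℕ, 1 ≤ e → (p ^ r - 1).factorization l ≤ e → 0 < Q →
          (cc l * Q) ^ (l - 1).totient * l ^ e < l ^ N.factorization l →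
          p ^ (2 * B) * Q ^ A ≤ (32 * 4 ^ N.primeFactors.card * (p + Q) * E) ^ A) →
        ∀ l : ℕ, l.Prime → (B : ℝ) ≤ 1 / 2 * (1 - min 1 ((N.factorization l : ℝ) * Real.log l /
          ((l - 1).totient * Real.log p)) + ε) * A := by
  have hSpos : ∀ l ∈ S, 0 < l := fun l hl => (hS l hl).pos
  set P : ℝ := ∏ l ∈ S, (l : ℝ) with hPdef
  have hP1 : 1 ≤ P := by
    have h : 0 < ∏ l ∈ S, l := Finset.prod_pos hSpos
    have h' : (1 : ℝ) ≤ ((∏ l ∈ S, l : ℕ) : ℝ) := by exact_mod_cast h
    rw [Nat.cast_prod] at h'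
    exact h'
  have hP0 : 0 < P := by linarith
  have hlp : 0 ≤ Real.log P := Real.log_nonneg hP1
  set c₁ : ℝ := ∑ l ∈ S, Real.log (2 * cc l) with hc₁
  have hterm : ∀ l ∈ S, 0 ≤ Real.log (2 * (cc l : ℝ)) := by
    intro l hl
    apply Real.log_nonneg
    have : (1 : ℝ) ≤ cc l := by exact_mod_cast hcc l hl
    linarith
  have hc1 : ∀ l ∈ S, Real.log (2 * (cc l : ℝ)) ≤ c₁ := by
    intro l hl
    exact Finset.single_le_sum (f := fun l => Real.log (2 * (cc l : ℝ))) hterm hl
  have hc1n : 0 ≤ c₁ := Finset.sum_nonneg hterm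
  set K : ℝ := Real.log 32 + (S.card + 1) * Real.log 4 + Real.log 2 + Real.log P with hK
  have hl32 : 0 ≤ Real.log 32 := Real.log_nonneg (by norm_num)
  have hl4 : 0 ≤ Real.log 4 := Real.log_nonneg (by norm_num)
  have hl2 : 0 ≤ Real.log 2 := Real.log_nonneg (by norm_num)
  have hKn : 0 ≤ K := by
    have : 0 ≤ ((S.card : ℝ) + 1) * Real.log 4 := by positivity
    linarith
  set c : ℝ := c₁ + Real.log P with hc
  have hcn : 0 ≤ c := by linarith
  obtain ⟨η, hη⟩ : ∃ η : ℝ, η = ε / 4 := ⟨_, rfl⟩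
  have hη0 : 0 < η := by rw [hη]; linarith
  refine ⟨η, max 2 ⌈Real.exp (2 * (K + c) / ε)⌉₊, hη0, ?_⟩
  intro p hp hpp hsm N hN hNS A B E hE h0 h1 l hl
  have hp2 : 2 ≤ p := le_trans (le_max_left _ _) hpp
  have hpe : Real.exp (2 * (K + c) / ε) ≤ p := by
    have h2 : ⌈Real.exp (2 * (K + c) / ε)⌉₊ ≤ p := le_trans (le_max_right _ _) hpp
    exact Nat.ceil_le.mp h2
  have hpR : (2 : ℝ) ≤ p := by exact_mod_cast hp2
  have hp0 : (0 : ℝ) < p := by linarith
  obtain ⟨L, hLdef⟩ : ∃ L : ℝ, L = Real.log p := ⟨_, rfl⟩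
  have hL0 : 0 < L := by rw [hLdef]; exact Real.log_pos (by linarith)
  have hLbig : 2 * (K + c) / ε ≤ L := by
    rw [hLdef]
    exact (Real.le_log_iff_exp_le hp0).mpr hpe
  have hbig : 2 * (K + c) ≤ ε * L := by
    rw [div_le_iff₀ hε] at hLbig
    linarith
  rw [← hLdef]
  -- the case `A = 0`
  rcases Nat.eq_zero_or_pos A with hA | hA
  · subst hA
    rw [pow_zero] at h0
    have hB : B = 0 := by
      by_contra hB
      have h2 : 2 ^ 1 ≤ p ^ (2 * B) :=
        le_trans (Nat.pow_le_pow_left hp2 1) (Nat.pow_le_pow_right (by omega) (by omega))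
      omega
    subst hB
    simp
  have hAR : (0 : ℝ) ≤ A := Nat.cast_nonneg A
  -- the product over `S`
  set T : ℕ := ∏ l ∈ S, l ^ ((p ^ r - 1).factorization l + 1) with hT
  have hTpos : 0 < T := Finset.prod_pos fun l hl => Nat.pow_pos (hSpos l hl)
  have hTR : (T : ℝ) ≤ P * (p : ℝ) ^ η := by
    have h2 : (T : ℝ) = (∏ l ∈ S, (l : ℝ) ^ (p ^ r - 1).factorization l) * P := by
      rw [hT, hPdef, ← Finset.prod_mul_distrib]
      push_cast
      apply Finset.prod_congr rfl
      intro l _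
      rw [pow_succ]
    rw [h2, mul_comm]
    exact mul_le_mul_of_nonneg_left hsm hP0.le
  have hlogT : ∀ X : ℕ, 0 < X → X ≤ T → Real.log X ≤ Real.log P + η * L := by
    intro X hX hXT
    have hX0 : (0 : ℝ) < X := by exact_mod_cast hX
    have h2 : (X : ℝ) ≤ P * (p : ℝ) ^ η := le_trans (by exact_mod_cast hXT) hTR
    have h3 := Real.log_le_log hX0 h2
    rw [Real.log_mul hP0.ne' (Real.rpow_pos_of_pos hp0 η).ne', Real.log_rpow hp0, ← hLdef] at h3
    exact h3
  have hET : E ≤ T := by
    refine le_trans hE (Nat.le_of_dvd hTpos ?_)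
    exact Finset.prod_dvd_prod_of_subset _ _ _ hNS
  have hcard : (N.primeFactors.card : ℝ) ≤ S.card := by
    exact_mod_cast Finset.card_le_card hNS
  -- inequality (a)
  obtain ⟨hX, ha⟩ := numeric_log_pow hp.pos h0 hA
  have hE0 : 0 < E := by
    rcases Nat.eq_zero_or_pos E with h | h
    · rw [h] at hX; simp at hX
    · exact h
  have hE0R : (0 : ℝ) < E := by exact_mod_cast hE0
  have hlogE := hlogT E hE0 hET
  have ha' : 2 * (B : ℝ) * L ≤ A * (K + η * L + L) := by
    rw [← hLdef] at ha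
    refine le_trans ha (mul_le_mul_of_nonneg_left ?_ hAR)
    have hp1 : 0 < p - 1 := by omega
    have hp1R : (0 : ℝ) < ((p - 1 : ℕ) : ℝ) := by exact_mod_cast hp1
    have h2 : ((4 ^ (N.primeFactors.card + 1) * (p - 1) * E : ℕ) : ℝ) =
        (4 : ℝ) ^ (N.primeFactors.card + 1) * ((p - 1 : ℕ) : ℝ) * E := by push_cast; ring
    rw [h2, Real.log_mul (by positivity) hE0R.ne', Real.log_mul (by positivity) hp1R.ne',
      Real.log_pow]
    have h3 : Real.log ((p - 1 : ℕ) : ℝ) ≤ L := by
      rw [hLdef]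
      apply Real.log_le_log hp1R
      exact_mod_cast Nat.sub_le p 1
    have h4 : (((N.primeFactors.card + 1 : ℕ)) : ℝ) * Real.log 4 ≤ (S.card + 1) * Real.log 4 := by
      apply mul_le_mul_of_nonneg_right _ hl4
      push_cast
      linarith
    rw [hK]
    linarith
  obtain ⟨θ, hθ⟩ : ∃ θ : ℝ, θ = (N.factorization l : ℝ) * Real.log l / ((l - 1).totient * L) :=
    ⟨_, rfl⟩
  rw [← hθ]
  apply numeric_final hη hL0 hbig hAR
  by_cases hlN : l ∈ N.primeFactors
  · have hlS := hNS hlN
    have hl2' : 2 ≤ l := hl.two_le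
    have hlR : (0 : ℝ) < l := by exact_mod_cast hl.pos
    have hlogl : 0 ≤ Real.log l := Real.log_nonneg (by exact_mod_cast hl.one_le)
    obtain ⟨φ, hφ⟩ : ∃ φ : ℕ, φ = (l - 1).totient := ⟨_, rfl⟩
    have hφ1 : 1 ≤ φ := by rw [hφ]; exact Nat.totient_pos.mpr (by omega)
    have hφR : (1 : ℝ) ≤ φ := by exact_mod_cast hφ1
    obtain ⟨e, he⟩ : ∃ e : ℕ, e = max 1 ((p ^ r - 1).factorization l) := ⟨_, rfl⟩
    have he1 : 1 ≤ e := by rw [he]; exact le_max_left _ _
    have he2 : (p ^ r - 1).factorization l ≤ e := by rw [he]; exact le_max_right _ _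
    have he3 : e ≤ (p ^ r - 1).factorization l + 1 := by
      rw [he]; exact max_le (by omega) (by omega)
    have hleT : l ^ e ≤ T := by
      refine Nat.le_of_dvd hTpos ?_
      refine dvd_trans (pow_dvd_pow l he3) ?_
      exact Finset.dvd_prod_of_mem (fun l => l ^ ((p ^ r - 1).factorization l + 1)) hlS
    have hlogle := hlogT (l ^ e) (Nat.pow_pos hl.pos) hleT
    -- consequence of the failure at some number `X ≥ 1`
    have key : ∀ X : ℕ, 0 < X → l ^ N.factorization l ≤ X ^ φ * l ^ e →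
        θ * L ≤ Real.log X + (Real.log P + η * L) := by
      intro X hX hle
      have hXR : (0 : ℝ) < X := by exact_mod_cast hX
      have hle' : ((l : ℝ)) ^ N.factorization l ≤ (X : ℝ) ^ φ * ((l ^ e : ℕ) : ℝ) := by
        exact_mod_cast hle
      have h2 := Real.log_le_log (by positivity) hle'
      have h3 : ((l ^ e : ℕ) : ℝ) ≠ 0 := by
        have : 0 < l ^ e := Nat.pow_pos hl.pos
        exact_mod_cast this.ne'
      rw [Real.log_mul (by positivity) h3, Real.log_pow, Real.log_pow] at h2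
      have h4 : θ * L = (N.factorization l : ℝ) * Real.log l / φ := by
        rw [hθ, ← hφ]
        field_simp
      rw [h4, div_le_iff₀ (by linarith)]
      have h5 : Real.log P + η * L ≤ (Real.log P + η * L) * φ := by
        have : 0 ≤ Real.log P + η * L := by positivity
        nlinarith
      nlinarith
    by_cases hQ1 : (cc l * 1) ^ φ * l ^ e < l ^ N.factorization l
    · -- the largest `Q`
      have hex : ∃ Q : ℕ, 0 < Q ∧ (cc l * Q) ^ φ * l ^ e < l ^ N.factorization l ∧
          l ^ N.factorization l ≤ (cc l * (Q + 1)) ^ φ * l ^ e := by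
        by_contra hcon
        push Not at hcon
        have hall : ∀ Q : ℕ, 0 < Q → (cc l * Q) ^ φ * l ^ e < l ^ N.factorization l := by
          intro Q hQ
          induction Q, hQ using Nat.le_induction with
          | base => exact hQ1
          | succ n hn ih => exact hcon n hn ih
        have h2 := hall (l ^ N.factorization l) (Nat.pow_pos hl.pos)
        have h3 : l ^ N.factorization l ≤ (cc l * l ^ N.factorization l) ^ φ * l ^ e := by
          have h4 : l ^ N.factorization l ≤ cc l * l ^ N.factorization l :=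
            Nat.le_mul_of_pos_left _ (hcc l hlS)
          have h5 : cc l * l ^ N.factorization l ≤ (cc l * l ^ N.factorization l) ^ φ :=
            Nat.le_self_pow (by omega) _
          have h6 : (cc l * l ^ N.factorization l) ^ φ ≤
              (cc l * l ^ N.factorization l) ^ φ * l ^ e :=
            Nat.le_mul_of_pos_right _ (Nat.pow_pos hl.pos)
          omega
        omega
      obtain ⟨Q, hQ, hQlt, hQge⟩ := hex
      have hQR : (1 : ℝ) ≤ Q := by exact_mod_cast hQ
      have hQ0 : (0 : ℝ) < Q := by linarith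
      have hlogQ : θ * L ≤ Real.log Q + c + η * L := by
        have h2 := key (cc l * (Q + 1)) (Nat.mul_pos (hcc l hlS) (by omega)) hQge
        have h3 : Real.log ((cc l * (Q + 1) : ℕ) : ℝ) ≤ Real.log (2 * cc l) + Real.log Q := by
          have hccR : (0 : ℝ) < cc l := by exact_mod_cast hcc l hlS
          rw [← Real.log_mul (by positivity) hQ0.ne']
          apply Real.log_le_log
          · have : 0 < cc l * (Q + 1) := Nat.mul_pos (hcc l hlS) (by omega)
            exact_mod_cast this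
          · push_cast
            nlinarith
        have h4 := hc1 l hlS
        rw [hc]
        linarith
      have h2 := h1 l hlN e Q he1 he2 hQ (by rw [← hφ]; exact hQlt)
      -- take logarithms
      have h3 : ((p : ℝ)) ^ (2 * B) * (Q : ℝ) ^ A ≤
          ((32 : ℝ) * 4 ^ N.primeFactors.card * (p + Q) * E) ^ A := by exact_mod_cast h2
      have h4 := Real.log_le_log (by positivity) h3
      rw [Real.log_mul (by positivity) (by positivity), Real.log_pow, Real.log_pow, Real.log_pow,
        Real.log_mul (by positivity) hE0R.ne', Real.log_mul (by positivity) (by positivity),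
        Real.log_mul (by positivity) (by positivity), Real.log_pow, ← hLdef] at h4
      push_cast at h4
      have h5 : Real.log ((p : ℝ) + Q) ≤ Real.log 2 + max L (Real.log Q) := by
        rcases le_total (p : ℝ) Q with h | h
        · have h6 : Real.log ((p : ℝ) + Q) ≤ Real.log (2 * Q) :=
            Real.log_le_log (by positivity) (by linarith)
          rw [Real.log_mul (by norm_num) hQ0.ne'] at h6
          exact le_trans h6 (by linarith [le_max_right L (Real.log Q)])
        · have h6 : Real.log ((p : ℝ) + Q) ≤ Real.log (2 * p) :=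
            Real.log_le_log (by positivity) (by linarith)
          rw [Real.log_mul (by norm_num) hp0.ne', ← hLdef] at h6
          exact le_trans h6 (by linarith [le_max_left L (Real.log Q)])
      have h6 : (N.primeFactors.card : ℝ) * Real.log 4 ≤ (S.card + 1) * Real.log 4 := by
        apply mul_le_mul_of_nonneg_right _ hl4
        linarith
      have h7 : max L (Real.log Q) - Real.log Q ≤ c + η * L + max (1 - θ) 0 * L := by
        have h8 : (1 - θ) * L ≤ max (1 - θ) 0 * L :=
          mul_le_mul_of_nonneg_right (le_max_left _ _) hL0.le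
        have h9 : 0 ≤ max (1 - θ) 0 * L := mul_nonneg (le_max_right _ _) hL0.le
        have h10 : 0 ≤ η * L := by positivity
        rcases le_total L (Real.log Q) with h | h
        · rw [max_eq_right h]; linarith
        · rw [max_eq_left h]; linarith
      have h8 : 2 * (B : ℝ) * L ≤ A * (Real.log 32 + (N.primeFactors.card : ℝ) * Real.log 4 +
          Real.log ((p : ℝ) + Q) + Real.log E - Real.log Q) := by
        linarith
      refine le_trans h8 (mul_le_mul_of_nonneg_left ?_ hAR)
      rw [hK]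
      linarith
    · -- no `Q`
      push Not at hQ1
      have h2 := key (cc l * 1) (Nat.mul_pos (hcc l hlS) one_pos) hQ1
      have h3 : Real.log ((cc l * 1 : ℕ) : ℝ) ≤ Real.log (2 * cc l) := by
        have hccR : (0 : ℝ) < cc l := by exact_mod_cast hcc l hlS
        apply Real.log_le_log
        · push_cast; linarith
        · push_cast; linarith
      have h4 := hc1 l hlS
      have h5 : (1 - θ) * L ≤ max (1 - θ) 0 * L :=
        mul_le_mul_of_nonneg_right (le_max_left _ _) hL0.le
      refine le_trans ha' (mul_le_mul_of_nonneg_left ?_ hAR)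
      rw [hc]
      nlinarith
  · have hf : N.factorization l = 0 := by
      apply Nat.factorization_eq_zero_of_not_dvd
      intro hd
      exact hlN (Nat.mem_primeFactors.mpr ⟨hl, hd, hN.ne'⟩)
    have hθ0 : θ = 0 := by rw [hθ, hf]; simp
    rw [hθ0]
    refine le_trans ha' (mul_le_mul_of_nonneg_left ?_ hAR)
    have : 0 ≤ η * L := by positivity
    simp only [sub_zero, max_eq_left zero_le_one]
    linarith

end Pool.Agent.GP.Half
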