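import Pool.Agent.GP.Half.TeichRed
import Pool.Agent.GP.Half.Dirichlet2

/-!
# Existence of a good shift
-/

namespace Pool.Agent.GP.Half

theorem exists_shift (l : ℕ) (hl : l.Prime) : ∃ c : ℕ, 0 < c ∧ ∀ N q e Q : ℕ, 0 < N → q ≠ 0 →
    1 ≤ e → q.factorization l ≤ e → 0 < Q →
    (c * Q) ^ (l - 1).totient * l ^ e < l ^ N.factorization l →
    ∃ y : ℕ, (∀ l' : ℕ, l'.Prime → l' ∣ N → l' ∣ y) ∧ ¬ N ∣ y ∧
      ∀ h : (ZMod N)ˣ, h ^ q = 1 → ∃ z : ℤ, (z : ZMod N) = y * (h : ZMod N) ∧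
        z.natAbs * Q ≤ N := by
  obtain ⟨c, hc, hmult⟩ := exists_mult l hl
  refine ⟨c, hc, ?_⟩
  intro N q e Q hN hq he1 he hQ hlt
  have hl0 := hl.pos
  have hone : 1 ≤ (c * Q) ^ (l - 1).totient := Nat.one_le_pow _ _ (Nat.mul_pos hc hQ)
  have heκ : e < N.factorization l := by
    have h1 : l ^ e < l ^ N.factorization l := lt_of_le_of_lt (by nlinarith [pow_pos hl0 e]) hlt
    exact (Nat.pow_lt_pow_iff_right hl.one_lt).1 h1
  obtain ⟨n, hn⟩ := Nat.exists_eq_add_of_lt heκ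
  set n' := n + 1 with hn'
  have hκ : N.factorization l = e + n' := by omega
  have hsub : N.factorization l - e = n' := by omega
  have hlt' : (c * Q) ^ (l - 1).totient < l ^ n' := by
    rw [hκ, pow_add, mul_comm (l ^ e)] at hlt
    exact lt_of_mul_lt_mul_right hlt (Nat.zero_le _)
  obtain ⟨y', hy', hz'⟩ := hmult n' Q hQ hlt'
  set m := N / l ^ N.factorization l with hm
  have hNm : l ^ N.factorization l * m = N := Nat.ordProj_mul_ordCompl_eq_self N l
  have hm0 : 0 < m := Nat.pos_of_ne_zero (fun h0 => by rw [h0, mul_zero] at hNm; omega)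
  have hNm' : m * l ^ e * l ^ n' = N := by
    rw [← hNm, hκ, pow_add]
    ring
  refine ⟨m * l ^ e * y', ?_, ?_, ?_⟩
  · intro l' hl' hl'N
    by_cases hll : l' = l
    · subst hll
      exact ((dvd_pow_self l' (by omega)).mul_left m).mul_right y'
    · rw [← hNm] at hl'N
      rcases (Nat.Prime.dvd_mul hl').1 hl'N with h1 | h1
      · exact absurd ((Nat.prime_dvd_prime_iff_eq hl' hl).1 (hl'.dvd_of_dvd_pow h1)) hll
      · exact (h1.mul_right _).mul_right _
  · intro hd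
    have h1 : m * l ^ e * l ^ n' ∣ m * l ^ e * y' := by rw [hNm']; exact hd
    exact hy' (Nat.dvd_of_mul_dvd_mul_left (Nat.mul_pos hm0 (pow_pos hl0 e)) h1)
  · intro h hh
    have hNe : NeZero N := ⟨hN.ne'⟩
    have hNl : NeZero (l ^ n') := ⟨(pow_pos hl0 n').ne'⟩
    have hd : l ^ (N.factorization l - e) ∣ N := by
      rw [hsub, ← hNm']
      exact Dvd.intro_left _ rfl
    have h1 := teich_red hl hN hq he hd h hh
    have hd' : l ^ n' ∣ N := by
      rw [← hNm']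
      exact Dvd.intro_left _ rfl
    have h1' : (ZMod.unitsMap hd' h) ^ (l - 1) = 1 ∨ ZMod.unitsMap hd' h = -1 := by
      revert h1 hd
      rw [hsub]
      intro hd h1
      exact h1
    obtain ⟨z, hz1, hz2⟩ := hz' _ h1'
    refine ⟨(m * l ^ e : ℕ) * z, ?_, ?_⟩
    · rw [ZMod.unitsMap_val, ZMod.cast_eq_val] at hz1
      have h3 : ((l ^ n' : ℕ) : ℤ) ∣ z - (y' * (h : ZMod N).val : ℕ) := by
        rw [← ZMod.intCast_zmod_eq_zero_iff_dvd]
        rw [Int.cast_sub, hz1, Int.cast_natCast, Nat.cast_mul, sub_self]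
      have h4 : ((N : ℕ) : ℤ) ∣ (m * l ^ e : ℕ) * z - ((m * l ^ e * y' * (h : ZMod N).val : ℕ) : ℤ) := by
        obtain ⟨w, hw⟩ := h3
        refine ⟨w, ?_⟩
        have h5 : (N : ℤ) = ((m * l ^ e : ℕ) : ℤ) * ((l ^ n' : ℕ) : ℤ) := by
          rw [← Nat.cast_mul, hNm']
        rw [h5]
        push_cast at hw ⊢
        linear_combination ((m : ℤ) * (l : ℤ) ^ e) * hw
      have h6 := (ZMod.intCast_zmod_eq_zero_iff_dvd _ N).2 h4
      rw [Int.cast_sub, sub_eq_zero] at h6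
      rw [h6, Int.cast_natCast, Nat.cast_mul, ZMod.natCast_zmod_val]
    · rw [Int.natAbs_mul, Int.natAbs_natCast, mul_assoc]
      calc m * l ^ e * (z.natAbs * Q) ≤ m * l ^ e * l ^ n' := Nat.mul_le_mul_left _ hz2
        _ = N := hNm'

end Pool.Agent.GP.Half
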