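import Pool.Agent.GP.Half.Shift
import Pool.Agent.GP.Half.ShiftEx
import Pool.Agent.GP.Half.Numeric

/-!
# The density theorem
-/

open Finset

namespace Pool.Agent.GP.Half

theorem not_dvd_totient {p N : ℕ} (hp : p.Prime) (hN : 0 < N)
    (h : ∀ l : ℕ, l.Prime → l ∣ N → l < p) : ¬ p ∣ N.totient := by
  intro hd
  have h1 := Nat.totient_mul_prod_primeFactors N
  have h2 : p ∣ N * ∏ l ∈ N.primeFactors, (l - 1) := by
    rw [← h1]
    exact hd.mul_right _
  rcases (Nat.Prime.dvd_mul hp).1 h2 with h3 | h3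
  · exact lt_irrefl p (h p hp h3)
  · obtain ⟨l, hl, h4⟩ := (Prime.dvd_finset_prod_iff hp.prime _).1 h3
    have hl' := Nat.prime_of_mem_primeFactors hl
    have h5 := Nat.le_of_dvd (by have := hl'.two_le; omega) h4
    have h6 := h l hl' (Nat.dvd_of_mem_primeFactors hl)
    omega

theorem density (S : Finset ℕ) (ε : ℝ) (hε : 0 < ε) :
    ∃ (T : Set ℕ) (C δ : ℝ), 0 < δ ∧
      (∀ x : ℕ, ((T ∩ Set.Iic x).ncard : ℝ) ≤ C * (x : ℝ) ^ (1 - δ)) ∧
      ∀ (p : ℕ) [Fact p.Prime], p ∉ T → ∀ N : ℕ, 0 < N → N.primeFactors ⊆ S →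
        ∀ l : ℕ, l.Prime → ((badChar p N).ncard : ℝ) ≤
          1 / 2 * (1 - min 1 ((N.factorization l : ℝ) * Real.log l /
            ((l - 1).totient * Real.log p)) + ε) * (oddPrim p N).ncard := by
  classical
  set S' := S.filter Nat.Prime with hS'def
  have hS' : ∀ l ∈ S', l.Prime := fun l hl => (Finset.mem_filter.1 hl).2
  have hex : ∀ l : ℕ, ∃ c : ℕ, 0 < c ∧ (l.Prime → ∀ N q e Q : ℕ, 0 < N → q ≠ 0 →
    1 ≤ e → q.factorization l ≤ e → 0 < Q →
    (c * Q) ^ (l - 1).totient * l ^ e < l ^ N.factorization l →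
    ∃ y : ℕ, (∀ l' : ℕ, l'.Prime → l' ∣ N → l' ∣ y) ∧ ¬ N ∣ y ∧
      ∀ h : (ZMod N)ˣ, h ^ q = 1 → ∃ z : ℤ, (z : ZMod N) = y * (h : ZMod N) ∧
        z.natAbs * Q ≤ N) := by
    intro l
    by_cases hl : l.Prime
    · obtain ⟨c, hc, h⟩ := exists_shift l hl
      exact ⟨c, hc, fun _ => h⟩
    · exact ⟨1, one_pos, fun h => absurd h hl⟩
  choose cc hcc hshift using hex
  set K := 4 * ∏ l ∈ S', l * (l - 1) with hK
  have hKpos : 0 < K := by
    refine Nat.mul_pos (by norm_num) (Finset.prod_pos fun l hl => ?_)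
    have := (hS' l hl).two_le
    exact Nat.mul_pos (by omega) (by omega)
  set r := K.totient with hr
  have hr0 : 0 < r := Nat.totient_pos.2 hKpos
  obtain ⟨η, p₀, hη, hnum⟩ := numeric S' hS' ε hε cc (fun l _ => hcc l) r
  obtain ⟨C, δ, hC, hδ0, hδ1, hexc⟩ := exceptional_card S' hS' r hr0 η hη
  set p₁ := max (max p₀ (S'.sup id)) 3 with hp₁
  refine ⟨{p | p.Prime ∧ (p ≤ p₁ ∨ (p ∉ S' ∧
    (p : ℝ) ^ η < ∏ l ∈ S', (l : ℝ) ^ (p ^ r - 1).factorization l))}, p₁ + 1 + C, δ, hδ0, ?_, ?_⟩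
  · intro x
    rcases Nat.eq_zero_or_pos x with hx | hx
    · subst hx
      have h1 : {p | p.Prime ∧ (p ≤ p₁ ∨ (p ∉ S' ∧
          (p : ℝ) ^ η < ∏ l ∈ S', (l : ℝ) ^ (p ^ r - 1).factorization l))} ∩ Set.Iic 0 = ∅ := by
        ext p
        simp only [Set.mem_inter_iff, Set.mem_setOf_eq, Set.mem_Iic, Set.mem_empty_iff_false,
          iff_false, not_and]
        intro h1 h2
        have := h1.1.two_le
        omega
      rw [h1, Set.ncard_empty, Nat.cast_zero]
      positivity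
    · have hx1 : (1 : ℝ) ≤ (x : ℝ) ^ (1 - δ) :=
        Real.one_le_rpow (by exact_mod_cast hx) (by linarith)
      set F := (Finset.range (x + 1)).filter fun p => p.Prime ∧ p ∉ S' ∧
        (p : ℝ) ^ η < ∏ l ∈ S', (l : ℝ) ^ (p ^ r - 1).factorization l with hF
      have hsub : {p | p.Prime ∧ (p ≤ p₁ ∨ (p ∉ S' ∧
          (p : ℝ) ^ η < ∏ l ∈ S', (l : ℝ) ^ (p ^ r - 1).factorization l))} ∩ Set.Iic x ⊆
          ((Finset.range (p₁ + 1) ∪ F : Finset ℕ) : Set ℕ) := by
        rintro p ⟨⟨h1, h2⟩, h3⟩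
        rw [Set.mem_Iic] at h3
        rw [Finset.mem_coe, Finset.mem_union, Finset.mem_range, hF, Finset.mem_filter,
          Finset.mem_range]
        rcases h2 with h2 | h2
        · left
          omega
        · right
          exact ⟨by omega, h1, h2⟩
      have h1 := Set.ncard_le_ncard hsub (Finset.finite_toSet _)
      rw [Set.ncard_coe_finset] at h1
      have h2 := h1.trans (Finset.card_union_le _ _)
      rw [Finset.card_range] at h2
      have h3 : (({p | p.Prime ∧ (p ≤ p₁ ∨ (p ∉ S' ∧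
          (p : ℝ) ^ η < ∏ l ∈ S', (l : ℝ) ^ (p ^ r - 1).factorization l))} ∩ Set.Iic x).ncard : ℝ) ≤
          (p₁ + 1) + F.card := by exact_mod_cast h2
      have h4 := hexc x
      calc _ ≤ ((p₁ : ℝ) + 1) + F.card := h3
        _ ≤ ((p₁ : ℝ) + 1) * (x : ℝ) ^ (1 - δ) + C * (x : ℝ) ^ (1 - δ) := by
            refine add_le_add ?_ h4
            exact le_mul_of_one_le_right (by positivity) hx1
        _ = _ := by ring
  · intro p hpF hpT N hN hNS l hl
    have hp := hpF.out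
    have hNS' : N.primeFactors ⊆ S' := fun l hl =>
      Finset.mem_filter.2 ⟨hNS hl, Nat.prime_of_mem_primeFactors hl⟩
    have hpp₁ : p₁ < p := by
      by_contra hcon
      exact hpT ⟨hp, Or.inl (by omega)⟩
    have hpS : ∀ l ∈ S', l < p := by
      intro l hl
      have h1 : l ≤ S'.sup id := Finset.le_sup (f := id) hl
      have h2 : S'.sup id ≤ p₁ := (le_max_right _ _).trans (le_max_left _ _)
      omega
    have hp3 : 3 < p := lt_of_le_of_lt (le_max_right _ _) hpp₁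
    have hp0 : p₀ ≤ p := ((le_max_left _ _).trans (le_max_left _ _)).trans hpp₁.le
    have hpS' : p ∉ S' := fun h => lt_irrefl p (hpS p h)
    have hprod : ∏ l ∈ S', (l : ℝ) ^ (p ^ r - 1).factorization l ≤ (p : ℝ) ^ η := by
      by_contra hcon
      exact hpT ⟨hp, Or.inr ⟨hpS', lt_of_not_ge hcon⟩⟩
    have hlN : ∀ l : ℕ, l.Prime → l ∣ N → l < p := fun l hl hd =>
      hpS l (hNS' (Nat.mem_primeFactors.2 ⟨hl, hd, hN.ne'⟩))
    have hpN : ¬ p ∣ N := fun h => lt_irrefl p (hlN p hp h)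
    have hphi : ¬ p ∣ N.totient := not_dvd_totient hp hN hlN
    have hp2 : p ≠ 2 := by omega
    have hcopK : Nat.Coprime p K := by
      rw [Nat.Prime.coprime_iff_not_dvd hp, hK]
      intro h
      rcases (Nat.Prime.dvd_mul hp).1 h with h1 | h1
      · have h2 : p ∣ 2 ^ 2 := h1
        exact hp2 ((Nat.prime_dvd_prime_iff_eq hp Nat.prime_two).1 (hp.dvd_of_dvd_pow h2))
      · obtain ⟨l, hl, h2⟩ := (Prime.dvd_finset_prod_iff hp.prime _).1 h1
        have h3 := hpS l hl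
        have h4 := (hS' l hl).two_le
        rcases (Nat.Prime.dvd_mul hp).1 h2 with h5 | h5
        · have := Nat.le_of_dvd (by omega) h5
          omega
        · have := Nat.le_of_dvd (by omega) h5
          omega
    have hKd : K ∣ p ^ r - 1 := by
      have h1 := Nat.ModEq.pow_totient hcopK
      exact (Nat.modEq_iff_dvd' (Nat.one_le_pow _ _ hp.pos)).1 h1.symm
    have hr4 : 4 ∣ p ^ r - 1 := (Dvd.intro _ rfl).trans hKd
    have hrl : ∀ l : ℕ, l.Prime → l ∣ N → l * (l - 1) ∣ p ^ r - 1 := by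
      intro l hl hd
      refine dvd_trans ?_ hKd
      refine dvd_mul_of_dvd_right ?_ 4
      exact Finset.dvd_prod_of_mem (fun l => l * (l - 1))
        (hNS' (Nat.mem_primeFactors.2 ⟨hl, hd, hN.ne'⟩))
    have hq0 : p ^ r - 1 ≠ 0 := by
      have := Nat.one_lt_pow hr0.ne' hp.one_lt
      omega
    refine hnum p hp hp0 hprod N hN hNS' (oddPrim p N).ncard (badChar p N).ncard
      (Nat.card {h : (ZMod N)ˣ // h ^ (p ^ r - 1) = 1}) (card_le hN.ne' hq0)
      (half_main hp2 hN hpN hphi hr0 hr4 hrl) ?_ l hl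
    intro l' hl' e Q he1 he hQ hlt
    obtain ⟨y, hy1, hy2, hy3⟩ := hshift l' (Nat.prime_of_mem_primeFactors hl') N (p ^ r - 1) e Q hN
      hq0 he1 he hQ hlt
    exact half_shift hp2 hN hpN hphi hr0 hr4 hrl hQ hy1 hy2 hy3

end Pool.Agent.GP.Half
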