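import Pool.Agent.GP.Half.RankFourier

/-!
# The rank of a family of rows closed under translation
-/

namespace Pool.Agent.GP.Half

open RankFourierAux Finset

/-- The rank of the matrix with rows `c ↦ R i (c₁ c)` is the number of characters `μ` of `C` such
that some `R i` has a nonzero Fourier coefficient at `μ`. -/
theorem rank_eq_card_gen {C ι : Type} [CommGroup C] [Fintype C] [Fintype ι] (K : Type)
    [Field K] [IsAlgClosed K] (hC : (Fintype.card C : K) ≠ 0) (R : ι → C → K) :
    (Matrix.of fun (b : ι × C) (c : C) => R b.1 (b.2 * c)).rank =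
      Nat.card {μ : C →* Kˣ // ∃ i : ι, ∑ c : C, R i c * (μ c : K) ≠ 0} := by
  classical
  have := finite_chars (K := K) hC
  let : Fintype (C →* Kˣ) := Fintype.ofFinite _
  rw [Matrix.rank_eq_finrank_span_row]
  set P : (C →* Kˣ) → Prop := fun μ => ∃ i : ι, ∑ c : C, R i c * (μ c : K) ≠ 0 with hP
  have hmul : ∀ (μ : C →* Kˣ) (i : ι) (c₁ : C), (μ c₁ : K) * ∑ c : C, R i (c₁ * c) * (μ c : K) =
      ∑ c : C, R i c * (μ c : K) := by
    intro μ i c₁
    rw [Finset.mul_sum, ← Equiv.sum_comp (Equiv.mulLeft c₁) (fun c => R i c * (μ c : K))]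
    refine Finset.sum_congr rfl fun c _ => ?_
    rw [Equiv.coe_mulLeft, map_mul, Units.val_mul]
    ring
  have hspan : Submodule.span K (Set.range
      (Matrix.of fun (b : ι × C) (c : C) => R b.1 (b.2 * c)).row) =
      Submodule.span K (Set.range fun μ : {μ : C →* Kˣ // P μ} => chf (K := K) μ.1⁻¹) := by
    apply le_antisymm
    · rw [Submodule.span_le]
      rintro _ ⟨b, rfl⟩
      have h1 := expand hC (fun c : C => R b.1 (b.2 * c))
      have h2 : (Matrix.of fun (b : ι × C) (c : C) => R b.1 (b.2 * c)).row b =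
        fun c : C => R b.1 (b.2 * c) := rfl
      rw [SetLike.mem_coe, h2, h1]
      refine Submodule.sum_mem _ fun μ _ => ?_
      by_cases hμ : P μ
      · exact Submodule.smul_mem _ _ (Submodule.subset_span ⟨⟨μ, hμ⟩, rfl⟩)
      · have h3 : ∑ c : C, R b.1 (b.2 * c) * (μ c : K) = 0 := by
          by_contra h4
          refine hμ ⟨b.1, ?_⟩
          rw [← hmul μ b.1 b.2]
          exact mul_ne_zero (Units.ne_zero _) h4
        rw [h3, mul_zero, zero_smul]
        exact Submodule.zero_mem _
    · rw [Submodule.span_le]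
      rintro _ ⟨⟨μ, i, hb⟩, rfl⟩
      set s : K := ∑ c : C, R i c * (μ c : K) with hs
      have h1 : chf (K := K) μ⁻¹ = s⁻¹ • ∑ c₀ : C, (μ c₀ : K) •
          (Matrix.of fun (b : ι × C) (c : C) => R b.1 (b.2 * c)).row (i, c₀) := by
        funext c
        simp only [Pi.smul_apply, Finset.sum_apply, smul_eq_mul]
        have h2 : ∀ c₀ : C, (μ c₀ : K) *
            (Matrix.of fun (b : ι × C) (c : C) => R b.1 (b.2 * c)).row (i, c₀) c =
            (R i (c₀ * c) * (μ (c₀ * c) : K)) * chf μ⁻¹ c := by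
          intro c₀
          show (μ c₀ : K) * R i (c₀ * c) = _
          have h3 : (μ (c₀ * c) : K) * chf μ⁻¹ c = μ c₀ := by
            show (μ (c₀ * c) : K) * (((μ⁻¹ : C →* Kˣ) c : Kˣ) : K) = μ c₀
            rw [MonoidHom.inv_apply, map_mul, ← Units.val_mul, mul_assoc, mul_inv_cancel, mul_one]
          rw [mul_assoc (R i (c₀ * c)), h3, mul_comm]
        rw [Finset.sum_congr rfl fun c₀ _ => h2 c₀, ← Finset.sum_mul]
        have h4 : ∑ c₀ : C, R i (c₀ * c) * (μ (c₀ * c) : K) = s := by
          rw [hs]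
          exact Fintype.sum_equiv (Equiv.mulRight c) _ _ fun _ => rfl
        rw [h4, ← mul_assoc, inv_mul_cancel₀ hb, one_mul]
      show chf (K := K) μ⁻¹ ∈ _
      rw [h1]
      refine Submodule.smul_mem _ _ (Submodule.sum_mem _ fun c₀ _ => ?_)
      exact Submodule.smul_mem _ _ (Submodule.subset_span ⟨(i, c₀), rfl⟩)
  rw [hspan]
  have hli : LinearIndependent K (fun μ : {μ : C →* Kˣ // P μ} => chf (K := K) μ.1⁻¹) :=
    inv_linInd.comp _ Subtype.val_injective
  rw [finrank_span_eq_card hli, Nat.card_eq_fintype_card]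

end Pool.Agent.GP.Half
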