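import Pool.Agent.GP.Half.Assemble
import Pool.Agent.GP.Half.Rank2
import Pool.Agent.GP.Half.Count2

/-!
# The improved inequality from short rows
-/

open Finset

namespace Pool.Agent.GP.Half

section cubediff

variable {G ι : Type} [CommGroup G] [Fintype ι]

theorem cube_diff_sq (h : ι → G) (e : G → ℤ) (C : Subgroup G) [Fintype C] (hC : ∀ l, h l ∈ C)
    (b b' : G) : ∑ c : C, (cube h e (b * c) - cube h e (b' * c)) ^ 2 ≤
      4 ^ Fintype.card ι * ∑ c : C, (e (b * c) - e (b' * c)) ^ 2 := by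
  classical
  have h1 : ∀ c : C, (cube h e (b * c) - cube h e (b' * c)) ^ 2 ≤ (2 : ℤ) ^ Fintype.card ι *
      ∑ S : Finset ι, (e (b * c * ∏ l ∈ S, h l) - e (b' * c * ∏ l ∈ S, h l)) ^ 2 := by
    intro c
    have h2 : cube h e (b * c) - cube h e (b' * c) = ∑ S : Finset ι, (-1) ^ S.card *
        (e (b * c * ∏ l ∈ S, h l) - e (b' * c * ∏ l ∈ S, h l)) := by
      unfold cube
      rw [← Finset.sum_sub_distrib]
      exact Finset.sum_congr rfl fun S _ => by ring
    rw [h2]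
    refine (sq_sum_le_card_mul_sum_sq).trans (le_of_eq ?_)
    rw [Finset.card_univ, Fintype.card_finset]
    push_cast
    congr 1
    refine Finset.sum_congr rfl fun S _ => ?_
    rw [mul_pow, ← pow_mul, mul_comm S.card 2, pow_mul]
    norm_num
  have h3 : ∀ S : Finset ι, ∑ c : C, (e (b * c * ∏ l ∈ S, h l) - e (b' * c * ∏ l ∈ S, h l)) ^ 2 =
      ∑ c : C, (e (b * c) - e (b' * c)) ^ 2 := by
    intro S
    let k : C := ∏ l ∈ S, ⟨h l, hC l⟩
    have hk1 : (k : G) = ∏ l ∈ S, h l := by simp [k]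
    rw [← Equiv.sum_comp (Equiv.mulRight k) (fun c : C => (e (b * c) - e (b' * c)) ^ 2)]
    refine Finset.sum_congr rfl fun c _ => ?_
    rw [Equiv.coe_mulRight, Subgroup.coe_mul, hk1, ← mul_assoc, ← mul_assoc]
  calc ∑ c : C, (cube h e (b * c) - cube h e (b' * c)) ^ 2
      ≤ ∑ c : C, (2 : ℤ) ^ Fintype.card ι *
          ∑ S : Finset ι, (e (b * c * ∏ l ∈ S, h l) - e (b' * c * ∏ l ∈ S, h l)) ^ 2 :=
        Finset.sum_le_sum fun c _ => h1 c
    _ = (2 : ℤ) ^ Fintype.card ι * ∑ S : Finset ι, ∑ c : C,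
          (e (b * c * ∏ l ∈ S, h l) - e (b' * c * ∏ l ∈ S, h l)) ^ 2 := by
        rw [← Finset.mul_sum, Finset.sum_comm]
    _ = _ := by
        rw [Finset.sum_congr rfl fun S _ => h3 S, Finset.sum_const, Finset.card_univ,
          Fintype.card_finset, nsmul_eq_mul, ← mul_assoc]
        push_cast
        rw [← mul_pow]
        norm_num

end cubediff

section shift

variable {p N q Q y : ℕ} [NeZero (N * p)]

/-- pairs `(b, b + p y)` of units -/
def Pairs (p N y : ℕ) : Type :=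
  {x : (ZMod (N * p))ˣ × (ZMod (N * p))ˣ // (x.2 : ZMod (N * p)) = x.1 + p * y}

noncomputable instance : Fintype (Pairs p N y) := by
  classical
  exact Subtype.fintype _

theorem sum_eps_diff_sq (hp : p.Prime) (hN : 0 < N) (hpN : ¬ p ∣ N) (hQ : 0 < Q)
    (hz : ∀ h : (ZMod N)ˣ, h ^ q = 1 → ∃ z : ℤ, (z : ZMod N) = y * (h : ZMod N) ∧
      z.natAbs * Q ≤ N) (x : Pairs p N y) :
    ∑ c : Csub (N * p) q, (eps (N * p) (x.1.1 * c) - eps (N * p) (x.1.2 * c)) ^ 2 ≤
      4 * ((Nat.card {h : (ZMod N)ˣ // h ^ q = 1} * (2 * (p / Q + 1)) : ℕ) : ℤ) := by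
  classical
  have h0 := card_shift_le hp hN hpN hQ hz x.1.1 x.1.2 x.2
  have h1 : ∀ c : Csub (N * p) q, (eps (N * p) (x.1.1 * c) - eps (N * p) (x.1.2 * c)) ^ 2 =
      4 * (if eps (N * p) (x.1.1 * c) ≠ eps (N * p) (x.1.2 * c) then 1 else 0) := by
    intro c
    unfold eps
    split_ifs <;> simp_all
  rw [Finset.sum_congr rfl fun c _ => h1 c, ← Finset.mul_sum, Finset.sum_boole]
  refine mul_le_mul_of_nonneg_left ?_ (by norm_num)
  norm_cast
  refine le_trans (Finset.card_le_card_of_injOn (fun c : Csub (N * p) q => (c : (ZMod (N * p))ˣ))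
    ?_ ?_) h0
  · intro c hc
    have hc' := (Finset.mem_filter.1 (Finset.mem_coe.1 hc)).2
    exact Finset.mem_coe.2 (Finset.mem_filter.2 ⟨Finset.mem_univ _, mem_Csub.1 c.2, hc'⟩)
  · intro a _ b _ hab
    exact Subtype.ext hab

/-- a unit plus a multiple of `p y` is a unit if every prime factor of `N` divides `y` -/
theorem exists_unit_add (hp : p.Prime) (hy : ∀ l : ℕ, l.Prime → l ∣ N → l ∣ y)
    (b : (ZMod (N * p))ˣ) (j : ℕ) :
    ∃ b' : (ZMod (N * p))ˣ, (b' : ZMod (N * p)) = b + j * (p * y) := by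
  have hcop : Nat.Coprime ((b : ZMod (N * p)).val + j * (p * y)) (N * p) := by
    rw [Nat.coprime_iff_gcd_eq_one]
    by_contra hne
    obtain ⟨l, hl, hld⟩ := Nat.exists_prime_and_dvd hne
    have h1 := hld.trans (Nat.gcd_dvd_left _ _)
    have h2 := hld.trans (Nat.gcd_dvd_right _ _)
    have h3 : l ∣ p * y := by
      rcases (Nat.Prime.dvd_mul hl).1 h2 with h4 | h4
      · exact (hy l hl h4).mul_left _
      · exact h4.mul_right _
    have h4 : l ∣ (b : ZMod (N * p)).val := (Nat.dvd_add_left (h3.mul_left j)).1 h1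
    have h5 := ZMod.val_coe_unit_coprime b
    have h6 := Nat.dvd_gcd h4 h2
    rw [h5] at h6
    exact hl.one_lt.ne' (Nat.dvd_one.1 h6)
  refine ⟨ZMod.unitOfCoprime _ hcop, ?_⟩
  rw [ZMod.coe_unitOfCoprime, Nat.cast_add, ZMod.natCast_zmod_val]
  push_cast
  rfl

theorem coef_invariant (hp : p.Prime) (hy : ∀ l : ℕ, l.Prime → l ∣ N → l ∣ y)
    {K : Type} [Field K] (μ : Csub (N * p) q →* Kˣ)
    (hinv : ∀ x : Pairs p N y, coef K μ x.1.1 = coef K μ x.1.2) (b : (ZMod (N * p))ˣ) (j : ℕ)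
    (b' : (ZMod (N * p))ˣ) (hb' : (b' : ZMod (N * p)) = b + j * (p * y)) :
    coef K μ b' = coef K μ b := by
  induction j generalizing b' with
  | zero =>
    have : b' = b := Units.ext (by rw [hb']; simp)
    rw [this]
  | succ j ih =>
    obtain ⟨b₁, hb₁⟩ := exists_unit_add hp hy b j
    rw [← ih b₁ hb₁]
    refine (hinv ⟨(b₁, b'), ?_⟩).symm
    simp only
    rw [hb', hb₁]
    push_cast
    ring

theorem exists_diff_complex (hp : p.Prime) (hN : 0 < N) (hM : 2 < N * p)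
    (hy : ∀ l : ℕ, l.Prime → l ∣ N → l ∣ y) (hyN : ¬ N ∣ y)
    (h : {l // l ∈ (N * p).primeFactors} → (ZMod (N * p))ˣ) (hq : ∀ l, h l ^ q = 1)
    (hq2 : Even q)
    (hprim : ∀ χ : DirichletCharacter ℂ (N * p), χ.IsPrimitive ↔ ∀ l, χ.toUnitHom (h l) ≠ 1)
    (μ : Csub (N * p) q →* ℂˣ) (hμ : μ ∈ W ℂ q h) :
    ∃ x : Pairs p N y, coef ℂ μ x.1.1 ≠ coef ℂ μ x.1.2 := by
  classical
  by_contra hcon
  push Not at hcon
  obtain ⟨χ, hχprim, hne⟩ := exists_ext_complex h hM hq hq2 hprim μ hμ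
  -- a prime `l` such that `gcd(y, N) ∣ N / l`
  obtain ⟨l, hl, hgl⟩ : ∃ l : ℕ, l.Prime ∧ Nat.gcd y N * l ∣ N := by
    obtain ⟨c, hc⟩ := Nat.gcd_dvd_right y N
    have hc1 : c ≠ 1 := by
      rintro rfl
      rw [mul_one] at hc
      exact hyN (hc ▸ Nat.gcd_dvd_left y N)
    obtain ⟨l, hl, c', rfl⟩ := Nat.exists_prime_and_dvd hc1
    exact ⟨l, hl, c', by rw [mul_assoc]; exact hc⟩
  have hlN : l ∣ N := (Dvd.intro_left _ rfl).trans hgl
  have hlM : l ∣ N * p := hlN.mul_right p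
  have hMl : (N * p) / l ∣ N * p := Nat.div_dvd_of_dvd hlM
  -- an element of the kernel on which `χ` is not trivial
  obtain ⟨u, hu, hχu⟩ : ∃ u ∈ (ZMod.unitsMap hMl).ker, χ.toUnitHom u ≠ 1 := by
    by_contra hcon2
    push Not at hcon2
    have h1 := (isPrimitive_iff (N * p) ℂ χ).1 hχprim
      ⟨l, Nat.mem_primeFactors.2 ⟨hl, hlM, (NeZero.ne _)⟩⟩
    apply h1
    rw [DirichletCharacter.factorsThrough_iff_ker_unitsMap hMl]
    intro u hu
    exact hcon2 u hu
  have hinv : ∀ b : (ZMod (N * p))ˣ, coef ℂ μ (b * u) = coef ℂ μ b := by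
    intro b
    -- `b u = b + j (p y)`
    obtain ⟨j, hj⟩ : ∃ j : ℕ, ((b * u : (ZMod (N * p))ˣ) : ZMod (N * p)) = b + j * (p * y) := by
      have h1 : ((N * p / l : ℕ) : ℤ) ∣ ((b * u : (ZMod (N * p))ˣ) : ZMod (N * p)).val -
          ((b : ZMod (N * p)).val : ℤ) := by
        have h2 : ZMod.unitsMap hMl (b * u) = ZMod.unitsMap hMl b := by
          rw [map_mul, MonoidHom.mem_ker.1 hu, mul_one]
        have h3 := congrArg (fun t : (ZMod (N * p / l))ˣ => (t : ZMod (N * p / l))) h2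
        simp only [ZMod.unitsMap_val] at h3
        rw [ZMod.cast_eq_val, ZMod.cast_eq_val] at h3
        have h4 := (ZMod.natCast_eq_natCast_iff _ _ _).1 h3
        exact Nat.modEq_iff_dvd.1 h4.symm
      obtain ⟨t, ht⟩ := h1
      -- Bezout
      have h5 : ((Nat.gcd (p * y) (N * p) : ℕ) : ℤ) ∣ ((N * p / l : ℕ) : ℤ) := by
        refine Int.natCast_dvd_natCast.2 ?_
        rw [mul_comm p y, Nat.gcd_mul_right]
        obtain ⟨c, hc⟩ := hgl
        refine ⟨c, ?_⟩
        apply Nat.div_eq_of_eq_mul_right hl.pos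
        calc N * p = (y.gcd N * l * c) * p := by rw [← hc]
          _ = _ := by ring
      obtain ⟨s, hs⟩ := h5
      have h6 := Nat.gcd_eq_gcd_ab (p * y) (N * p)
      set a₀ := Nat.gcdA (p * y) (N * p) with ha₀
      set b₀ := Nat.gcdB (p * y) (N * p) with hb₀
      refine ⟨((a₀ * s * t : ℤ) : ZMod (N * p)).val, ?_⟩
      have h7 : (((b * u : (ZMod (N * p))ˣ) : ZMod (N * p)).val : ZMod (N * p)) -
          (((b : ZMod (N * p)).val : ZMod (N * p))) = ((a₀ * s * t : ℤ) : ZMod (N * p)) *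
            (p * y) := by
        have h8 := congrArg (fun z : ℤ => (z : ZMod (N * p))) ht
        simp only [Int.cast_sub, Int.cast_natCast, Int.cast_mul] at h8
        rw [h8]
        have h9 := congrArg (fun z : ℤ => (z : ZMod (N * p))) hs
        simp only [Int.cast_natCast, Int.cast_mul] at h9
        rw [h9]
        have h10 := congrArg (fun z : ℤ => (z : ZMod (N * p))) h6
        have h11 : ((N * p : ℕ) : ZMod (N * p)) = 0 := ZMod.natCast_self _
        push_cast at h10 h11 ⊢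
        rw [h10]
        linear_combination (b₀ : ZMod (N * p)) * s * t * h11
      rw [ZMod.natCast_zmod_val, ZMod.natCast_zmod_val] at h7
      rw [ZMod.natCast_zmod_val, ← h7]
      ring
    exact coef_invariant hp hy μ hcon b j (b * u) hj
  apply hne
  have h1 : ∑ b : (ZMod (N * p))ˣ, χ (b : ZMod (N * p)) * coef ℂ μ b =
      χ (u : ZMod (N * p)) * ∑ b : (ZMod (N * p))ˣ, χ (b : ZMod (N * p)) * coef ℂ μ b := by
    conv_lhs => rw [← Equiv.sum_comp (Equiv.mulRight u)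
      (fun b : (ZMod (N * p))ˣ => χ (b : ZMod (N * p)) * coef ℂ μ b)]
    rw [Finset.mul_sum]
    refine Finset.sum_congr rfl fun b _ => ?_
    rw [Equiv.coe_mulRight, hinv, Units.val_mul, map_mul]
    ring
  have h2 : χ (u : ZMod (N * p)) ≠ 1 := by
    intro h3
    apply hχu
    ext
    rw [MulChar.coe_toUnitHom, h3, Units.val_one]
  have h3 : (1 - χ (u : ZMod (N * p))) *
      ∑ b : (ZMod (N * p))ˣ, χ (b : ZMod (N * p)) * coef ℂ μ b = 0 := by
    linear_combination h1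
  exact (mul_eq_zero.1 h3).resolve_left (sub_ne_zero.2 (Ne.symm h2))

/-- the rows -/
def Rrow (q y : ℕ) (h : {l // l ∈ (N * p).primeFactors} → (ZMod (N * p))ˣ) (x : Pairs p N y)
    (c : Csub (N * p) q) : ℤ :=
  cube h (eps (N * p)) (x.1.1 * c) - cube h (eps (N * p)) (x.1.2 * c)

/-- the matrix of all translates of the rows -/
def Rmat (q y : ℕ) (h : {l // l ∈ (N * p).primeFactors} → (ZMod (N * p))ˣ) :
    Matrix (Pairs p N y × Csub (N * p) q) (Csub (N * p) q) ℤ :=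
  Matrix.of fun b c => Rrow q y h b.1 (b.2 * c)

theorem rank_Rmat {K : Type} [Field K] [IsAlgClosed K]
    (h : {l // l ∈ (N * p).primeFactors} → (ZMod (N * p))ˣ) (hq : ∀ l, h l ^ q = 1)
    (hq2 : Even q) (hM : 2 < N * p) (h2 : (2 : K) ≠ 0)
    (hC : (Fintype.card (Csub (N * p) q) : K) ≠ 0) :
    ((Rmat (p := p) (N := N) q y h).map (Int.cast : ℤ → K)).rank =
      Nat.card {μ : Csub (N * p) q →* Kˣ // μ ∈ W K q h ∧
        ∃ x : Pairs p N y, coef K μ x.1.1 ≠ coef K μ x.1.2} := by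
  have e0 : (Rmat (p := p) (N := N) q y h).map (Int.cast : ℤ → K) =
      Matrix.of fun (b : Pairs p N y × Csub (N * p) q) (c : Csub (N * p) q) =>
        (fun (x : Pairs p N y) (c : Csub (N * p) q) => (Rrow q y h x c : K)) b.1 (b.2 * c) := rfl
  rw [e0]
  refine (rank_eq_card_gen K hC (fun (x : Pairs p N y) (c : Csub (N * p) q) =>
    (Rrow q y h x c : K))).trans ?_
  refine Nat.card_congr (Equiv.subtypeEquivRight fun μ => ?_)
  have e1 : ∀ x : Pairs p N y, ∑ c : Csub (N * p) q, (Rrow q y h x c : K) * (μ c : K) =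
      (∏ l, (1 - ((μ ⟨h l, mem_Csub.2 (hq l)⟩ : Kˣ) : K)⁻¹)) *
        (coef K μ x.1.1 - coef K μ x.1.2) := by
    intro x
    have e2 := sum_cube h (eps (N * p)) (Csub (N * p) q) (fun l => mem_Csub.2 (hq l)) μ x.1.1
    have e3 := sum_cube h (eps (N * p)) (Csub (N * p) q) (fun l => mem_Csub.2 (hq l)) μ x.1.2
    rw [mul_sub]
    unfold coef
    rw [← e2, ← e3, ← Finset.sum_sub_distrib]
    refine Finset.sum_congr rfl fun c _ => ?_
    unfold Rrow
    push_cast
    ring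
  simp only [e1]
  constructor
  · rintro ⟨x, hx⟩
    have h3 := right_ne_zero_of_mul hx
    have h4 := left_ne_zero_of_mul hx
    rw [Finset.prod_ne_zero_iff] at h4
    refine ⟨?_, x, sub_ne_zero.1 h3⟩
    rintro ⟨c, hc⟩ (hcP | ⟨l, hl⟩) h5
    · simp only at hcP
      subst hcP
      apply h3
      rw [coef_even hq2 hM h2 μ h5, coef_even hq2 hM h2 μ h5, sub_zero]
    · simp only at hl
      subst hl
      apply h4 l (Finset.mem_univ _)
      rw [h5]
      simp
  · rintro ⟨hW, x, hx⟩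
    refine ⟨x, mul_ne_zero ?_ (sub_ne_zero.2 hx)⟩
    rw [Finset.prod_ne_zero_iff]
    intro l _ h5
    apply hW ⟨h l, mem_Csub.2 (hq l)⟩ (Or.inr ⟨l, rfl⟩)
    rw [sub_eq_zero] at h5
    ext
    rw [Units.val_one]
    exact (inv_eq_one.1 h5.symm)

theorem pow_V_shift [Fact p.Prime] {k : Type} [Field k] [IsAlgClosed k] [CharP k p]
    (h : {l // l ∈ (N * p).primeFactors} → (ZMod (N * p))ˣ)
    (hp2 : p ≠ 2) (hN : 0 < N) (hpN : ¬ p ∣ N) (hM : 2 < N * p) (hpG : ¬ p ∣ (N * p).totient)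
    (hq : ∀ l, h l ^ q = 1) (hq2 : Even q)
    (hprim : ∀ χ : DirichletCharacter ℂ (N * p), χ.IsPrimitive ↔ ∀ l, χ.toUnitHom (h l) ≠ 1)
    (hQ : 0 < Q) (hy : ∀ l : ℕ, l.Prime → l ∣ N → l ∣ y) (hyN : ¬ N ∣ y)
    (hz : ∀ h : (ZMod N)ˣ, h ^ q = 1 → ∃ z : ℤ, (z : ZMod N) = y * (h : ZMod N) ∧
      z.natAbs * Q ≤ N) :
    p ^ (2 * Nat.card (V k q h)) ≤
      (4 ^ (N * p).primeFactors.card *
        (4 * (Nat.card {h : (ZMod N)ˣ // h ^ q = 1} * (2 * (p / Q + 1))))) ^
          Nat.card (W k q h) := by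
  have hp : p.Prime := Fact.out
  have h2k : (2 : k) ≠ 0 := by
    intro h0
    have : ((2 : ℕ) : k) = 0 := by exact_mod_cast h0
    rw [CharP.cast_eq_zero_iff k p] at this
    exact hp2 ((Nat.prime_dvd_prime_iff_eq Fact.out Nat.prime_two).1 this)
  have hCdvd : Fintype.card (Csub (N * p) q) ∣ (N * p).totient := by
    rw [← ZMod.card_units_eq_totient, ← Nat.card_eq_fintype_card, ← Nat.card_eq_fintype_card]
    exact Subgroup.card_subgroup_dvd_card _
  have hCk : (Fintype.card (Csub (N * p) q) : k) ≠ 0 := by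
    intro h0
    rw [CharP.cast_eq_zero_iff k p] at h0
    exact hpG (h0.trans hCdvd)
  have hCC : (Fintype.card (Csub (N * p) q) : ℂ) ≠ 0 := by exact_mod_cast Fintype.card_ne_zero
  -- ranks
  have rC : ((Rmat (p := p) (N := N) q y h).map (Int.cast : ℤ → ℂ)).rank =
      Nat.card (W k q h) := by
    rw [rank_Rmat h hq hq2 hM two_ne_zero hCC]
    have e1 : Nat.card {μ : Csub (N * p) q →* ℂˣ // μ ∈ W ℂ q h ∧
          ∃ x : Pairs p N y, coef ℂ μ x.1.1 ≠ coef ℂ μ x.1.2} =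
        Nat.card {μ : Csub (N * p) q →* ℂˣ // ∀ c ∈ PS q h, μ c ≠ 1} := by
      refine Nat.card_congr (Equiv.subtypeEquivRight fun μ => ?_)
      exact ⟨fun hμ => hμ.1, fun hμ =>
        ⟨hμ, exists_diff_complex hp hN hM hy hyN h hq hq2 hprim μ hμ⟩⟩
    rw [e1, card_hom_eq ℂ k (by rw [Nat.card_eq_fintype_card]; exact hCC)
      (by rw [Nat.card_eq_fintype_card]; exact hCk)]
    rfl
  have rk : ((Rmat (p := p) (N := N) q y h).map (Int.cast : ℤ → k)).rank + Nat.card (V k q h) ≤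
      Nat.card (W k q h) := by
    rw [rank_Rmat h hq hq2 hM h2k hCk]
    have e1 : Nat.card {μ : Csub (N * p) q →* kˣ // μ ∈ W k q h ∧
          ∃ x : Pairs p N y, coef k μ x.1.1 ≠ coef k μ x.1.2} =
        ({μ : Csub (N * p) q →* kˣ | μ ∈ W k q h ∧
          ∃ x : Pairs p N y, coef k μ x.1.1 ≠ coef k μ x.1.2}).ncard := rfl
    rw [e1, Nat.card_coe_set_eq, Nat.card_coe_set_eq, ← Set.ncard_union_eq]
    · refine Set.ncard_le_ncard ?_ (Set.toFinite _)
      rintro μ (hμ | hμ)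
      · exact hμ.1
      · exact hμ.1
    · rw [Set.disjoint_left]
      rintro μ ⟨_, x, hx⟩ hV
      exact hx ((hV.2 _).trans (hV.2 _).symm)
  have := rank_bound (Rmat (p := p) (N := N) q y h) (p := p) k
    (4 ^ (N * p).primeFactors.card *
        (4 * (Nat.card {h : (ZMod N)ˣ // h ^ q = 1} * (2 * (p / Q + 1)))))
    (by
      rintro ⟨x, c₁⟩
      have h1 : ∑ c : Csub (N * p) q, Rmat (p := p) (N := N) q y h (x, c₁) c ^ 2 =
          ∑ c : Csub (N * p) q, (Rrow q y h x c) ^ 2 := by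
        rw [← Equiv.sum_comp (Equiv.mulLeft c₁) (fun c => (Rrow q y h x c) ^ 2)]
        rfl
      rw [h1]
      refine (cube_diff_sq h (eps (N * p)) (Csub (N * p) q) (fun l => mem_Csub.2 (hq l))
        x.1.1 x.1.2).trans ?_
      rw [Fintype.card_coe]
      push_cast
      refine mul_le_mul_of_nonneg_left ?_ (by positivity)
      have h3 := sum_eps_diff_sq hp hN hpN hQ hz x
      push_cast at h3
      exact h3)
    (Nat.card (V k q h)) (by rw [rC]; exact rk)
  rw [rC] at this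
  exact this

end shift

section final

variable {p N r : ℕ} [hp : Fact p.Prime]

theorem half_shift (hp2 : p ≠ 2) (hN : 0 < N) (hpN : ¬ p ∣ N) (hphi : ¬ p ∣ N.totient)
    (hr : 0 < r) (hr4 : 4 ∣ p ^ r - 1)
    (hrl : ∀ l : ℕ, l.Prime → l ∣ N → l * (l - 1) ∣ p ^ r - 1) {Q y : ℕ} (hQ : 0 < Q)
    (hy : ∀ l : ℕ, l.Prime → l ∣ N → l ∣ y) (hyN : ¬ N ∣ y)
    (hz : ∀ h : (ZMod N)ˣ, h ^ (p ^ r - 1) = 1 → ∃ z : ℤ, (z : ZMod N) = y * (h : ZMod N) ∧
      z.natAbs * Q ≤ N) :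
    p ^ (2 * (badChar p N).ncard) * Q ^ (oddPrim p N).ncard ≤
      (32 * 4 ^ N.primeFactors.card * (p + Q) *
        Nat.card {h : (ZMod N)ˣ // h ^ (p ^ r - 1) = 1}) ^ (oddPrim p N).ncard := by
  have hpr := hp.out
  have hne : NeZero (N * p) := ⟨(Nat.mul_pos hN hpr.pos).ne'⟩
  have hp3 : 3 ≤ p := by
    have := hpr.two_le
    omega
  have hM : 2 < N * p := by nlinarith
  have hq2 : Even (p ^ r - 1) := (even_iff_two_dvd.2 (dvd_trans (by norm_num) hr4))
  have hcopN : Nat.Coprime N p := ((Nat.Prime.coprime_iff_not_dvd hpr).2 hpN).symm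
  have htot : ¬ p ∣ (N * p).totient := by
    rw [Nat.totient_mul hcopN, Nat.totient_prime hpr, hpr.dvd_mul]
    rintro (h1 | h1)
    · exact hphi h1
    · have := Nat.le_of_dvd (by omega) h1
      omega
  refine half_abstract hp2 hN hpN hphi hr hr4 hrl Q _ (fun h hq hprim => ?_)
  have main := pow_V_shift (k := Fpbar p) (p := p) (Q := Q) (y := y) h hp2 hN hpN hM htot hq hq2
    hprim hQ hy hyN hz
  have cP : (N * p).primeFactors.card = N.primeFactors.card + 1 := by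
    rw [Nat.Coprime.primeFactors_mul hcopN, Finset.card_union_of_disjoint
      (Nat.Coprime.disjoint_primeFactors hcopN), Nat.Prime.primeFactors hpr,
      Finset.card_singleton]
  rw [cP] at main
  refine (Nat.mul_le_mul_right _ main).trans ?_
  rw [← mul_pow]
  refine Nat.pow_le_pow_left ?_ _
  have h1 : (p / Q + 1) * Q ≤ p + Q := by
    have := Nat.div_mul_le_self p Q
    nlinarith
  set E := Nat.card {h : (ZMod N)ˣ // h ^ (p ^ r - 1) = 1}
  calc 4 ^ (N.primeFactors.card + 1) * (4 * (E * (2 * (p / Q + 1)))) * Q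
      = 32 * 4 ^ N.primeFactors.card * ((p / Q + 1) * Q) * E := by ring
    _ ≤ 32 * 4 ^ N.primeFactors.card * (p + Q) * E :=
        Nat.mul_le_mul_right _ (Nat.mul_le_mul_left _ h1)

end final

end Pool.Agent.GP.Half
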