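import Pool.Agent.GP.Desc.Surject
import Pool.Agent.GP.Half.Defs

/-!
# Automorphisms of `L` with prescribed action on the roots of unity
-/

open IntermediateField NumberField

namespace Pool.Agent.GP.Half

open Pool.Agent.GP

section

variable {p N : ℕ}

theorem modEq_of_le {X : ℕ → ℕ} (hX : ∀ n, X (n + 1) ≡ X n [MOD N * p ^ n]) {n m : ℕ}
    (h : n ≤ m) : X m ≡ X n [MOD N * p ^ n] := by
  induction m, h using Nat.le_induction with
  | base => exact Nat.ModEq.refl _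
  | succ m hm ih =>
    exact ((hX m).of_dvd (Nat.mul_dvd_mul_left _ (Nat.pow_dvd_pow _ hm))).trans ih

theorem pow_eq_of_modEq {R : Type*} [Monoid R] {z : R} {M a b : ℕ} (hz : z ^ M = 1)
    (h : a ≡ b [MOD M]) : z ^ a = z ^ b := by
  have key : ∀ c : ℕ, z ^ c = z ^ (c % M) := by
    intro c
    conv_lhs => rw [← Nat.mod_add_div c M]
    rw [pow_add, pow_mul, hz, one_pow, mul_one]
  rw [key a, key b, h]

theorem coe_pow_lev {M : ℕ} (w : Lev M) (n : ℕ) : ((w ^ n : Lev M) : ℂ) = (w : ℂ) ^ n := rfl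

open IsCyclotomicExtension.Rat in
theorem exists_lev_aut (M X : ℕ) [NeZero M] (hc : Nat.Coprime X M) :
    ∃ σ : Lev M ≃ₐ[ℚ] Lev M, ∀ z : Lev M, z ^ M = 1 → ((σ z : Lev M) : ℂ) = (z : ℂ) ^ X := by
  have := isCyclotomic_lev M
  have := numberField_lev M
  refine ⟨(galEquivZMod M (Lev M)).symm (ZMod.unitOfCoprime X hc), fun z hz => ?_⟩
  have h1 := galEquivZMod_apply_of_pow_eq M (Lev M)
    ((galEquivZMod M (Lev M)).symm (ZMod.unitOfCoprime X hc)) hz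
  rw [h1, MulEquiv.apply_symm_apply, ZMod.coe_unitOfCoprime, ZMod.val_natCast, coe_pow_lev]
  exact pow_eq_of_modEq (congrArg (fun t : Lev M => (t : ℂ)) hz) (Nat.mod_modEq _ _)

theorem lev_aut_compat {M M' X X' : ℕ} (hM : M ∣ M') (hX : X' ≡ X [MOD M])
    (σ : Lev M ≃ₐ[ℚ] Lev M)
    (hσ : ∀ z : Lev M, z ^ M = 1 → ((σ z : Lev M) : ℂ) = (z : ℂ) ^ X)
    (σ' : Lev M' ≃ₐ[ℚ] Lev M')
    (hσ' : ∀ z : Lev M', z ^ M' = 1 → ((σ' z : Lev M') : ℂ) = (z : ℂ) ^ X')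
    (z : ℂ) (hz : z ∈ Lev M) (hz' : z ∈ Lev M') :
    ((σ ⟨z, hz⟩ : Lev M) : ℂ) = ((σ' ⟨z, hz'⟩ : Lev M') : ℂ) := by
  have hle : Lev M ≤ Lev M' := lev_mono hM
  have key : (Lev M).val.comp (σ : Lev M →ₐ[ℚ] Lev M) =
      ((Lev M').val.comp (σ' : Lev M' →ₐ[ℚ] Lev M')).comp (IntermediateField.inclusion hle) := by
    apply lev_hom_ext
    intro w hw
    have hwC : (w : ℂ) ^ M = 1 := congrArg (fun t : Lev M => (t : ℂ)) hw
    have hw' : (IntermediateField.inclusion hle w) ^ M' = 1 := by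
      have h1 : (IntermediateField.inclusion hle w) ^ M = 1 := by rw [← map_pow, hw, map_one]
      obtain ⟨c, hc⟩ := hM
      calc (IntermediateField.inclusion hle w) ^ M' =
          ((IntermediateField.inclusion hle w) ^ M) ^ c := by rw [← pow_mul]; congr 1
        _ = 1 := by rw [h1, one_pow]
    have e1 := hσ w hw
    have e2 := hσ' _ hw'
    have e3 : ((IntermediateField.inclusion hle w : Lev M') : ℂ) = (w : ℂ) := rfl
    rw [e3] at e2
    have e4 : (w : ℂ) ^ X = (w : ℂ) ^ X' := pow_eq_of_modEq hwC hX.symm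
    exact e1.trans (e4.trans e2.symm)
  exact DFunLike.congr_fun key ⟨z, hz⟩

/-- a compatible family of automorphisms of the layers gives an automorphism of `ℚ_∞` -/
theorem exists_Qinf_aut (hp : p.Prime) (hN : 0 < N) {X : ℕ → ℕ}
    (hX : ∀ n, X (n + 1) ≡ X n [MOD N * p ^ n]) (hcop : ∀ n, Nat.Coprime (X n) (N * p ^ n)) :
    ∃ τ : Qinf p N ≃+* Qinf p N, ∀ (n : ℕ) (z : Qinf p N), (z : ℂ) ^ (N * p ^ n) = 1 →
      ((τ z : Qinf p N) : ℂ) = (z : ℂ) ^ X n := by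
  have hne : ∀ n, NeZero (N * p ^ n) := fun n => ⟨(Nat.mul_pos hN (pow_pos hp.pos _)).ne'⟩
  choose σ hσ using fun n => exists_lev_aut (N * p ^ n) (X n) (hcop n)
  have compat1 : ∀ n m, n ≤ m → ∀ (z : ℂ) (hz : z ∈ Lev (N * p ^ n)) (hz' : z ∈ Lev (N * p ^ m)),
      ((σ n ⟨z, hz⟩ : Lev (N * p ^ n)) : ℂ) = ((σ m ⟨z, hz'⟩ : Lev (N * p ^ m)) : ℂ) :=
    fun n m hnm z hz hz' => lev_aut_compat (Nat.mul_dvd_mul_left _ (Nat.pow_dvd_pow _ hnm))
      (modEq_of_le hX hnm) (σ n) (hσ n) (σ m) (hσ m) z hz hz'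
  have compat : ∀ n m, ∀ (z : ℂ) (hz : z ∈ Lev (N * p ^ n)) (hz' : z ∈ Lev (N * p ^ m)),
      ((σ n ⟨z, hz⟩ : Lev (N * p ^ n)) : ℂ) = ((σ m ⟨z, hz'⟩ : Lev (N * p ^ m)) : ℂ) := by
    intro n m z hz hz'
    rcases le_total n m with h | h
    · exact compat1 n m h z hz hz'
    · exact (compat1 m n h z hz' hz).symm
  let K : ℕ → Subalgebra ℚ ℂ := fun n => (Lev (N * p ^ n)).toSubalgebra
  let f : ∀ n, K n →ₐ[ℚ] ℂ := fun n => (Lev (N * p ^ n)).val.comp (σ n : Lev (N * p ^ n) →ₐ[ℚ]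
    Lev (N * p ^ n))
  have dir : Directed (· ≤ ·) K := by
    intro a b
    obtain ⟨c, h1, h2⟩ := lev_directed p N a b
    exact ⟨c, h1, h2⟩
  let T : Subalgebra ℚ ℂ := (Qinf p N).toSubalgebra
  have hT : T ≤ iSup K := by
    intro z hz
    obtain ⟨m, hm⟩ := (mem_Qinf_iff hp.pos hN).mp (show z ∈ Qinf p N from hz)
    exact (le_iSup K m) hm
  let F : T →ₐ[ℚ] ℂ := Subalgebra.iSupLift K dir f (by
    intro i j h
    ext z
    exact compat i j z z.2 (h z.2)) T hT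
  have hF : ∀ n (z : ℂ) (hz : z ∈ T) (hz' : z ∈ Lev (N * p ^ n)), F ⟨z, hz⟩ =
      (σ n ⟨z, hz'⟩ : ℂ) := by
    intro n z hz hz'
    exact Subalgebra.iSupLift_of_mem (K := K) (T := T) ⟨z, hz⟩ (i := n) hz'
  have hmem : ∀ z : Qinf p N, (F : T →+* ℂ) z ∈ Qinf p N := by
    rintro ⟨z, hz⟩
    obtain ⟨m, hm⟩ := (mem_Qinf_iff hp.pos hN).mp hz
    have h1 := hF m z hz hm
    have h2 : (σ m ⟨z, hm⟩ : ℂ) ∈ Qinf p N := lev_le_Qinf p N m (σ m ⟨z, hm⟩).2
    rw [← h1] at h2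
    exact h2
  let F' : Qinf p N →+* Qinf p N := RingHom.codRestrict (F : Qinf p N →+* ℂ) (Qinf p N) hmem
  have hF' : ∀ n (z : ℂ) (hz : z ∈ Qinf p N) (hz' : z ∈ Lev (N * p ^ n)),
      ((F' ⟨z, hz⟩ : Qinf p N) : ℂ) = (σ n ⟨z, hz'⟩ : ℂ) := fun n z hz hz' => hF n z hz hz'
  have hbij : Function.Bijective F' := by
    refine ⟨F'.injective, ?_⟩
    rintro ⟨w, hw⟩
    obtain ⟨m, hm⟩ := (mem_Qinf_iff hp.pos hN).mp hw
    set u : Lev (N * p ^ m) := (σ m).symm ⟨w, hm⟩ with hu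
    refine ⟨⟨(u : ℂ), lev_le_Qinf p N m u.2⟩, ?_⟩
    apply Subtype.ext
    rw [hF' m _ _ u.2]
    have h1 : σ m u = ⟨w, hm⟩ := by rw [hu, AlgEquiv.apply_symm_apply]
    exact congrArg (fun t : Lev (N * p ^ m) => (t : ℂ)) h1
  refine ⟨RingEquiv.ofBijective F' hbij, ?_⟩
  rintro n ⟨z, hz⟩ hzn
  have hzL : z ∈ Lev (N * p ^ n) := mem_lev_of_pow hzn
  have h1 := hF' n z hz hzL
  have h2 := hσ n ⟨z, hzL⟩ (Subtype.ext hzn)
  exact h1.trans h2

theorem exists_aut (hp : p.Prime) (hN : 0 < N) {X : ℕ → ℕ}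
    (hX : ∀ n, X (n + 1) ≡ X n [MOD N * p ^ n]) (hcop : ∀ n, Nat.Coprime (X n) (N * p ^ n)) :
    ∃ g : Lmax p N ≃+* Lmax p N, ∀ (n : ℕ) (z : Lmax p N), z ^ (N * p ^ n) = 1 →
      g z = z ^ X n := by
  obtain ⟨τ, hτ⟩ := exists_Qinf_aut hp hN hX hcop
  have hgal := Lmax_isGalois hp hN
  let _ : Algebra ℚ (Qinf p N) := DivisionRing.toRatAlgebra
  let τ' : Qinf p N ≃ₐ[ℚ] Qinf p N := AlgEquiv.ofRingEquiv (f := τ) (fun r => by simp)
  have hst : IsScalarTower ℚ (Qinf p N) (Lmax p N) := IsScalarTower.of_algebraMap_eq (fun r => by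
    simp)
  refine ⟨(τ'.liftNormal (Lmax p N) : Lmax p N ≃ₐ[ℚ] Lmax p N), ?_⟩
  intro n z hz
  have hzC : (z : ℂ) ^ (N * p ^ n) = 1 := congrArg (fun t : Lmax p N => (t : ℂ)) hz
  have hzL : (z : ℂ) ∈ Lev (N * p ^ n) := mem_lev_of_pow hzC
  have hzQ : (z : ℂ) ∈ Qinf p N := lev_le_Qinf p N n hzL
  have h1 : z = algebraMap (Qinf p N) (Lmax p N) ⟨z, hzQ⟩ := rfl
  have h2 : (τ'.liftNormal (Lmax p N)) z =
      algebraMap (Qinf p N) (Lmax p N) (τ' ⟨z, hzQ⟩) := by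
    conv_lhs => rw [h1]
    exact τ'.liftNormal_commutes (Lmax p N) ⟨z, hzQ⟩
  refine Eq.trans h2 (Subtype.ext ?_)
  exact hτ n ⟨z, hzQ⟩ hzC

theorem pow_congr_level (hp : p.Prime) (hpN : ¬ p ∣ N) {a b : ℕ} (h : a ≡ b [MOD N * p])
    {s m : ℕ} (hm : m ≤ s + 1) : a ^ p ^ s ≡ b ^ p ^ s [MOD N * p ^ m] := by
  have hcop : Nat.Coprime N (p ^ m) :=
    (Nat.Coprime.pow_right _ ((Nat.Prime.coprime_iff_not_dvd hp).2 hpN).symm)
  rw [← Nat.modEq_and_modEq_iff_modEq_mul hcop]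
  constructor
  · exact (h.of_mul_right p).pow _
  · have h1 : a ≡ b [MOD p] := h.of_mul_left N
    have h2 : ((p : ℕ) : ℤ) ∣ (b : ℤ) - a := Nat.modEq_iff_dvd.1 h1
    have h3 := dvd_sub_pow_of_dvd_sub h2 s
    refine Nat.modEq_iff_dvd.2 ?_
    push_cast
    exact (pow_dvd_pow (p : ℤ) hm).trans h3

theorem tot_pow (hp : p.Prime) (hpN : ¬ p ∣ N) (hN : 0 < N) (hphi : ¬ p ∣ N.totient) (n : ℕ) :
    p ^ (n * (N.totient * (p - 1)).totient) ≡ 1 [MOD N.totient * (p - 1)] := by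
  have hcop : Nat.Coprime p (N.totient * (p - 1)) := by
    refine Nat.Coprime.mul_right ?_ ?_
    · exact (Nat.Prime.coprime_iff_not_dvd hp).2 hphi
    · refine (Nat.Prime.coprime_iff_not_dvd hp).2 fun h => ?_
      have := Nat.le_of_dvd (by have := hp.two_le; omega) h
      have := hp.two_le
      omega
  have h1 := Nat.ModEq.pow_totient hcop
  have h2 := h1.pow n
  rw [one_pow, ← pow_mul] at h2
  rw [mul_comm n]
  exact h2

theorem pow_eq_self (hp : p.Prime) (hpN : ¬ p ∣ N) {x e : ℕ}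
    (hx : Nat.Coprime x (N * p)) (he : e ≡ 1 [MOD N.totient * (p - 1)]) :
    x ^ e ≡ x [MOD N * p] := by
  have hcop : Nat.Coprime N p := ((Nat.Prime.coprime_iff_not_dvd hp).2 hpN).symm
  have h1 : (N * p).totient = N.totient * (p - 1) := by
    rw [Nat.totient_mul hcop, Nat.totient_prime hp]
  have h2 := Nat.ModEq.pow_totient hx
  rw [h1] at h2
  have key : ∀ c : ℕ, x ^ c ≡ x ^ (c % (N.totient * (p - 1))) [MOD N * p] := by
    intro c
    conv_lhs => rw [← Nat.mod_add_div c (N.totient * (p - 1))]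
    rw [pow_add, pow_mul]
    have h3 := h2.pow (c / (N.totient * (p - 1)))
    rw [one_pow] at h3
    simpa using (Nat.ModEq.refl (x ^ (c % (N.totient * (p - 1))))).mul h3
  have h4 := key e
  rw [he] at h4
  exact h4.trans ((key 1).symm.trans (by rw [pow_one]))

theorem exists_teich (hp : p.Prime) (hN : 0 < N) (hpN : ¬ p ∣ N) (hphi : ¬ p ∣ N.totient)
    {m : ℕ} (hdvd : N * p ∣ N * p ^ m) [NeZero (N * p)] [NeZero (N * p ^ m)] :
    ∃ (T : (ZMod (N * p))ˣ →* (ZMod (N * p ^ m))ˣ) (s : ℕ),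
      (∀ a, T (ZMod.unitsMap hdvd a) = a ^ p ^ s) ∧ p ^ s ≡ 1 [MOD N.totient * (p - 1)] ∧
      ∀ d : (ZMod (N * p))ˣ, ∃ g : Lmax p N ≃+* Lmax p N,
        (∀ z : Lmax p N, z ^ (N * p) = 1 → g z = z ^ (d : ZMod (N * p)).val) ∧
        (∀ (n : ℕ) (z : Lmax p N), z ^ (p ^ n) = 1 → g^[p - 1] z = z) ∧
        ∀ z : Lmax p N, z ^ (N * p ^ m) = 1 → g z = z ^ (T d : ZMod (N * p ^ m)).val := by
  have hp2 := hp.two_le
  set t := (N.totient * (p - 1)).totient with ht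
  have ht1 : 1 ≤ t := by
    rw [ht]
    exact Nat.totient_pos.2 (Nat.mul_pos (Nat.totient_pos.2 hN) (by omega))
  have hle : ∀ n, n ≤ n * t + 1 := fun n => by nlinarith
  set e := p ^ (m * t) with he
  have hker : (ZMod.unitsMap hdvd).ker ≤ (powMonoidHom e : (ZMod (N * p ^ m))ˣ →* _).ker := by
    intro a ha
    rw [MonoidHom.mem_ker] at ha ⊢
    rw [powMonoidHom_apply]
    have h1 : (a : ZMod (N * p ^ m)).val ≡ 1 [MOD N * p] := by
      have h2 := congrArg (fun u : (ZMod (N * p))ˣ => (u : ZMod (N * p))) ha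
      simp only [ZMod.unitsMap_val, Units.val_one] at h2
      rw [ZMod.cast_eq_val] at h2
      exact (ZMod.natCast_eq_natCast_iff _ _ _).1 (by rw [h2]; simp)
    have h3 := pow_congr_level hp hpN h1 (hle m)
    rw [one_pow] at h3
    ext
    rw [Units.val_pow_eq_pow_val, Units.val_one, ← ZMod.natCast_zmod_val (a : ZMod (N * p ^ m)),
      ← Nat.cast_pow, he]
    have h4 := (ZMod.natCast_eq_natCast_iff _ _ _).2 h3
    rw [h4, Nat.cast_one]
  let T : (ZMod (N * p))ˣ →* (ZMod (N * p ^ m))ˣ :=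
    (ZMod.unitsMap hdvd).liftOfSurjective (ZMod.unitsMap_surjective hdvd)
      ⟨powMonoidHom e, hker⟩
  have hT : ∀ a, T (ZMod.unitsMap hdvd a) = a ^ e := fun a =>
    MonoidHom.liftOfRightInverse_comp_apply _ _ _ _ a
  refine ⟨T, m * t, hT, tot_pow hp hpN hN hphi m, fun d => ?_⟩
  set x := (d : ZMod (N * p)).val with hx
  have hxcop : Nat.Coprime x (N * p) := ZMod.val_coe_unit_coprime d
  have hxcop' : ∀ n, Nat.Coprime x (N * p ^ n) := fun n =>
    Nat.Coprime.mul_right (Nat.Coprime.coprime_mul_right_right hxcop)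
      (Nat.Coprime.pow_right _ (Nat.Coprime.coprime_mul_left_right hxcop))
  have hself : ∀ n, x ^ p ^ (n * t) ≡ x [MOD N * p] := fun n =>
    pow_eq_self hp hpN hxcop (tot_pow hp hpN hN hphi n)
  obtain ⟨g, hg⟩ := exists_aut hp hN (X := fun n => x ^ p ^ (n * t)) (by
      intro n
      have h1 : (n + 1) * t = t + n * t := by ring
      rw [h1, pow_add, pow_mul]
      have h2 := hself 1
      rw [one_mul] at h2
      exact pow_congr_level hp hpN h2 (hle n))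
    (fun n => Nat.Coprime.pow_left _ (hxcop' n))
  refine ⟨g, ?_, ?_, ?_⟩
  · intro z hz
    have h1 : z ^ (N * p ^ 1) = 1 := by rw [pow_one]; exact hz
    rw [hg 1 z h1]
    exact pow_eq_of_modEq hz (hself 1)
  · intro n z hz
    have h1 : z ^ (N * p ^ n) = 1 := by rw [mul_comm, pow_mul, hz, one_pow]
    have hiter : ∀ j : ℕ, g^[j] z = z ^ (x ^ p ^ (n * t)) ^ j := by
      intro j
      induction j with
      | zero => simp
      | succ j ih =>
        rw [Function.iterate_succ_apply', ih, map_pow, hg n z h1, ← pow_mul, pow_succ, mul_comm]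
    rw [hiter]
    have h2 : (x ^ p ^ (n * t)) ^ (p - 1) ≡ 1 [MOD p ^ n] := by
      rw [← pow_mul, mul_comm, pow_mul]
      have h3 : x ^ (p - 1) ≡ 1 [MOD p] := by
        have := Nat.ModEq.pow_totient (Nat.Coprime.coprime_mul_left_right hxcop)
        rwa [Nat.totient_prime hp] at this
      have h4 : ((p : ℕ) : ℤ) ∣ (1 : ℤ) - ((x ^ (p - 1) : ℕ) : ℤ) := by
        have := Nat.modEq_iff_dvd.1 h3
        exact_mod_cast this
      have h5 := dvd_sub_pow_of_dvd_sub h4 (n * t)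
      refine Nat.modEq_iff_dvd.2 ?_
      rw [one_pow] at h5
      push_cast at h5 ⊢
      exact (pow_dvd_pow (p : ℤ) (hle n)).trans h5
    rw [pow_eq_of_modEq hz h2, pow_one]
  · intro z hz
    rw [hg m z hz]
    let a : (ZMod (N * p ^ m))ˣ := ZMod.unitOfCoprime x (hxcop' m)
    have ha : ZMod.unitsMap hdvd a = d := by
      ext
      rw [ZMod.unitsMap_val, ZMod.coe_unitOfCoprime, ZMod.cast_natCast hdvd, hx,
        ZMod.natCast_zmod_val]
    have h1 : T d = a ^ e := by rw [← ha]; exact hT a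
    rw [h1, Units.val_pow_eq_pow_val, ZMod.coe_unitOfCoprime, ← Nat.cast_pow, ZMod.val_natCast, he]
    exact pow_eq_of_modEq hz (Nat.mod_modEq _ _).symm

end

end Pool.Agent.GP.Half
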