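import Mathlib

/-!
# Module TeichRed: solutions of `h ^ q = 1` modulo `l ^ κ` are Teichmüller modulo `l ^ (κ - e)`

PROOF.  Let `W : ℤ` represent `h` modulo `l ^ κ` (`l^κ ∣ N`), `W ^ q ≡ 1 mod l ^ κ`, `l ∤ W`.
* `l` odd: `W' = W ^ (l-1) ≡ 1 mod l` and `W' ^ q ≡ 1 mod l ^ κ`.  Lifting the exponent
  (`Int.emultiplicity_pow_sub_pow` for odd `l`, or any other version):
  `v_l (W' ^ q - 1) = v_l (W' - 1) + v_l (q)`, so `l ^ (κ - e) ∣ W' - 1`.
* `l = 2`: if `q` is odd then `W ^ q - 1 = (W - 1) * odd`, so `2 ^ κ ∣ W - 1`.  If `q` is even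
  (`Int.two_pow_sub_pow`): `v (W ^ q - 1) + 1 = v (W + 1) + v (W - 1) + v (q)`, one of `W + 1`, `W - 1`
  is `2 mod 4`, so the other is divisible by `2 ^ (κ - v(q))`.  (`κ - e = 0` is trivial.)
-/

namespace Pool.Agent.GP.Half

namespace TeichRedAux

/-- arithmetic in `ℕ∞` -/
lemma enat_aux {k e : ℕ} {a b : ℕ∞} (h1 : (k : ℕ∞) ≤ a + b) (h2 : b ≤ (e : ℕ∞)) :
    ((k - e : ℕ) : ℕ∞) ≤ a := by
  rw [ENat.natCast_sub, tsub_le_iff_right]
  exact h1.trans (add_le_add le_rfl h2)

/-- multiplicity of a nonzero natural number -/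
lemma emult_le {l : ℕ} (hl : l.Prime) {q e : ℕ} (hq : q ≠ 0) (he : q.factorization l ≤ e) :
    emultiplicity l q ≤ (e : ℕ∞) := by
  rw [(Nat.finiteMultiplicity_iff.mpr ⟨hl.ne_one, Nat.pos_of_ne_zero hq⟩).emultiplicity_eq_multiplicity,
    Nat.multiplicity_eq_factorization hl hq]
  exact_mod_cast he

lemma odd_case {l : ℕ} (hl : l.Prime) (hl2 : Odd l) {q e k : ℕ} (hq : q ≠ 0)
    (he : q.factorization l ≤ e) {W : ℤ} (hk : 0 < k) (h : (l : ℤ) ^ k ∣ W ^ q - 1) :
    (l : ℤ) ^ (k - e) ∣ W ^ (l - 1) - 1 := by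
  have hlW : ¬ (l : ℤ) ∣ W := by
    intro hd
    have h1 : (l : ℤ) ∣ W ^ q - 1 := (dvd_pow_self _ hk.ne').trans h
    have h2 : (l : ℤ) ∣ 1 := by
      have := dvd_sub (hd.trans (dvd_pow_self W hq)) h1
      simpa using this
    have h3 : (l : ℕ) ∣ 1 := by exact_mod_cast h2
    exact hl.one_lt.ne' (Nat.dvd_one.mp h3)
  have hc : IsCoprime W (l : ℤ) := by
    rw [isCoprime_comm]
    exact (Nat.prime_iff_prime_int.mp hl).coprime_iff_not_dvd.mpr hlW
  have h1 : (l : ℤ) ∣ W ^ (l - 1) - 1 :=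
    (Int.ModEq.pow_card_sub_one_eq_one hl hc).symm.dvd
  have h2 : ¬ (l : ℤ) ∣ W ^ (l - 1) := fun hd =>
    hlW ((Nat.prime_iff_prime_int.mp hl).dvd_of_dvd_pow hd)
  have h3 := Int.emultiplicity_pow_sub_pow (p := l) hl hl2 (x := W ^ (l - 1)) (y := 1) h1 h2 q
  rw [one_pow] at h3
  have h4 : (l : ℤ) ^ k ∣ (W ^ (l - 1)) ^ q - 1 := by
    rw [← pow_mul, mul_comm, pow_mul]
    refine h.trans ?_
    simpa using sub_dvd_pow_sub_pow (W ^ q) 1 (l - 1)
  rw [pow_dvd_iff_le_emultiplicity, h3] at h4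
  rw [pow_dvd_iff_le_emultiplicity]
  exact enat_aux h4 (emult_le hl hq he)

lemma two_case {q e k : ℕ} (hq : q ≠ 0)
    (he : q.factorization 2 ≤ e) {W : ℤ} (hk : 0 < k) (h : (2 : ℤ) ^ k ∣ W ^ q - 1) :
    (2 : ℤ) ^ (k - e) ∣ W - 1 ∨ (2 : ℤ) ^ (k - e) ∣ W + 1 := by
  have hlW : ¬ (2 : ℤ) ∣ W := by
    intro hd
    have h1 : (2 : ℤ) ∣ W ^ q - 1 := (dvd_pow_self _ hk.ne').trans h
    have h2 : (2 : ℤ) ∣ 1 := by
      have h3 := dvd_sub (hd.trans (dvd_pow_self W hq)) h1
      rwa [sub_sub_cancel] at h3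
    norm_num at h2
  have h1 : (2 : ℤ) ∣ W - 1 := by omega
  rcases Nat.even_or_odd q with hqe | hqo
  · have h3 := Int.two_pow_sub_pow h1 hlW hqe
    rw [one_pow] at h3
    rw [pow_dvd_iff_le_emultiplicity] at h
    have h5 : emultiplicity (2 : ℤ) (q : ℤ) ≤ (e : ℕ∞) := by
      have := emult_le Nat.prime_two hq he
      rw [← Int.natCast_emultiplicity] at this
      exact this
    have h6 : ((k + 1 : ℕ) : ℕ∞) ≤ emultiplicity 2 (W + 1) + emultiplicity 2 (W - 1) +
        emultiplicity (2 : ℤ) (q : ℤ) := by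
      rw [← h3]
      push_cast
      exact add_le_add h le_rfl
    have h7 := enat_aux h6 h5
    have hcase : ¬ (4 : ℤ) ∣ W + 1 ∨ ¬ (4 : ℤ) ∣ W - 1 := by omega
    rcases hcase with hc | hc
    · left
      have h8 : emultiplicity 2 (W + 1) ≤ ((1 : ℕ) : ℕ∞) := by
        by_contra hcon
        have h9 : ((2 : ℕ) : ℕ∞) ≤ emultiplicity 2 (W + 1) := by
          have := Order.add_one_le_of_lt (not_le.mp hcon)
          exact_mod_cast this
        rw [← pow_dvd_iff_le_emultiplicity] at h9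
        exact hc (by norm_num at h9 ⊢; exact h9)
      rw [add_comm (emultiplicity 2 (W + 1))] at h7
      have h10 := enat_aux h7 h8
      rw [pow_dvd_iff_le_emultiplicity]
      refine le_trans ?_ h10
      exact_mod_cast (by omega : k - e ≤ k + 1 - e - 1)
    · right
      have h8 : emultiplicity 2 (W - 1) ≤ ((1 : ℕ) : ℕ∞) := by
        by_contra hcon
        have h9 : ((2 : ℕ) : ℕ∞) ≤ emultiplicity 2 (W - 1) := by
          have := Order.add_one_le_of_lt (not_le.mp hcon)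
          exact_mod_cast this
        rw [← pow_dvd_iff_le_emultiplicity] at h9
        exact hc (by norm_num at h9 ⊢; exact h9)
      have h10 := enat_aux h7 h8
      rw [pow_dvd_iff_le_emultiplicity]
      refine le_trans ?_ h10
      exact_mod_cast (by omega : k - e ≤ k + 1 - e - 1)
  · left
    have h2 : ¬ (2 : ℤ) ∣ (q : ℤ) := by
      intro hd
      have : 2 ∣ q := by exact_mod_cast hd
      exact (Nat.not_even_iff_odd.mpr hqo) (even_iff_two_dvd.mpr this)
    have h3 := emultiplicity_pow_sub_pow_of_prime Int.prime_two h1 hlW h2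
    rw [one_pow] at h3
    rw [pow_dvd_iff_le_emultiplicity] at h ⊢
    rw [h3] at h
    refine le_trans ?_ h
    exact_mod_cast Nat.sub_le k e

end TeichRedAux

theorem teich_red {l : ℕ} (hl : l.Prime) {N q e : ℕ} (hN : 0 < N) (hq : q ≠ 0)
    (he : q.factorization l ≤ e) (hd : l ^ (N.factorization l - e) ∣ N) (h : (ZMod N)ˣ)
    (hh : h ^ q = 1) :
    (ZMod.unitsMap hd h) ^ (l - 1) = 1 ∨ ZMod.unitsMap hd h = -1 := by
  have : NeZero N := ⟨hN.ne'⟩
  set W : ℤ := ((h : ZMod N).val : ℤ) with hW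
  have hWh : ((W : ℤ) : ZMod N) = (h : ZMod N) := by
    rw [hW, Int.cast_natCast, ZMod.natCast_val, ZMod.cast_id', id]
  have hval : ((ZMod.unitsMap hd h : (ZMod (l ^ (N.factorization l - e)))ˣ) :
      ZMod (l ^ (N.factorization l - e))) = ((W : ℤ) : ZMod (l ^ (N.factorization l - e))) := by
    rw [ZMod.unitsMap_def, Units.coe_map, MonoidHom.coe_coe, ← hWh, map_intCast]
  by_cases hk : N.factorization l = 0
  · left
    have h1 : l ^ (N.factorization l - e) = 1 := by rw [hk, Nat.zero_sub, pow_zero]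
    have hs : Subsingleton (ZMod (l ^ (N.factorization l - e))) := by
      rw [h1]
      exact inferInstanceAs (Subsingleton (Fin 1))
    exact Units.ext (Subsingleton.elim _ _)
  · have hkpos : 0 < N.factorization l := Nat.pos_of_ne_zero hk
    have h1 : (N : ℤ) ∣ W ^ q - 1 := by
      rw [← ZMod.intCast_zmod_eq_zero_iff_dvd, Int.cast_sub, Int.cast_pow, hWh, Int.cast_one,
        ← Units.val_pow_eq_pow_val, hh, Units.val_one, sub_self]
    have h2 : (l : ℤ) ^ N.factorization l ∣ W ^ q - 1 := by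
      refine Dvd.dvd.trans ?_ h1
      exact_mod_cast Nat.ordProj_dvd N l
    rcases hl.eq_two_or_odd' with h2l | hodd
    · subst h2l
      rcases TeichRedAux.two_case hq he hkpos h2 with h3 | h3
      · left
        apply Units.ext
        rw [Units.val_pow_eq_pow_val, hval, Units.val_one]
        have h4 : (((W - 1 : ℤ)) : ZMod (2 ^ (N.factorization 2 - e))) = 0 := by
          rw [ZMod.intCast_zmod_eq_zero_iff_dvd]
          exact_mod_cast h3
        rw [Int.cast_sub, Int.cast_one, sub_eq_zero] at h4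
        rw [h4]
        simp
      · right
        apply Units.ext
        rw [hval, Units.val_neg, Units.val_one]
        have h4 : (((W + 1 : ℤ)) : ZMod (2 ^ (N.factorization 2 - e))) = 0 := by
          rw [ZMod.intCast_zmod_eq_zero_iff_dvd]
          exact_mod_cast h3
        rw [Int.cast_add, Int.cast_one] at h4
        exact eq_neg_of_add_eq_zero_left h4
    · left
      have h3 := TeichRedAux.odd_case hl hodd hq he hkpos h2
      apply Units.ext
      rw [Units.val_pow_eq_pow_val, hval, Units.val_one]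
      have h4 : (((W ^ (l - 1) - 1 : ℤ)) : ZMod (l ^ (N.factorization l - e))) = 0 := by
        rw [ZMod.intCast_zmod_eq_zero_iff_dvd]
        exact_mod_cast h3
      rw [Int.cast_sub, Int.cast_one, Int.cast_pow, sub_eq_zero] at h4
      exact h4

end Pool.Agent.GP.Half
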